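import Pool.Agent.Work.MP_6bf1e5_an.Ang.Single
import Pool.Agent.Work.MP_6bf1e5_an.Ens.Uniq
import Pool.Agent.Work.MP_6bf1e5_an.Ens.Newton
import Pool.Agent.Work.MP_6bf1e5_an.Mat.PhysJ
import Pool.Agent.Work.MP_6bf1e5_an.Ens.Main
import Pool.Agent.Work.MP_6bf1e5_an.Ens.NL
import Pool.Agent.Work.MP_6bf1e5_an.Ens.Seg

-- merged part: Pool.Agent.Work.MP_6bf1e5_an.Ang.ToG
section
-- merged part: Pool.Agent.Work.MP_6bf1e5_an.Ang.QCut
section
/-!
Radial cut-off functions (compare Ens/Cut.lean).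
-/

open scoped ContDiff ENNReal FourierTransform Topology ComplexConjugate
open Set MeasureTheory Filter Polynomial Metric Pool.Agent.Work.MP_6bf1e5_an.Ens

namespace Pool.Agent.Work.MP_6bf1e5_an.Ang

noncomputable section

variable {ι : Type} [Fintype ι]

theorem qexists_cut : ∃ K : ℝ, 0 ≤ K ∧ ∀ r d : ℝ, 0 < d → d ≤ r → ∃ ψ : R3 → ℝ, Test ψ ∧ Rad ψ ∧
    (∀ x, 0 ≤ ψ x ∧ ψ x ≤ 1) ∧ (∀ x, ‖x‖ ≤ r → ψ x = 1) ∧ (∀ x, r + d ≤ ‖x‖ → ψ x = 0) ∧
      ∀ x, ‖fderiv ℝ ψ x‖ ≤ K / d := by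
  obtain ⟨L, hL0, hL⟩ := cut_deriv_bound
  refine ⟨4 * L, by positivity, fun r d hd hdr => ?_⟩
  have hr : 0 < r := hd.trans_le hdr
  have hrd : 0 < r * d := mul_pos hr hd
  have hz : ∀ x : R3, r + d ≤ ‖x‖ →
      Real.smoothTransition (1 - (r * d)⁻¹ * (‖x‖ ^ 2 - r ^ 2)) = 0 := by
    intro x hx
    refine Real.smoothTransition.zero_of_nonpos ?_
    have h1 : (r + d) ^ 2 ≤ ‖x‖ ^ 2 := pow_le_pow_left₀ (by positivity) hx 2
    have h2 : r * d ≤ ‖x‖ ^ 2 - r ^ 2 := by nlinarith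
    have h3 : 1 ≤ (r * d)⁻¹ * (‖x‖ ^ 2 - r ^ 2) := by
      rw [← div_eq_inv_mul, le_div_iff₀ hrd]
      linarith
    linarith
  refine ⟨fun x => Real.smoothTransition (1 - (r * d)⁻¹ * (‖x‖ ^ 2 - r ^ 2)), ⟨?_, ?_⟩,
    ⟨fun s => Real.smoothTransition (1 - (r * d)⁻¹ * (s - r ^ 2)),
      (Real.smoothTransition.contDiff (n := ⊤)).comp (by fun_prop), fun _ => rfl⟩,
    fun x => ⟨Real.smoothTransition.nonneg _, Real.smoothTransition.le_one _⟩, fun x hx => ?_,
    hz, fun x => ?_⟩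
  · exact (Real.smoothTransition.contDiff (n := ⊤)).comp
      (contDiff_const.sub (contDiff_const.mul ((contDiff_norm_sq ℝ).sub contDiff_const)))
  · refine HasCompactSupport.intro (isCompact_closedBall (0 : R3) (r + d)) fun x hx => hz x ?_
    rw [mem_closedBall_zero_iff, not_le] at hx
    exact hx.le
  · refine Real.smoothTransition.one_of_one_le ?_
    have h1 : ‖x‖ ^ 2 ≤ r ^ 2 := pow_le_pow_left₀ (norm_nonneg x) hx 2
    have h2 : (r * d)⁻¹ * (‖x‖ ^ 2 - r ^ 2) ≤ 0 :=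
      mul_nonpos_of_nonneg_of_nonpos (inv_nonneg.2 hrd.le) (by linarith)
    linarith
  · rcases le_or_gt ‖x‖ (2 * r) with hx | hx
    · have h1 : HasFDerivAt (fun x : R3 => 1 - (r * d)⁻¹ * (‖x‖ ^ 2 - r ^ 2))
          (-((r * d)⁻¹ • (2 • innerSL ℝ x))) x :=
        (((hasStrictFDerivAt_norm_sq x).hasFDerivAt.sub_const (r ^ 2)).const_mul _).const_sub 1
      have h2 : HasDerivAt Real.smoothTransition
          (deriv Real.smoothTransition (1 - (r * d)⁻¹ * (‖x‖ ^ 2 - r ^ 2)))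
          (1 - (r * d)⁻¹ * (‖x‖ ^ 2 - r ^ 2)) :=
        (((Real.smoothTransition.contDiff (n := 1)).differentiable one_ne_zero) _).hasDerivAt
      have h3 := (h2.comp_hasFDerivAt x h1).fderiv
      have h4 : fderiv ℝ (fun x : R3 => Real.smoothTransition
          (1 - (r * d)⁻¹ * (‖x‖ ^ 2 - r ^ 2))) x = _ := h3
      rw [h4, norm_smul, norm_neg, norm_smul, two_nsmul, Real.norm_eq_abs, Real.norm_eq_abs,
        abs_of_pos (inv_pos.2 hrd)]
      have h5 : ‖innerSL ℝ x + innerSL ℝ x‖ ≤ 4 * r := by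
        refine (norm_add_le _ _).trans ?_
        rw [innerSL_apply_norm]
        linarith
      calc _ ≤ L * ((r * d)⁻¹ * (4 * r)) :=
            mul_le_mul (hL _) (mul_le_mul_of_nonneg_left h5 (inv_pos.2 hrd).le) (by positivity) hL0
        _ = 4 * L / d := by field_simp
    · have h1 : (fun x : R3 => Real.smoothTransition (1 - (r * d)⁻¹ * (‖x‖ ^ 2 - r ^ 2)))
          =ᶠ[𝓝 x] fun _ => 0 := by
        filter_upwards [(isOpen_lt continuous_const continuous_norm).mem_nhds hx] with y hy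
        refine hz y ?_
        have hy' : 2 * r < ‖y‖ := hy
        linarith
      rw [h1.fderiv_eq, fderiv_fun_const]
      simp only [Pi.zero_apply, norm_zero]
      positivity

theorem qcut_key : ∃ θ : ℕ → R3 → ℝ, (∀ n, Test (θ n)) ∧ (∀ n, Rad (θ n)) ∧
    (∀ k, ∃ C : ℝ, 0 ≤ C ∧ ∀ n x, ‖iteratedFDeriv ℝ k (fun y => 1 - θ n y) x‖ ≤ C) ∧
    ∀ (n : ℕ) (x : R3), ‖x‖ ≤ n → θ n x = 1 := by
  obtain ⟨K, -, hK⟩ := qexists_cut
  obtain ⟨ψ, hψ, ⟨g, hg, hg'⟩, -, h1, h0, -⟩ := hK 1 1 one_pos le_rfl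
  have hpos : ∀ n : ℕ, (0 : ℝ) < n + 1 := fun n => by positivity
  refine ⟨fun n x => ψ (((n : ℝ) + 1)⁻¹ • x), fun n => ⟨?_, ?_⟩,
    fun n => ⟨fun s => g (((n : ℝ) + 1)⁻¹ ^ 2 * s), hg.comp (by fun_prop), fun x => by
      simp only [hg', norm_smul, mul_pow, Real.norm_eq_abs, sq_abs]⟩,
    fun k => ?_, fun n x hx => ?_⟩
  · exact hψ.1.comp (contDiff_id.const_smul _)
  · refine HasCompactSupport.intro (isCompact_closedBall (0 : R3) (2 * (n + 1))) fun x hx => ?_
    rw [mem_closedBall_zero_iff, not_le] at hx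
    refine h0 _ ?_
    rw [norm_smul, Real.norm_eq_abs, abs_of_pos (inv_pos.2 (hpos n)), ← div_eq_inv_mul,
      le_div_iff₀ (hpos n)]
    linarith
  · have hψk : ContDiff ℝ k ψ := hψ.1.of_le (mod_cast le_top)
    obtain ⟨C, hC⟩ := hψk.continuous_iteratedFDeriv'.bounded_above_of_compact_support
      (hψ.2.iteratedFDeriv k)
    have hC0 : 0 ≤ C := (norm_nonneg _).trans (hC 0)
    have hη : ∀ x, ‖iteratedFDeriv ℝ k (fun y => 1 - ψ y) x‖ ≤ 1 + C := by
      intro x
      rw [fun_iteratedFDeriv_sub_apply contDiffAt_const hψk.contDiffAt]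
      refine (norm_sub_le _ _).trans (add_le_add ?_ (hC x))
      rcases eq_or_ne k 0 with rfl | hk
      · simp
      · rw [iteratedFDeriv_const_of_ne hk]
        simp
    refine ⟨1 + C, by positivity, fun n x => ?_⟩
    have h2 := iteratedFDeriv_comp_const_smul (𝕜 := ℝ) (f := fun y => 1 - ψ y) (i := k)
      ((n : ℝ) + 1)⁻¹ (contDiff_const.sub hψk)
    rw [h2, norm_smul, norm_pow, Real.norm_eq_abs, abs_of_pos (inv_pos.2 (hpos n))]
    have h3 : ((n : ℝ) + 1)⁻¹ ^ k ≤ 1 :=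
      pow_le_one₀ (inv_pos.2 (hpos n)).le (inv_le_one_of_one_le₀ (by linarith [n.cast_nonneg (α := ℝ)]))
    calc _ ≤ 1 * (1 + C) := mul_le_mul h3 (hη _) (norm_nonneg _) zero_le_one
      _ = 1 + C := one_mul _
  · refine h1 _ ?_
    rw [norm_smul, Real.norm_eq_abs, abs_of_pos (inv_pos.2 (hpos n)), ← div_eq_inv_mul,
      div_le_one (hpos n)]
    linarith

theorem qexists_cut_seq : ∃ θ : ℕ → R3 → ℝ, (∀ n, Test (θ n)) ∧ (∀ n, Rad (θ n)) ∧
    ∀ h, Nice h → ∀ m : ℕ,
    Tendsto (fun n => ∫ x, ‖iteratedFDeriv ℝ m (fun y => (1 - θ n y) * h y) x‖ ^ 2) atTop (𝓝 0) ∧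
    (∀ n, Integrable fun x => ‖iteratedFDeriv ℝ m (fun y => (1 - θ n y) * h y) x‖ ^ 2) ∧
    ∀ ε > 0, ∀ᶠ n in atTop, ∀ x, ‖iteratedFDeriv ℝ m (fun y => (1 - θ n y) * h y) x‖ ≤ ε := by
  obtain ⟨θ, hθ, hr, hC, h1⟩ := qcut_key
  choose C hC0 hC using hC
  refine ⟨θ, hθ, hr, fun h hh m => ?_⟩
  have hη : ∀ n, ContDiff ℝ ∞ fun y => 1 - θ n y := fun n => contDiff_const.sub (hθ n).1
  have hcont : ∀ n, Continuous (iteratedFDeriv ℝ m fun y => (1 - θ n y) * h y) := fun n =>
    ((hη n).mul hh.smooth).continuous_iteratedFDeriv (mod_cast le_top)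
  set G : R3 → ℝ := fun x => ∑ i ∈ Finset.range (m + 1),
    (m.choose i : ℝ) * C i * ‖iteratedFDeriv ℝ (m - i) h x‖ with hG
  have hle : ∀ n x, ‖iteratedFDeriv ℝ m (fun y => (1 - θ n y) * h y) x‖ ≤ G x := by
    intro n x
    refine (norm_iteratedFDeriv_mul_le (hη n) hh.smooth x (mod_cast le_top)).trans ?_
    refine Finset.sum_le_sum fun i _ => ?_
    exact mul_le_mul_of_nonneg_right
      (mul_le_mul_of_nonneg_left (hC i n x) (Nat.cast_nonneg _)) (norm_nonneg _)
  have hzero : ∀ (n : ℕ) (x : R3), ‖x‖ < n →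
      iteratedFDeriv ℝ m (fun y => (1 - θ n y) * h y) x = 0 := by
    intro n x hx
    have h2 : (fun y => (1 - θ n y) * h y) =ᶠ[𝓝 x] fun _ => 0 := by
      filter_upwards [(isOpen_lt continuous_norm continuous_const).mem_nhds hx] with y hy
      have hy' : ‖y‖ < n := hy
      rw [h1 n y hy'.le, sub_self, zero_mul]
    rw [(h2.iteratedFDeriv ℝ m).eq_of_nhds, iteratedFDeriv_fun_zero]
    rfl
  have hG2 : MemLp G 2 := by
    refine memLp_finsetSum _ fun i _ => MemLp.const_mul ?_ _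
    have hc : Continuous (iteratedFDeriv ℝ (m - i) h) :=
      hh.smooth.continuous_iteratedFDeriv (WithTop.coe_le_coe.2 le_top)
    exact ((memLp_two_iff_integrable_sq_norm hc.aestronglyMeasurable).2 (hh.sq _)).norm
  have hGi : Integrable fun x => G x ^ 2 := hG2.integrable_sq
  have hb : ∀ n x, ‖‖iteratedFDeriv ℝ m (fun y => (1 - θ n y) * h y) x‖ ^ 2‖ ≤ G x ^ 2 := by
    intro n x
    rw [Real.norm_eq_abs, abs_of_nonneg (by positivity)]
    exact pow_le_pow_left₀ (norm_nonneg _) (hle n x) 2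
  have hm : ∀ n, AEStronglyMeasurable
      (fun x => ‖iteratedFDeriv ℝ m (fun y => (1 - θ n y) * h y) x‖ ^ 2) volume := fun n =>
    ((hcont n).norm.pow 2).aestronglyMeasurable
  refine ⟨?_, fun n => hGi.mono' (hm n) (Eventually.of_forall (hb n)), fun ε hε => ?_⟩
  · have h3 := tendsto_integral_of_dominated_convergence (μ := volume) (f := fun _ : R3 => (0 : ℝ))
      (fun x => G x ^ 2) hm hGi (fun n => Eventually.of_forall (hb n))
      (Eventually.of_forall fun x => by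
        refine tendsto_const_nhds.congr' ?_
        filter_upwards [tendsto_natCast_atTop_atTop.eventually_gt_atTop ‖x‖] with n hn
        rw [hzero n x hn, norm_zero]
        norm_num)
    simpa using h3
  · have hG0 : Tendsto G (cocompact R3) (𝓝 0) := by
      have h4 := tendsto_finsetSum (Finset.range (m + 1)) fun i _ =>
        ((hh.zero (m - i)).norm.const_mul ((m.choose i : ℝ) * C i))
      simpa using h4
    obtain ⟨K, hK, hKε⟩ := mem_cocompact.1 (hG0.eventually (gt_mem_nhds hε))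
    obtain ⟨R, hR⟩ := hK.isBounded.exists_norm_le
    filter_upwards [tendsto_natCast_atTop_atTop.eventually_gt_atTop R] with n hn x
    by_cases hx : x ∈ K
    · rw [hzero n x ((hR x hx).trans_lt hn), norm_zero]
      exact hε.le
    · exact (hle n x).trans (le_of_lt (hKε hx))

theorem qpress_cut : ∃ θ : ℕ → R3 → ℝ, (∀ n, Test (θ n)) ∧ (∀ n, Rad (θ n)) ∧
    ∀ h, Nice h → press_Small fun n y => (1 - θ n y) * h y := by
  obtain ⟨θ, hθ, hr, H⟩ := qexists_cut_seq
  refine ⟨θ, hθ, hr, fun h hh => ?_⟩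
  have hs : ∀ n, ContDiff ℝ ∞ fun y => (1 - θ n y) * h y := fun n =>
    (contDiff_const.sub (hθ n).1).mul hh.smooth
  refine ⟨hs, fun m => ⟨fun n => pot_cont (hs n) m, (H h hh m).2.1, (H h hh m).1, fun ε hε => ?_⟩⟩
  filter_upwards [(H h hh m).2.2 ε hε] with n hn x
  rw [abs_norm]
  exact hn x

end

end Pool.Agent.Work.MP_6bf1e5_an.Ang
end

-- merged part: Pool.Agent.Work.MP_6bf1e5_an.Ang.JInt
section
/-!
Integration by parts for `rot` and `cas`. `ang_skew`: `integral_pd_mul` with `f * (cr k x) j`; the field `cr k x` is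
divergence free because `Km k j j = 0`. `rot_skew`: components, `Km_anti`. `exists_rad_one`: `qexists_cut`.
-/

open scoped ContDiff ENNReal FourierTransform Topology Matrix RealInnerProductSpace
open Set MeasureTheory Filter Metric Pool.Agent.Work.MP_6bf1e5_an.Ens
  Pool.Agent.Work.MP_6bf1e5_an.Mat

namespace Pool.Agent.Work.MP_6bf1e5_an.Ang

noncomputable section

variable {u v φ : R3 → R3} {θ : R3 → ℝ} {Λ : Set ℝ}

theorem inner_eq_sum (a b : R3) : ⟪a, b⟫ = ∑ i, a i * b i := by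
  simp [PiLp.inner_apply, mul_comm]

theorem TestV.integrable_inner (h : TestV φ) (hu : Continuous u) :
    Integrable fun x => ⟪u x, φ x⟫ := by
  refine (hu.inner h.1.continuous).integrable_of_hasCompactSupport ?_
  refine h.2.mono fun x hx h0 => hx ?_
  simp [h0]

theorem jint_cr_smooth (k j : Fin 3) : ContDiff ℝ ∞ fun y : R3 => cr k y j := by
  simp only [cr_apply]
  fun_prop

theorem jint_cr_div (k j : Fin 3) (x : R3) : pd j (fun y : R3 => cr k y j) x = 0 := by
  have h0 : Km k j j = 0 := by linarith [Km_anti k j j]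
  simp only [cr_apply]
  rw [pd_sum _ fun m _ => by fun_prop]
  refine Finset.sum_eq_zero fun m _ => ?_
  rw [pd_const_mul, pd_coord]
  split_ifs with h
  · rw [h, h0, zero_mul]
  · rw [mul_zero]

theorem jint_cr_skew (k : Fin 3) (a b : R3) :
    ∑ i, cr k a i * b i + ∑ i, a i * cr k b i = 0 := by
  simp only [cr_apply, Finset.sum_mul, Finset.mul_sum]
  rw [Finset.sum_comm, ← Finset.sum_add_distrib]
  refine Finset.sum_eq_zero fun i _ => ?_
  rw [← Finset.sum_add_distrib]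
  refine Finset.sum_eq_zero fun j _ => ?_
  rw [Km_anti k j i]
  ring

theorem jint_comp (hu : ContDiff ℝ ∞ u) (i : Fin 3) : ContDiff ℝ ∞ fun y => u y i :=
  contDiff_euclidean.1 hu i

theorem ang_skew {f χ : R3 → ℝ} (hf : ContDiff ℝ ∞ f) (hχ : Test χ) (k : Fin 3) :
    ∫ x, ang k f x * χ x = -∫ x, f x * ang k χ x := by
  have h := locen_div (G := fun j y => f y * cr k y j)
    (fun j => hf.mul (jint_cr_smooth k j)) hχ
  have e1 : ∀ x, (∑ j, pd j (fun y => f y * cr k y j) x) * χ x = -(ang k f x * χ x) := by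
    intro x
    rw [ang_eq, neg_mul, neg_neg]
    congr 1
    refine Finset.sum_congr rfl fun j _ => ?_
    rw [pd_mul (locen_diff hf x) (locen_diff (jint_cr_smooth k j) x), jint_cr_div]
    ring
  have e2 : ∀ x, ∑ j, f x * cr k x j * pd j χ x = -(f x * ang k χ x) := by
    intro x
    rw [ang_eq, mul_neg, neg_neg, Finset.mul_sum]
    exact Finset.sum_congr rfl fun j _ => mul_assoc _ _ _
  simp only [e1, e2, integral_neg] at h
  linarith

theorem rot_skew (hu : ContDiff ℝ ∞ u) (hφ : TestV φ) (k : Fin 3) :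
    ∫ x, ⟪rot k u x, φ x⟫ = -∫ x, ⟪u x, rot k φ x⟫ := by
  have i1 : ∀ i, Integrable fun x => ang k (fun y => u y i) x * φ x i := fun i =>
    (hφ.comp i).integrable_mul (contDiff_ang (jint_comp hu i) k).continuous
  have i2 : ∀ i, Integrable fun x => u x i * ang k (fun y => φ y i) x := fun i =>
    (test_ang (hφ.comp i) k).integrable_mul (jint_comp hu i).continuous
  have e : ∀ x, ⟪rot k u x, φ x⟫ + ⟪u x, rot k φ x⟫ =
      ∑ i, (ang k (fun y => u y i) x * φ x i + u x i * ang k (fun y => φ y i) x) := by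
    intro x
    have h := jint_cr_skew k (u x) (φ x)
    simp only [inner_eq_sum, rot_apply hu, rot_apply hφ.1, add_mul, mul_add,
      Finset.sum_add_distrib]
    linarith
  refine eq_neg_of_add_eq_zero_left ?_
  rw [← integral_add (hφ.integrable_inner (contDiff_rot hu k).continuous)
    ((hφ.rot k).integrable_inner hu.continuous)]
  simp only [e]
  have i3 : ∀ i, Integrable fun x =>
      ang k (fun y => u y i) x * φ x i + u x i * ang k (fun y => φ y i) x := fun i =>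
    (i1 i).add (i2 i)
  rw [integral_finsetSum _ fun i _ => i3 i]
  refine Finset.sum_eq_zero fun i _ => ?_
  rw [integral_add (i1 i) (i2 i), ang_skew (jint_comp hu i) (hφ.comp i), neg_add_cancel]

theorem cas_symm (hu : ContDiff ℝ ∞ u) (hφ : TestV φ) :
    ∫ x, ⟪cas u x, φ x⟫ = ∫ x, ⟪u x, cas φ x⟫ := by
  simp only [cas, inner_neg_left, inner_neg_right, sum_inner, inner_sum, integral_neg]
  rw [integral_finsetSum _ fun k _ =>
      hφ.integrable_inner (contDiff_rot (contDiff_rot hu k) k).continuous,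
    integral_finsetSum _ fun k _ => ((hφ.rot k).rot k).integrable_inner hu.continuous]
  congr 1
  refine Finset.sum_congr rfl fun k _ => ?_
  rw [rot_skew (contDiff_rot hu k) hφ, rot_skew hu (hφ.rot k), neg_neg]

theorem Comp.of_eigen (hu : ContDiff ℝ ∞ u) {μ : ℝ} (h : ∀ x, cas u x = μ • u x) (hμ : μ ∈ Λ) :
    Comp Λ u := by
  intro l hl φ h1 h2 h3
  have e := cas_symm hu ⟨h1, h2⟩
  simp only [h, h3, real_inner_smul_left, real_inner_smul_right, integral_const_mul] at e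
  have hne : μ ≠ l := fun e => hl (e ▸ hμ)
  exact mul_left_cancel₀ (sub_ne_zero.2 hne) (by rw [sub_mul, e, sub_self, mul_zero])

theorem Comp.rad (h : Comp Λ u) (hθ : Rad θ) : Comp Λ fun x => θ x • u x := by
  intro l hl φ h1 h2 h3
  have c1 : ContDiff ℝ ∞ fun x => θ x • φ x := hθ.contDiff.smul h1
  have c2 : HasCompactSupport fun x => θ x • φ x := by
    refine h2.mono fun x hx h0 => hx ?_
    simp only [h0, smul_zero]
  have c3 : ∀ x, cas (fun x => θ x • φ x) x = l • (θ x • φ x) := by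
    intro x
    rw [cas_rad hθ h1]
    simp only [h3]
    exact smul_comm _ _ _
  have e := h l hl (fun x => θ x • φ x) c1 c2 c3
  simp only [real_inner_smul_left, real_inner_smul_right] at e ⊢
  exact e

theorem Comp.sub (hu : Comp Λ u) (hv : Comp Λ v) (cu : Continuous u) (cv : Continuous v) :
    Comp Λ fun x => u x - v x := by
  intro l hl φ h1 h2 h3
  simp only [inner_sub_left]
  rw [integral_sub (TestV.integrable_inner ⟨h1, h2⟩ cu) (TestV.integrable_inner ⟨h1, h2⟩ cv),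
    hu l hl φ h1 h2 h3, hv l hl φ h1 h2 h3, sub_zero]

theorem Comp.neg (hu : Comp Λ u) : Comp Λ fun x => -u x := by
  intro l hl φ h1 h2 h3
  simp only [inner_neg_left, integral_neg]
  rw [hu l hl φ h1 h2 h3, neg_zero]

theorem exists_rad_one {K : Set R3} (hK : IsCompact K) : ∃ θ : R3 → ℝ, Test θ ∧ Rad θ ∧
    (∀ x, 0 ≤ θ x ∧ θ x ≤ 1) ∧ ∀ x ∈ K, θ x = 1 := by
  obtain ⟨_, -, H⟩ := qexists_cut
  obtain ⟨r, hr, hKr⟩ := hK.isBounded.exists_pos_norm_le
  obtain ⟨ψ, h1, h2, h3, h4, -⟩ := H r r hr le_rfl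
  exact ⟨ψ, h1, h2, h3, fun x hx => h4 x (hKr x hx)⟩

end

end Pool.Agent.Work.MP_6bf1e5_an.Ang
end

-- merged part: Pool.Agent.Work.MP_6bf1e5_an.Ang.ToG
section
/-!
From the system to the single field. The pressure is `-(7/12) (p (0,0) + p (1,1) - 2 p (2,2)) + (49/120) ∑ p (s,s)`. The sum of the
three diagonal equations reads `∑ s, trJ u (s,s) + ∇ ∑ s, p (s,s) = 0` because the trace of `u` vanishes for all times in `I`.
Joint smoothness of `frc`: `contDiffOn_vec`, `tr_apply`, `JS.pd`. `kept`, `removed`: `Comp.of_eigen`.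
-/

open scoped ContDiff ENNReal FourierTransform Topology Matrix RealInnerProductSpace
open Set MeasureTheory Filter Metric Pool.Agent.Work.MP_6bf1e5_an.Ens
  Pool.Agent.Work.MP_6bf1e5_an.Mat

namespace Pool.Agent.Work.MP_6bf1e5_an.Ang

noncomputable section

theorem tog_pd3 {f g h : R3 → ℝ} (hf : ContDiff ℝ ∞ f) (hg : ContDiff ℝ ∞ g) (hh : ContDiff ℝ ∞ h)
    (a b c : ℝ) (j : Fin 3) : pd j (fun y => a * f y + b * g y + c * h y) =
      fun x => a * pd j f x + b * pd j g x + c * pd j h x := by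
  funext x
  rw [pd_add (((locen_diff hf x).const_mul a).fun_add ((locen_diff hg x).const_mul b))
    ((locen_diff hh x).const_mul c), pd_add ((locen_diff hf x).const_mul a)
    ((locen_diff hg x).const_mul b), pd_const_mul, pd_const_mul, pd_const_mul]

theorem tog_lap3 {f g h : R3 → ℝ} (hf : ContDiff ℝ ∞ f) (hg : ContDiff ℝ ∞ g) (hh : ContDiff ℝ ∞ h)
    (a b c : ℝ) (x : R3) : ∑ j, pd j (pd j fun y => a * f y + b * g y + c * h y) x =
      a * ∑ j, pd j (pd j f) x + b * ∑ j, pd j (pd j g) x + c * ∑ j, pd j (pd j h) x := by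
  simp only [Finset.mul_sum, ← Finset.sum_add_distrib]
  refine Finset.sum_congr rfl fun j _ => ?_
  rw [tog_pd3 hf hg hh, tog_pd3 (contDiff_pd hf j) (contDiff_pd hg j) (contDiff_pd hh j)]

theorem tog_dt3 {I : Set ℝ} {F G H : R3 → ℝ → ℝ} (hF : JS I F) (hG : JS I G) (hH : JS I H)
    (hI : UniqueDiffOn ℝ I) (a b c : ℝ) (x : R3) {t : ℝ} (ht : t ∈ I) :
    derivWithin (fun s => a * F x s + b * G x s + c * H x s) I t =
      a * derivWithin (fun s => F x s) I t + b * derivWithin (fun s => G x s) I t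
        + c * derivWithin (fun s => H x s) I t :=
  ((((hF.hasDerivWithinAt x ht).const_mul a).fun_add
    ((hG.hasDerivWithinAt x ht).const_mul b)).fun_add
    ((hH.hasDerivWithinAt x ht).const_mul c)).derivWithin (hI t ht)

theorem tog_one (u : I2 → R3 → R3) (x : R3) (i : Fin 3) : one u x i =
    -(7 / 12) * u (0, 0) x i + -(7 / 12) * u (1, 1) x i + 7 / 6 * u (2, 2) x i := by
  simp only [one, PiLp.smul_apply, PiLp.sub_apply, PiLp.add_apply, smul_eq_mul]
  ring

theorem tog_trJ {u : I2 → R3 → R3} (hu : ∀ a, ContDiff ℝ ∞ (u a)) (a : I2) (x : R3) (i : Fin 3) :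
    trJ u a x i = ∑ b, ∑ d, cJ 3 a b d * ∑ j, u b x j * pd j (fun y => u d y i) x := by
  simp only [trJ, WithLp.ofLp_sum, Finset.sum_apply, PiLp.smul_apply, smul_eq_mul,
    tr_apply (hu _)]

theorem tog_frc {u : I2 → R3 → R3} (hu : ∀ a, ContDiff ℝ ∞ (u a)) (x : R3) (i : Fin 3) :
    frc u x i = ∑ j, one u x j * pd j (fun y => one u y i) x -
      ((-(7 / 12) + 49 / 120) * trJ u (0, 0) x i + (-(7 / 12) + 49 / 120) * trJ u (1, 1) x i
        + (7 / 6 + 49 / 120) * trJ u (2, 2) x i) := by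
  simp only [frc, PiLp.smul_apply, PiLp.sub_apply, PiLp.add_apply, smul_eq_mul, Fin.sum_univ_three,
    tr_apply (contDiff_one hu), tog_one (trJ u)]
  ring

theorem tog_norm (u : I2 → R3 → R3) (x : R3) :
    ‖one u x‖ ≤ 7 / 12 * (‖u (0, 0) x‖ + ‖u (1, 1) x‖ + 2 * ‖u (2, 2) x‖) := by
  rw [one, norm_smul, Real.norm_eq_abs, abs_neg, abs_of_pos (by norm_num : (0 : ℝ) < 7 / 12)]
  refine mul_le_mul_of_nonneg_left ((norm_sub_le _ _).trans (add_le_add (norm_add_le _ _) ?_))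
    (by norm_num)
  rw [norm_smul, Real.norm_eq_abs, abs_two]

theorem tog_abs {a b c M : ℝ} (ha : |a| ≤ M) (hb : |b| ≤ M) (hc : |c| ≤ M) :
    |-(7 / 12) * a + -(7 / 12) * b + 7 / 6 * c| ≤ 3 * M := by
  rw [abs_le] at *
  constructor <;> linarith [ha.1, ha.2, hb.1, hb.2, hc.1, hc.2]

theorem csol_gsol {ν : ℝ} {Λ I : Set ℝ} {u0 : I2 → R3 → R3} {u : I2 → R3 → ℝ → R3}
    {p : I2 → R3 → ℝ → ℝ} (h : CSol ν (cJ 3) u0 I u p) (hI : UniqueDiffOn ℝ I)
    (he : ∀ t ∈ I, IEq fun a x => u a x t) (h6 : (6 : ℝ) ∈ Λ) (h20 : (20 : ℝ) ∉ Λ) :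
    ∃ q, GSol ν Λ (one u0) I (fun x t => one (fun a y => u a y t) x) q
      fun x t => frc (fun a y => u a y t) x := by
  have j1 : ∀ i, JS I fun x t => one (fun a y => u a y t) x i := fun i => by
    simp only [tog_one]
    exact (((h.ju _ i).const_mul _).add ((h.ju _ i).const_mul _)).add ((h.ju _ i).const_mul _)
  have j2 : ∀ a i, JS I fun x t =>
      ∑ b, ∑ d, cJ 3 a b d * ∑ j, u b x t j * pd j (fun y => u d y t i) x := fun a i =>
    JS.sum _ fun b _ => JS.sum _ fun d _ =>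
      (JS.sum _ fun j _ => (h.ju b j).mul ((h.ju d i).pd hI j)).const_mul _
  have tr0 : ∀ t ∈ I, ∀ x i,
      1 * u (0, 0) x t i + 1 * u (1, 1) x t i + 1 * u (2, 2) x t i = 0 := fun t ht x i => by
    have := congrArg (fun v : R3 => v i) ((he t ht).trace x)
    simpa [Fin.sum_univ_three] using this
  refine ⟨fun x t => (-(7 / 12) + 49 / 120) * p (0, 0) x t + (-(7 / 12) + 49 / 120) * p (1, 1) x t
      + (7 / 6 + 49 / 120) * p (2, 2) x t,
    (contDiffOn_vec (v := fun x t => one (fun a y => u a y t) x)).2 j1,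
    ((contDiffOn_const.mul (h.smooth_p _)).add (contDiffOn_const.mul (h.smooth_p _))).add
      (contDiffOn_const.mul (h.smooth_p _)),
    (contDiffOn_vec (v := fun x t => frc (fun a y => u a y t) x)).2 fun i => ?_,
    fun x t ht i => ?_, fun x t ht => ?_, fun x => ?_,
    fun t ht => Comp.of_eigen (contDiff_one (he t ht).smooth) (he t ht).cas_one h6,
    fun t ht => Comp.of_eigen (contDiff_frc (he t ht).smooth) (he t ht).cas_frc h20⟩
  · refine ContDiffOn.congr ((JS.sum Finset.univ fun j _ => (j1 j).mul ((j1 i).pd hI j)).sub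
      ((((j2 (0, 0) i).const_mul (-(7 / 12) + 49 / 120)).add
        ((j2 (1, 1) i).const_mul (-(7 / 12) + 49 / 120))).add
        ((j2 (2, 2) i).const_mul (7 / 6 + 49 / 120)))) fun z hz => ?_
    simp only [tog_frc (he z.2 hz.2).smooth, tog_trJ (he z.2 hz.2).smooth]
  · have s0 := (h.ju (0, 0) i).slice ht
    have s1 := (h.ju (1, 1) i).slice ht
    have s2 := (h.ju (2, 2) i).slice ht
    have e1 := tog_dt3 (h.ju (0, 0) i) (h.ju (1, 1) i) (h.ju (2, 2) i) hI 1 1 1 x ht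
    rw [derivWithin_congr (f := fun _ => 0) (fun s hs => tr0 s hs x i) (tr0 t ht x i),
      derivWithin_fun_const] at e1
    have e2 := tog_lap3 s0 s1 s2 1 1 1 x
    have e3 : ∀ j : Fin 3, pd j (fun _ => (0 : ℝ)) = fun _ => 0 := fun j => funext (pd_const 0 j)
    simp only [tr0 t ht, e3, Finset.sum_const_zero] at e2
    have e4 := (congrArg (fun F => derivWithin F I t)
      (funext fun s => tog_one (fun a y => u a y s) x i)).trans
      (tog_dt3 (h.ju (0, 0) i) (h.ju (1, 1) i) (h.ju (2, 2) i) hI _ _ _ x ht)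
    have e5 := (congrArg (fun F => ∑ j, pd j (pd j F) x)
      (funext fun y => tog_one (fun a y => u a y t) y i)).trans (tog_lap3 s0 s1 s2 _ _ _ x)
    have m0 := h.momentum (0, 0) x t ht i
    have m1 := h.momentum (1, 1) x t ht i
    have m2 := h.momentum (2, 2) x t ht i
    rw [e4, e5, tog_frc (he t ht).smooth, tog_trJ (he t ht).smooth, tog_trJ (he t ht).smooth,
      tog_trJ (he t ht).smooth,
      tog_pd3 ((h.jp _).slice ht) ((h.jp _).slice ht) ((h.jp _).slice ht)]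
    simp only [Pi.zero_apply] at e1
    linear_combination (-(7 / 12) + 49 / 120) * m0 + (-(7 / 12) + 49 / 120) * m1
      + (7 / 6 + 49 / 120) * m2 + 49 / 120 * e1 - 49 / 120 * ν * e2
  · have e := fun i => (congrArg (fun F => pd i F x)
      (funext fun y => tog_one (fun a y => u a y t) y i)).trans
      (congrFun (tog_pd3 ((h.ju (0, 0) i).slice ht) ((h.ju (1, 1) i).slice ht)
        ((h.ju (2, 2) i).slice ht) _ _ _ i) x)
    simp only [e, Finset.sum_add_distrib, ← Finset.mul_sum, h.divFree _ x t ht, mul_zero, add_zero]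
  · simp only [one, h.initial]

theorem en_one_le {u : I2 → R3 → R3} (hu : ∀ a, Continuous (u a)) :
    en (one u) ≤ 3 * energy u := by
  have e : ∀ v : R3, ‖v‖ₑ ^ 2 = ENNReal.ofReal (‖v‖ ^ 2) := fun v => by
    rw [← ofReal_norm, ← ENNReal.ofReal_pow (norm_nonneg _)]
  have hm : ∀ a, Measurable fun x => ‖u a x‖ₑ ^ 2 := fun a => (hu a).measurable.enorm.pow_const 2
  rw [en, energy, ← lintegral_finsetSum _ fun a _ => hm a,
    ← lintegral_const_mul _ (Finset.measurable_sum _ fun a _ => hm a)]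
  refine lintegral_mono fun x => ?_
  simp only [e]
  rw [← ENNReal.ofReal_sum_of_nonneg fun a _ => sq_nonneg _, ← ENNReal.ofReal_ofNat 3,
    ← ENNReal.ofReal_mul (by norm_num)]
  refine ENNReal.ofReal_le_ofReal ((pow_le_pow_left₀ (norm_nonneg _) (tog_norm u x) 2).trans ?_)
  simp only [Fintype.sum_prod_type, Fin.sum_univ_three]
  nlinarith [sq_nonneg (‖u (0, 0) x‖ - ‖u (1, 1) x‖), sq_nonneg (2 * ‖u (0, 0) x‖ - ‖u (2, 2) x‖),
    sq_nonneg (2 * ‖u (1, 1) x‖ - ‖u (2, 2) x‖), sq_nonneg ‖u (0, 0) x‖, sq_nonneg ‖u (1, 1) x‖,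
    sq_nonneg ‖u (2, 2) x‖, sq_nonneg ‖u (0, 1) x‖, sq_nonneg ‖u (0, 2) x‖, sq_nonneg ‖u (1, 0) x‖,
    sq_nonneg ‖u (1, 2) x‖, sq_nonneg ‖u (2, 0) x‖, sq_nonneg ‖u (2, 1) x‖]

theorem norm_one_le (u : I2 → R3 → R3) (x : R3) {C : ℝ} (h : ∀ a, ‖u a x‖ ≤ C) :
    ‖one u x‖ ≤ 3 * C := by
  linarith [tog_norm u x, h (0, 0), h (1, 1), h (2, 2), norm_nonneg (u (0, 0) x)]

theorem one_bounded {u : I2 → R3 → R3} (hu : ∀ a, ContDiff ℝ ∞ (u a)) {M : ℝ}
    (h : ∀ a x i, |u a x i| ≤ M ∧ ∀ j, |pd j (fun y => u a y i) x| ≤ M) (x : R3) (i : Fin 3) :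
    |one u x i| ≤ 3 * M ∧ ∀ j, |pd j (fun y => one u y i) x| ≤ 3 * M := by
  have hs : ∀ a, ContDiff ℝ ∞ fun y => u a y i := fun a => contDiff_euclidean.1 (hu a) i
  simp only [tog_one]
  refine ⟨tog_abs (h _ x i).1 (h _ x i).1 (h _ x i).1, fun j => ?_⟩
  rw [tog_pd3 (hs _) (hs _) (hs _)]
  exact tog_abs ((h _ x i).2 j) ((h _ x i).2 j) ((h _ x i).2 j)

end

end Pool.Agent.Work.MP_6bf1e5_an.Ang
end

-- merged part: Pool.Agent.Work.MP_6bf1e5_an.Ang.PolyE
section
/-!
Polynomial fields are finite sums of eigenfields of `cas`. For a degree `d` let `W d` be the span of the monomial fields with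
`∑ j, α j ≤ d`: a finite-dimensional space of smooth fields that `rot k` maps into itself (it preserves the degree).
With `θ` from `exists_rad_one (closedBall 0 1)`, `⟪P, Q⟫ = ∫ ⟪θ P, θ Q⟫` is an inner product on `W d` (a polynomial that vanishes on the
unit ball vanishes: it is analytic, `AnalyticOnNhd.eq_of_eventuallyEq`), and `cas` is symmetric (`cas_symm`, `cas_rad`). Use
`InnerProductSpace.Core` and `LinearMap.IsSymmetric.eigenvectorBasis` (or `iSup_eigenspace`). Any other proof is welcome.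
-/

open scoped ContDiff ENNReal FourierTransform Topology Matrix RealInnerProductSpace
open Set MeasureTheory Filter Metric Pool.Agent.Work.MP_6bf1e5_an.Ens
  Pool.Agent.Work.MP_6bf1e5_an.Mat

namespace Pool.Agent.Work.MP_6bf1e5_an.Ang

noncomputable section

theorem polye_diag {V : Type} [AddCommGroup V] [Module ℝ V] [FiniteDimensional ℝ V]
    (B : V → V → ℝ) (hs : ∀ x y, B x y = B y x) (hp : ∀ x, 0 ≤ B x x)
    (ha : ∀ x y z, B (x + y) z = B x z + B y z) (hm : ∀ (r : ℝ) x y, B (r • x) y = r * B x y)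
    (hd : ∀ x, B x x = 0 → x = 0) (T : V →ₗ[ℝ] V) (hT : ∀ x y, B (T x) y = B x (T y)) :
    ⨆ μ, Module.End.eigenspace T μ = ⊤ := by
  let c : InnerProductSpace.Core ℝ V :=
    { inner := B
      conj_inner_symm := fun x y => hs y x
      re_inner_nonneg := hp
      add_left := ha
      smul_left := fun x y r => hm r x y
      definite := hd }
  let _ : NormedAddCommGroup V := InnerProductSpace.Core.toNormedAddCommGroup (𝕜 := ℝ) (cd := c)
  let _ : InnerProductSpace ℝ V := InnerProductSpace.ofCore c.toCore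
  have h : T.IsSymmetric := hT
  exact Submodule.orthogonal_eq_bot_iff.1 h.orthogonalComplement_iSup_eigenspaces_eq_bot

/-- monomial fields -/
def polye_mon {ι : Type} [Fintype ι] (p : (ι → Fin 3) × Fin 3) (x : R3) : R3 :=
  (∏ a, x (p.1 a)) • (EuclideanSpace.single p.2 (1 : ℝ) : R3)

/-- homogeneous fields -/
def polye_W (ι : Type) [Fintype ι] : Submodule ℝ (R3 → R3) :=
  Submodule.span ℝ (Set.range (polye_mon (ι := ι)))

/-- sums of eigenfields -/
def polye_E : Submodule ℝ (R3 → R3) :=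
  Submodule.span ℝ {Q | ContDiff ℝ ∞ Q ∧ ∃ l : ℝ, ∀ x, cas Q x = l • Q x}

variable {ι : Type} [Fintype ι]

theorem polye_mon_smooth (p : (ι → Fin 3) × Fin 3) : ContDiff ℝ ∞ (polye_mon p) :=
  (contDiff_prod fun a _ => (EuclideanSpace.proj (p.1 a) : R3 →L[ℝ] ℝ).contDiff).smul
    contDiff_const

theorem polye_W_smooth {P : R3 → R3} (hP : P ∈ polye_W ι) : ContDiff ℝ ∞ P := by
  induction hP using Submodule.span_induction with
  | mem P h =>
    obtain ⟨p, rfl⟩ := h
    exact polye_mon_smooth p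
  | zero => exact contDiff_const
  | add P Q _ _ hP hQ => exact hP.add hQ
  | smul r P _ hP => exact hP.const_smul r

theorem polye_W_hom {P : R3 → R3} (hP : P ∈ polye_W ι) (r : ℝ) (x : R3) :
    P (r • x) = r ^ Fintype.card ι • P x := by
  induction hP using Submodule.span_induction with
  | mem P h =>
    obtain ⟨p, rfl⟩ := h
    simp only [polye_mon, PiLp.smul_apply, smul_eq_mul, Finset.prod_mul_distrib, Finset.prod_const,
      Finset.card_univ, mul_smul]
  | zero => simp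
  | add P Q _ _ hP hQ => rw [Pi.add_apply, Pi.add_apply, hP, hQ, smul_add]
  | smul s P _ hP => rw [Pi.smul_apply, Pi.smul_apply, hP, smul_comm]

theorem polye_rot_mon (k : Fin 3) (p : (ι → Fin 3) × Fin 3) :
    rot k (polye_mon p) ∈ polye_W ι := by
  classical
  have e : rot k (polye_mon p) = ∑ j, Km k j p.2 • polye_mon (p.1, j) -
      ∑ a, ∑ l, Km k (p.1 a) l • polye_mon (Function.update p.1 a l, p.2) := by
    funext x
    have h1 : HasFDerivAt (polye_mon p) _ x :=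
      (HasFDerivAt.finsetProd (u := Finset.univ) fun a _ =>
        (EuclideanSpace.proj (p.1 a) : R3 →L[ℝ] ℝ).hasFDerivAt (x := x)).smul_const
          (EuclideanSpace.single p.2 (1 : ℝ) : R3)
    rw [rot, h1.fderiv, Pi.sub_apply, Finset.sum_apply, Finset.sum_apply]
    congr 1
    · ext i
      simp [cr_apply, polye_mon, Pi.single_apply, mul_comm]
    · simp only [ContinuousLinearMap.smulRight_apply, _root_.sum_apply,
        _root_.smul_apply, Finset.sum_smul, Finset.sum_apply, Pi.smul_apply,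
        polye_mon, smul_smul]
      refine Finset.sum_congr rfl fun a _ => ?_
      rw [← Finset.sum_smul]
      congr 1
      change (∏ b ∈ Finset.univ.erase a, x (p.1 b)) * cr k x (p.1 a) = _
      rw [cr_apply, Finset.mul_sum]
      refine Finset.sum_congr rfl fun l _ => ?_
      have h2 : ∏ b ∈ Finset.univ.erase a, x (Function.update p.1 a l b) =
          ∏ b ∈ Finset.univ.erase a, x (p.1 b) := Finset.prod_congr rfl fun b hb => by
        rw [Function.update_of_ne (Finset.ne_of_mem_erase hb)]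
      rw [← Finset.mul_prod_erase Finset.univ (fun b => x (Function.update p.1 a l b))
        (Finset.mem_univ a), Function.update_self, h2]
      ring
  rw [e]
  exact sub_mem (sum_mem fun j _ => Submodule.smul_mem _ _ (Submodule.subset_span ⟨_, rfl⟩))
    (sum_mem fun a _ => sum_mem fun l _ => Submodule.smul_mem _ _ (Submodule.subset_span ⟨_, rfl⟩))

theorem polye_rot (k : Fin 3) {P : R3 → R3} (hP : P ∈ polye_W ι) : rot k P ∈ polye_W ι := by
  induction hP using Submodule.span_induction with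
  | mem P h =>
    obtain ⟨p, rfl⟩ := h
    exact polye_rot_mon k p
  | zero =>
    have h := rot_smul (u := fun _ => 0) 0 contDiff_const k
    simp only [zero_smul] at h
    exact h ▸ zero_mem _
  | add P Q hP hQ hP' hQ' =>
    exact rot_add (polye_W_smooth hP) (polye_W_smooth hQ) k ▸ add_mem hP' hQ'
  | smul r P hP hP' => exact rot_smul r (polye_W_smooth hP) k ▸ Submodule.smul_mem _ r hP'

theorem polye_cas {P : R3 → R3} (hP : P ∈ polye_W ι) : cas P ∈ polye_W ι := by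
  have e : cas P = -∑ k, rot k (rot k P) := by
    funext x
    rw [cas, Pi.neg_apply, Finset.sum_apply]
  rw [e]
  exact neg_mem (sum_mem fun k _ => polye_rot k (polye_rot k hP))

theorem polye_W_le : polye_W ι ≤ polye_E := by
  have : FiniteDimensional ℝ (polye_W ι) := FiniteDimensional.span_of_finite ℝ (Set.finite_range _)
  obtain ⟨θ, h1, h2, h3, h4⟩ := exists_rad_one (isCompact_closedBall (0 : R3) 1)
  have sm : ∀ P : polye_W ι, ContDiff ℝ ∞ (P : R3 → R3) := fun P => polye_W_smooth P.2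
  have hi : ∀ P Q : polye_W ι, Integrable fun x => ⟪P.1 x, θ x • Q.1 x⟫ := fun P Q =>
    (testV_smul h1 (sm Q)).integrable_inner (sm P).continuous
  have hp : ∀ (P : polye_W ι) x, 0 ≤ ⟪P.1 x, θ x • P.1 x⟫ := fun P x => by
    rw [real_inner_smul_right]
    exact mul_nonneg (h3 x).1 real_inner_self_nonneg
  let T : polye_W ι →ₗ[ℝ] polye_W ι :=
    { toFun := fun P => ⟨cas P, polye_cas P.2⟩
      map_add' := fun P Q => Subtype.ext (cas_add (sm P) (sm Q))
      map_smul' := fun r P => Subtype.ext (cas_smul r (sm P)) }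
  have key := polye_diag (fun P Q : polye_W ι => ∫ x, ⟪P.1 x, θ x • Q.1 x⟫)
    (fun P Q => by simp only [real_inner_smul_right, real_inner_comm])
    (fun P => integral_nonneg (hp P))
    (fun P Q R => by
      rw [← integral_add (hi P R) (hi Q R)]
      simp only [Submodule.coe_add, Pi.add_apply, inner_add_left])
    (fun r P Q => by
      rw [← integral_const_mul]
      simp only [Submodule.coe_smul, Pi.smul_apply, real_inner_smul_left])
    (fun P hP => by
      have h5 : (fun x => ⟪P.1 x, θ x • P.1 x⟫) = 0 :=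
        (Continuous.ae_eq_iff_eq volume ((sm P).continuous.inner
          (h1.1.continuous.smul (sm P).continuous)) continuous_zero).1
          ((integral_eq_zero_iff_of_nonneg (hp P) (hi P P)).1 hP)
      refine Subtype.ext (funext fun x => ?_)
      have h6 : (0 : ℝ) < ‖x‖ + 1 := by positivity
      have h7 : (‖x‖ + 1)⁻¹ • x ∈ closedBall (0 : R3) 1 := by
        rw [mem_closedBall_zero_iff, norm_smul, norm_inv, Real.norm_of_nonneg h6.le,
          inv_mul_le_iff₀ h6]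
        linarith
      have h8 := congrFun h5 ((‖x‖ + 1)⁻¹ • x)
      rw [h4 _ h7, one_smul, Pi.zero_apply, inner_self_eq_zero] at h8
      have h9 := polye_W_hom P.2 (‖x‖ + 1) ((‖x‖ + 1)⁻¹ • x)
      rw [h8, smul_inv_smul₀ h6.ne', smul_zero] at h9
      exact h9)
    T (fun P Q => (cas_symm (sm P) (testV_smul h1 (sm Q))).trans (by
      rw [cas_rad h2 (sm Q)]
      rfl))
  intro P hP
  have h5 : (⟨P, hP⟩ : polye_W ι) ∈ polye_E.comap (polye_W ι).subtype := by
    refine (key.ge.trans (iSup_le fun μ Q hQ => ?_)) trivial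
    exact Submodule.subset_span ⟨sm Q, μ, fun x =>
      congrFun (congrArg Subtype.val (Module.End.mem_eigenspace_iff.1 hQ)) x⟩
  exact h5

theorem polye_mem (α : Fin 3 → ℕ) (i : Fin 3) :
    (fun x : R3 => (∏ j, x j ^ α j) • (EuclideanSpace.single i (1 : ℝ) : R3)) ∈
      polye_W (Σ j, Fin (α j)) := by
  refine Submodule.subset_span ⟨(fun a => a.1, i), funext fun x => ?_⟩
  simp only [polye_mon, Fintype.prod_sigma, Finset.prod_const, Finset.card_univ, Fintype.card_fin]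

theorem PolyV.contDiff {P : R3 → R3} (hP : P ∈ PolyV) : ContDiff ℝ ∞ P := by
  induction hP using Submodule.span_induction with
  | mem P h =>
    obtain ⟨α, i, rfl⟩ := h
    exact polye_W_smooth (polye_mem α i)
  | zero => exact contDiff_const
  | add P Q _ _ hP hQ => exact hP.add hQ
  | smul r P _ hP => exact hP.const_smul r

theorem poly_eigen {P : R3 → R3} (hP : P ∈ PolyV) : ∃ (n : ℕ) (l : Fin n → ℝ) (Q : Fin n → R3 → R3),
    (∀ m, ContDiff ℝ ∞ (Q m) ∧ ∀ x, cas (Q m) x = l m • Q m x) ∧ ∀ x, P x = ∑ m, Q m x := by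
  have h1 : PolyV ≤ polye_E := Submodule.span_le.2 (by
    rintro _ ⟨α, i, rfl⟩
    exact polye_W_le (polye_mem α i))
  obtain ⟨n, f, g, e⟩ := Submodule.mem_span_set'.1 (h1 hP)
  choose l hl using fun m => (g m).2.2
  refine ⟨n, l, fun m x => f m • (g m).1 x, fun m => ⟨(g m).2.1.const_smul _, fun x => ?_⟩,
    fun x => ?_⟩
  · rw [cas_smul _ (g m).2.1]
    simp only [hl]
    exact smul_comm _ _ _
  · rw [← e, Finset.sum_apply]
    rfl

end

end Pool.Agent.Work.MP_6bf1e5_an.Ang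
end

-- merged part: Pool.Agent.Work.MP_6bf1e5_an.Ang.QPress
section
/-!
The weak formulation and the formula for the multiplier (compare Ens/Weak.lean, Ens/Press.lean).
-/

open scoped ContDiff ENNReal FourierTransform Topology ComplexConjugate
open Set MeasureTheory Filter Polynomial Metric Pool.Agent.Work.MP_6bf1e5_an.Ens

namespace Pool.Agent.Work.MP_6bf1e5_an.Ang

noncomputable section

variable {ι : Type} [Fintype ι]

variable {ν T : ℝ} {c : ι → ι → ι → ℝ} {v0 : ι → R3 → R3} {v q : ι → R3 → ℝ → R3}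

theorem QSol.ju {I : Set ℝ} (h : QSol ν c v0 I v q) (a : ι) (i : Fin 3) :
    JS I fun x t => v a x t i := contDiffOn_vec.mp (h.smooth_u a) i

theorem QSol.jq {I : Set ℝ} (h : QSol ν c v0 I v q) (a : ι) (i : Fin 3) :
    JS I fun x t => q a x t i := contDiffOn_vec.mp (h.smooth_q a) i

theorem QSol.jflux {I : Set ℝ} (h : QSol ν c v0 I v q) (a : ι) (i j : Fin 3) :
    JS I fun x t => flux c (fun b y => v b y t) a i j x :=
  JS.sum _ fun b _ => JS.sum _ fun d _ => ((h.ju b j).mul (h.ju d i)).const_mul _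

theorem qweak_div {I : Set ℝ} (h : QSol ν c v0 I v q) (a : ι) (i : Fin 3) {t : ℝ} (ht : t ∈ I)
    (x : R3) : ∑ j, pd j (flux c (fun b y => v b y t) a i j) x
      = ∑ b, ∑ d, c a b d * ∑ j, v b x t j * pd j (fun y => v d y t i) x := by
  have hs : ∀ b k, Differentiable ℝ fun y => v b y t k := fun b k =>
    ((h.ju b k).slice ht).differentiable (by simp)
  have e : ∀ j, pd j (flux c (fun b y => v b y t) a i j) x = ∑ b, ∑ d, c a b d *
      (pd j (fun y => v b y t j) x * v d x t i + v b x t j * pd j (fun y => v d y t i) x) := by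
    intro j
    have hd : ∀ b d, DifferentiableAt ℝ (fun y => c a b d * (v b y t j * v d y t i)) x :=
      fun b d => ((hs b j x).mul (hs d i x)).const_mul _
    change pd j (fun y => ∑ b, ∑ d, c a b d * (v b y t j * v d y t i)) x = _
    rw [pd_sum _ fun b _ => DifferentiableAt.fun_sum fun d _ => hd b d]
    refine Finset.sum_congr rfl fun b _ => ?_
    rw [pd_sum _ fun d _ => hd b d]
    refine Finset.sum_congr rfl fun d _ => ?_
    rw [pd_const_mul, pd_mul (hs b j x) (hs d i x)]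
  simp only [e]
  rw [Finset.sum_comm]
  refine Finset.sum_congr rfl fun b _ => ?_
  rw [Finset.sum_comm]
  refine Finset.sum_congr rfl fun d _ => ?_
  rw [← Finset.mul_sum, Finset.sum_add_distrib, ← Finset.sum_mul, h.divFree b x t ht, zero_mul,
    zero_add]

theorem qweak_one {I : Set ℝ} (h : QSol ν c v0 I v q) {φ : R3 → ℝ} (hφ : Test φ) (a : ι)
    (i : Fin 3) {t : ℝ} (ht : t ∈ I) :
    ∫ x, derivWithin (fun s => v a x s i) I t * φ x
      = ν * (∫ x, v a x t i * ∑ j, pd j (pd j φ) x)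
        + (∑ j, ∫ x, flux c (fun b y => v b y t) a i j x * pd j φ x)
        - ∫ x, q a x t i * φ x := by
  have hv := (h.ju a i).slice ht
  have hf : ∀ j, ContDiff ℝ ∞ (flux c (fun b y => v b y t) a i j) := fun j =>
    (h.jflux a i j).slice ht
  have hq := (h.jq a i).slice ht
  have i1 := fun j => hφ.integrable_mul (contDiff_pd (contDiff_pd hv j) j).continuous
  have i2 := fun j => hφ.integrable_mul (contDiff_pd (hf j) j).continuous
  have i3 := hφ.integrable_mul hq.continuous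
  have e : ∀ x, derivWithin (fun s => v a x s i) I t * φ x
      = ν * (∑ j, pd j (pd j fun y => v a y t i) x * φ x)
        - (∑ j, pd j (flux c (fun b y => v b y t) a i j) x * φ x)
        - q a x t i * φ x := fun x => by
    rw [← Finset.sum_mul, ← Finset.sum_mul, qweak_div h a i ht]
    linear_combination φ x * h.momentum a x t ht i
  have j1 := (integrable_finsetSum Finset.univ fun j _ => i1 j).const_mul ν
  have j2 := integrable_finsetSum Finset.univ fun j _ => i2 j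
  simp only [e]
  rw [integral_sub (j1.sub' j2) i3, integral_sub j1 j2, integral_const_mul,
    integral_finsetSum _ fun j _ => i1 j, integral_finsetSum _ fun j _ => i2 j]
  have e1 : ∀ j, ∫ x, pd j (pd j fun y => v a y t i) x * φ x
      = ∫ x, v a x t i * pd j (pd j φ) x := fun j => by
    rw [integral_pd_mul (contDiff_pd hv j) hφ j, integral_pd_mul hv (hφ.pd j) j, neg_neg]
  have e2 : ∀ j, ∫ x, pd j (flux c (fun b y => v b y t) a i j) x * φ x
      = -∫ x, flux c (fun b y => v b y t) a i j x * pd j φ x := fun j =>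
    integral_pd_mul (hf j) hφ j
  simp only [e1, e2]
  rw [← integral_finsetSum _ fun j _ => ((hφ.pd j).pd j).integrable_mul hv.continuous,
    Finset.sum_neg_distrib, sub_neg_eq_add]
  simp only [Finset.mul_sum]

theorem QSol.weak (h : QSol ν c v0 (Icc 0 T) v q) (hT : 0 < T) {Φ : Fin 3 → R3 → ℝ}
    (hΦ : ∀ i, Test (Φ i)) (a : ι) {t : ℝ} (ht : t ∈ Icc 0 T) :
    HasDerivWithinAt (fun s => ∑ i, ∫ x, v a x s i * Φ i x)
      (ν * (∑ i, ∫ x, v a x t i * ∑ j, pd j (pd j (Φ i)) x)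
        + (∑ i, ∑ j, ∫ x, flux c (fun b y => v b y t) a i j x * pd j (Φ i) x)
        - ∑ i, ∫ x, q a x t i * Φ i x) (Icc 0 T) t := by
  have key := HasDerivWithinAt.fun_sum (u := Finset.univ) fun i _ =>
    JS.hasDerivWithinAt_integral hT (h.ju a i) (hΦ i) ht
  refine key.congr_deriv ?_
  rw [Finset.mul_sum, ← Finset.sum_add_distrib, ← Finset.sum_sub_distrib]
  exact Finset.sum_congr rfl fun i _ => qweak_one h (hΦ i) a i ht

theorem QSol.integral_grad {I : Set ℝ} (h : QSol ν c v0 I v q) {χ : R3 → ℝ} (hχ : Test χ) (a : ι)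
    {t : ℝ} (ht : t ∈ I) : ∑ i, ∫ x, v a x t i * pd i χ x = 0 := by
  have hs := fun i => (h.ju a i).slice ht
  have e : ∀ i, ∫ x, v a x t i * pd i χ x = -∫ x, pd i (fun y => v a y t i) x * χ x := fun i => by
    rw [integral_pd_mul (hs i) hχ i, neg_neg]
  simp only [e]
  rw [Finset.sum_neg_distrib, ← integral_finsetSum _ fun i _ =>
    hχ.integrable_mul (contDiff_pd (hs i) i).continuous]
  simp only [← Finset.sum_mul, h.divFree a _ t ht, zero_mul, integral_zero, neg_zero]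

theorem qexists_potentials {Φ : Fin 3 → R3 → ℝ} (hΦ : ∀ i, Test (Φ i)) :
    Nice (nw fun y => ∑ k, pd k (Φ k) y) ∧ ∃ Ψ : Fin 3 → Fin 3 → R3 → ℝ, (∀ i j, Nice (Ψ i j)) ∧
      (∀ i j, Ψ i j = fun x => pd j (nw (Φ i)) x - pd i (nw (Φ j)) x) ∧
      ∀ i x, Φ i x = pd i (nw fun y => ∑ k, pd k (Φ k) y) x + ∑ j, pd j (Ψ i j) x := by
  have e : (nw fun y => ∑ k, pd k (Φ k) y) = fun x => ∑ k, pd k (nw (Φ k)) x := by
    funext x
    rw [nw_sum fun k => (hΦ k).pd k]
    exact Finset.sum_congr rfl fun k _ => by rw [pd_nw (hΦ k)]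
  have hn := fun i j => nice_pd_nw (hΦ i) j
  have hd : ∀ i j x, DifferentiableAt ℝ (pd j (nw (Φ i))) x := fun i j x =>
    ((hn i j).smooth.differentiable (by simp)) x
  rw [e]
  refine ⟨?_, fun i j x => pd j (nw (Φ i)) x - pd i (nw (Φ j)) x,
    fun i j => (hn i j).sub (hn j i), fun i j => rfl, fun i x => ?_⟩
  · simpa only [Fin.sum_univ_three] using ((hn 0 0).add (hn 1 1)).add (hn 2 2)
  · rw [pd_sum _ fun k _ => hd k k x, ← lap_nw (hΦ i) x, ← Finset.sum_add_distrib]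
    refine Finset.sum_congr rfl fun j _ => ?_
    rw [pd_sub (hd i j x) (hd j i x), pd_comm (contDiff_nw (hΦ j)) i j x]
    ring

theorem qpress_grad {I : Set ℝ} (h : QSol ν c v0 I v q) {Θ Ξ : Fin 3 → R3 → ℝ} {χ : R3 → ℝ}
    (hχ : Test χ) (hΞ : ∀ i, Test (Ξ i)) (e : ∀ i x, Θ i x = pd i χ x + Ξ i x) (a : ι) {t : ℝ}
    (ht : t ∈ I) : ∑ i, ∫ x, v a x t i * Θ i x = ∑ i, ∫ x, v a x t i * Ξ i x := by
  have hs := fun i => ((h.ju a i).slice ht).continuous
  have e1 : ∀ i, ∫ x, v a x t i * Θ i x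
      = (∫ x, v a x t i * pd i χ x) + ∫ x, v a x t i * Ξ i x := fun i => by
    rw [← integral_add ((hχ.pd i).integrable_mul (hs i)) ((hΞ i).integrable_mul (hs i))]
    simp only [e, mul_add]
  simp only [e1]
  rw [Finset.sum_add_distrib, h.integral_grad hχ a ht, zero_add]

theorem QSol.pressure {E0 : ℝ} (h : QSol ν c v0 (Icc 0 T) v q) (hT : 0 < T)
    (iv : ∀ t ∈ Icc 0 T, Integrable (den fun a x => v a x t))
    (ev : ∀ t ∈ Icc 0 T, ∫ x, den (fun a x => v a x t) x ≤ E0) {Φ : Fin 3 → R3 → ℝ}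
    (hΦ : ∀ i, Test (Φ i)) (a : ι) (ho : Blind (Icc 0 T) (q a) Φ) {t : ℝ} (ht : t ∈ Icc 0 T) :
    ∑ i, ∫ x, q a x t i * Φ i x = ∑ i, ∑ j, ∫ x,
      flux c (fun b y => v b y t) a i j x * pd i (pd j (nw fun y => ∑ k, pd k (Φ k) y)) x := by
  obtain ⟨hχ, Ψ, hΨ, hanti, hdec⟩ := qexists_potentials hΦ
  set χ : R3 → ℝ := nw fun y => ∑ k, pd k (Φ k) y
  obtain ⟨θ, hθ, hr, hS⟩ := qpress_cut
  obtain ⟨K, hK, hF⟩ := exists_flux_le c
  obtain ⟨R, hR⟩ : ∃ R : Fin 3 → ℕ → R3 → ℝ,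
      R = fun i n x => ∑ k, pd k (fun y => (1 - θ n y) * Ψ i k y) x := ⟨_, rfl⟩
  obtain ⟨Ξ, hΞ⟩ : ∃ Ξ : Fin 3 → ℕ → R3 → ℝ,
      Ξ = fun i n x => pd i (fun y => (1 - θ n y) * χ y) x + R i n x := ⟨_, rfl⟩
  obtain ⟨Θ, hΘ⟩ : ∃ Θ : ℕ → Fin 3 → R3 → ℝ,
      Θ = fun n i x => Φ i x - ∑ k, pd k (fun y => θ n y * Ψ i k y) x := ⟨_, rfl⟩
  have sR : ∀ i, press_Small (R i) := fun i => by
    rw [hR]
    exact press_Small.sum fun k => (hS _ (hΨ i k)).pd k
  have sΞ : ∀ i, press_Small (Ξ i) := fun i => by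
    rw [hΞ]
    exact ((hS _ hχ).pd i).add (sR i)
  have tP : ∀ n i k, Test fun y => θ n y * Ψ i k y := fun n i k => (hθ n).mul (hΨ i k).smooth
  have tP' : ∀ n i, Test fun x => ∑ k, pd k (fun y => θ n y * Ψ i k y) x := fun n i =>
    Test.sum _ fun k _ => (tP n i k).pd k
  have tχ : ∀ n, Test fun y => θ n y * χ y := fun n => (hθ n).mul hχ.smooth
  have tΘ : ∀ n i, Test (Θ n i) := fun n i => by
    rw [hΘ]
    exact (hΦ i).sub (tP' n i)
  have e1 : ∀ n i x, Θ n i x = pd i χ x + R i n x := fun n i x => by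
    simp only [hΘ, hR]
    rw [hdec i x, Finset.sum_congr rfl fun k _ => press_split (hθ n).1 (hΨ i k).smooth k x,
      Finset.sum_add_distrib]
    ring
  have e2 : ∀ n i x, Θ n i x = pd i (fun y => θ n y * χ y) x + Ξ i n x := fun n i x => by
    rw [e1, press_split (hθ n).1 hχ.smooth i x, hΞ, add_assoc]
  have tΞ : ∀ n i, Test (Ξ i n) := fun n i => by
    have e : Ξ i n = fun x => Θ n i x - pd i (fun y => θ n y * χ y) x :=
      funext fun x => by rw [e2, add_sub_cancel_left]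
    rw [e]
    exact (tΘ n i).sub ((tχ n).pd i)
  have lap : ∀ {φ : R3 → ℝ}, Test φ → Test fun x => ∑ j, pd j (pd j φ) x := fun hφ =>
    Test.sum _ fun j _ => (hφ.pd j).pd j
  have hw : ∀ i, ∀ s ∈ Icc 0 T, ∀ x, v a x s i ^ 2 ≤ den (fun a x => v a x s) x :=
    fun i s _ x => sq_le_den (fun a x => v a x s) a i x
  have key := press_limit hT (G := fun n s => ∑ i, ∫ x, v a x s i * Θ n i x)
    (e := fun n s => ν * (∑ i, ∫ x, v a x s i * ∑ j, pd j (pd j (Ξ i n)) x)
      + ∑ i, ∑ j, ∫ x, flux c (fun b y => v b y s) a i j x * pd j (R i n) x)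
    (L := fun s => (∑ i, ∑ j, ∫ x, flux c (fun b y => v b y s) a i j x * pd i (pd j χ) x)
      - ∑ i, ∫ x, q a x s i * Φ i x)
    (fun n s hs => h.weak hT (tΘ n) a hs) (fun n => ?_) ?_ ?_ (fun n s hs => ?_) ht
  · linarith
  · refine ((continuousOn_const.mul (continuousOn_finsetSum _ fun i _ =>
      (h.ju a i).continuousOn_integral (lap (tΘ n i)))).add
      (continuousOn_finsetSum _ fun i _ => continuousOn_finsetSum _ fun j _ =>
        (h.jflux a i j).continuousOn_integral ((tΘ n i).pd j))).sub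
      (continuousOn_finsetSum _ fun i _ =>
        (h.jq a i).continuousOn_integral (tΘ n i))
  · refine (press_unif_sum fun i => press_pair_sq (w := fun x s => v a x s i) (sΞ i).s0 (hw i)
      iv ev).congr (Eventually.of_forall fun n s hs => ?_)
    exact (qpress_grad h (tχ n) (tΞ n) (e2 n) a hs).symm
  · refine press_unif_add (press_unif_mul ν (press_unif_sum fun i =>
      press_pair_sq (w := fun x s => v a x s i)
        (press_Small.sum fun j => ((sΞ i).pd j).pd j).s0 (hw i) iv ev))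
      (press_unif_sum fun i => press_unif_sum fun j =>
        press_pair_one (F := fun x s => flux c (fun b y => v b y s) a i j x) ((sR i).pd j).s0 hK
          (fun s _ x => hF _ a i j x) iv ev)
  · have hq := fun i => (h.jq a i).slice hs
    have a1 := qpress_grad h (lap (tχ n)) (fun i => lap (tΞ n i))
      (Θ := fun i x => ∑ j, pd j (pd j (Θ n i)) x)
      (fun i x => press_lap (tχ n).1 (tΞ n i).1 i (e2 n i) x) a hs
    have a2 : ∀ i j, ∫ x, flux c (fun b y => v b y s) a i j x * pd j (Θ n i) x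
        = (∫ x, flux c (fun b y => v b y s) a i j x * pd j (R i n) x)
          + ∫ x, flux c (fun b y => v b y s) a i j x * pd i (pd j χ) x := fun i j => by
      have hc := ((h.jflux a i j).slice hs).continuous
      have i1 : Integrable (flux c (fun b y => v b y s) a i j) :=
        ((iv s hs).const_mul K).mono' hc.aestronglyMeasurable
          (Eventually.of_forall fun x => hF _ a i j x)
      obtain ⟨C, hC⟩ := press_hess hχ i j
      have i2 := i1.mul_bdd
        (contDiff_pd (contDiff_pd hχ.smooth j) i).continuous.aestronglyMeasurable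
        (Eventually.of_forall hC)
      have i3 := ((tΘ n i).pd j).integrable_mul hc
      rw [← sub_eq_iff_eq_add, ← integral_sub i3 i2]
      congr 1
      funext x
      have e : Θ n i = fun x => pd i χ x + R i n x := funext (e1 n i)
      rw [e, press_pd_add (contDiff_pd hχ.smooth i) ((sR i).sm n) j]
      simp only
      rw [pd_comm hχ.smooth j i x]
      ring
    have a3 : ∑ i, ∫ x, q a x s i * Θ n i x
        = ∑ i, ∫ x, q a x s i * Φ i x := by
      have a4 : ∑ i, ∫ x, q a x s i * ∑ k, pd k (fun y => θ n y * Ψ i k y) x = 0 := by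
        simp only [hanti]
        exact ho (θ n) (hθ n) (hr n) s hs
      rw [← sub_zero (∑ i, ∫ x, q a x s i * Φ i x), ← a4, ← Finset.sum_sub_distrib]
      refine Finset.sum_congr rfl fun i _ => ?_
      rw [← integral_sub ((hΦ i).integrable_mul (hq i).continuous)
        ((tP' n i).integrable_mul (hq i).continuous)]
      simp only [hΘ, mul_sub]
    simp only [a2, Finset.sum_add_distrib]
    rw [a1, a3]
    ring

end

end Pool.Agent.Work.MP_6bf1e5_an.Ang
end

-- merged part: Pool.Agent.Work.MP_6bf1e5_an.Ang.QLoc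
section
/-!
The local energy identity and the estimate of the multiplier (compare Ens/LocEn.lean, Ens/EstP.lean).
-/

open scoped ContDiff ENNReal FourierTransform Topology ComplexConjugate
open Set MeasureTheory Filter Polynomial Metric Pool.Agent.Work.MP_6bf1e5_an.Ens

namespace Pool.Agent.Work.MP_6bf1e5_an.Ang

noncomputable section

variable {ι : Type} [Fintype ι]

variable {ν T E0 M0 M1 : ℝ} {c : ι → ι → ι → ℝ} {u v p q : ι → R3 → ℝ → R3}

theorem QPair.jw (h : QPair ν c T E0 M0 M1 u p v q) (a : ι) (i : Fin 3) :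
    JS (Icc 0 T) fun x t => dif u v t a x i := (h.hv.ju a i).sub (h.hu.ju a i)

theorem QPair.jdis (h : QPair ν c T E0 M0 M1 u p v q) :
    JS (Icc 0 T) fun x t => dis (dif u v t) x := by
  simp only [dis, sq]
  exact JS.sum _ fun a _ => JS.sum _ fun i _ => JS.sum _ fun j _ =>
    ((h.jw a i).pd (uniqueDiffOn_Icc h.hT) j).mul ((h.jw a i).pd (uniqueDiffOn_Icc h.hT) j)

theorem QPair.locen_pd (h : QPair ν c T E0 M0 M1 u p v q) {t : ℝ} (ht : t ∈ Icc 0 T) (a : ι)
    (i j : Fin 3) (x : R3) : pd j (fun y => dif u v t a y i) x =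
      pd j (fun y => v a y t i) x - pd j (fun y => u a y t i) x :=
  pd_sub (locen_diff ((h.hv.ju a i).slice ht) x) (locen_diff ((h.hu.ju a i).slice ht) x) j

theorem QPair.div_dif (h : QPair ν c T E0 M0 M1 u p v q) {t : ℝ} (ht : t ∈ Icc 0 T) (a : ι) (x : R3) :
    ∑ i, pd i (fun y => dif u v t a y i) x = 0 := by
  simp only [h.locen_pd ht, Finset.sum_sub_distrib, h.hv.divFree a x t ht, h.hu.divFree a x t ht,
    sub_zero]

theorem QPair.locen_jden (h : QPair ν c T E0 M0 M1 u p v q) :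
    JS (Icc 0 T) fun x t => den (dif u v t) x := by
  simp only [den, sq]
  exact JS.sum _ fun a _ => JS.sum _ fun i _ => (h.jw a i).mul (h.jw a i)

theorem QPair.integrable_den (h : QPair ν c T E0 M0 M1 u p v q) {t : ℝ} (ht : t ∈ Icc 0 T) :
    Integrable (den (dif u v t)) ∧ ∫ x, den (dif u v t) x ≤ 4 * E0 := by
  have hle : ∀ x, den (dif u v t) x ≤
      2 * den (fun a x => v a x t) x + 2 * den (fun a x => u a x t) x := fun x => by
    simp only [den, Finset.mul_sum, ← Finset.sum_add_distrib, locen_apply]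
    refine Finset.sum_le_sum fun a _ => Finset.sum_le_sum fun i _ => ?_
    nlinarith [sq_nonneg (v a x t i + u a x t i)]
  have h0 : ∀ x, 0 ≤ den (dif u v t) x := fun x =>
    Finset.sum_nonneg fun a _ => Finset.sum_nonneg fun i _ => sq_nonneg _
  have hi : Integrable fun x =>
      2 * den (fun a x => v a x t) x + 2 * den (fun a x => u a x t) x :=
    ((h.iv t ht).const_mul 2).add ((h.iu t ht).const_mul 2)
  have h1 : Integrable (den (dif u v t)) :=
    hi.mono' (h.locen_jden.slice ht).continuous.aestronglyMeasurable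
      (Eventually.of_forall fun x => by rw [Real.norm_of_nonneg (h0 x)]; exact hle x)
  refine ⟨h1, (integral_mono h1 hi hle).trans ?_⟩
  rw [integral_add ((h.iv t ht).const_mul 2) ((h.iu t ht).const_mul 2), integral_const_mul,
    integral_const_mul]
  linarith [h.ev t ht, h.eu t ht]

theorem QPair.locen_eq (h : QPair ν c T E0 M0 M1 u p v q) {t : ℝ} (ht : t ∈ Icc 0 T) (a : ι)
    (i : Fin 3) (x : R3) :
    derivWithin (fun s => v a x s i) (Icc 0 T) t - derivWithin (fun s => u a x s i) (Icc 0 T) t =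
      ν * (∑ j, pd j (pd j fun y => dif u v t a y i) x)
        - (∑ b, ∑ d, c a b d * ∑ j, v b x t j * pd j (fun y => dif u v t d y i) x)
        - (∑ b, ∑ d, c a b d * ∑ j, dif u v t b x j * pd j (fun y => u d y t i) x)
        - (q a x t i - p a x t i) := by
  have h1 : ∀ j, pd j (pd j fun y => dif u v t a y i) x =
      pd j (pd j fun y => v a y t i) x - pd j (pd j fun y => u a y t i) x := fun j => by
    rw [funext (h.locen_pd ht a i j)]
    exact pd_sub (locen_diff (contDiff_pd ((h.hv.ju a i).slice ht) j) x)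
      (locen_diff (contDiff_pd ((h.hu.ju a i).slice ht) j) x) j
  have h2 : ∀ b j, dif u v t b x j = v b x t j - u b x t j := fun _ _ => rfl
  have e1 := h.hv.momentum a x t ht i
  have e2 := h.hu.momentum a x t ht i
  simp only [h1, h2, h.locen_pd ht, mul_sub, sub_mul, Finset.sum_sub_distrib]
  linarith

theorem QPair.locen_deriv (h : QPair ν c T E0 M0 M1 u p v q) {t : ℝ} (ht : t ∈ Icc 0 T) (x : R3) :
    derivWithin (fun s => den (dif u v s) x) (Icc 0 T) t =
      2 * ν * (∑ a, ∑ i, dif u v t a x i * ∑ j, pd j (pd j fun y => dif u v t a y i) x)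
        - 2 * (∑ a, ∑ i, dif u v t a x i *
            ∑ b, ∑ d, c a b d * ∑ j, v b x t j * pd j (fun y => dif u v t d y i) x)
        - 2 * (∑ a, ∑ b, ∑ d, c a b d * ∑ i, ∑ j,
            dif u v t a x i * dif u v t b x j * pd j (fun y => u d y t i) x)
        - 2 * ∑ a, ((∑ i, q a x t i * dif u v t a x i)
            - ∑ i, p a x t i * dif u v t a x i) := by
  have h1 : HasDerivWithinAt (fun s => den (dif u v s) x)
      (∑ a, ∑ i, 2 * dif u v t a x i * (derivWithin (fun s => v a x s i) (Icc 0 T) t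
        - derivWithin (fun s => u a x s i) (Icc 0 T) t)) (Icc 0 T) t := by
    refine HasDerivWithinAt.fun_sum fun a _ => HasDerivWithinAt.fun_sum fun i _ => ?_
    have h2 : HasDerivWithinAt (fun s => dif u v s a x i) _ (Icc 0 T) t :=
      ((h.hv.ju a i).hasDerivWithinAt x ht).sub ((h.hu.ju a i).hasDerivWithinAt x ht)
    simpa using h2.fun_pow 2
  have h3 : ∀ a, ∑ i, dif u v t a x i *
      ∑ b, ∑ d, c a b d * ∑ j, dif u v t b x j * pd j (fun y => u d y t i) x =
      ∑ b, ∑ d, c a b d * ∑ i, ∑ j,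
        dif u v t a x i * dif u v t b x j * pd j (fun y => u d y t i) x := fun a => by
    simp only [Finset.mul_sum]
    rw [Finset.sum_comm]
    refine Finset.sum_congr rfl fun b _ => ?_
    rw [Finset.sum_comm]
    refine Finset.sum_congr rfl fun d _ => Finset.sum_congr rfl fun i _ =>
      Finset.sum_congr rfl fun j _ => ?_
    ring
  rw [h1.derivWithin (uniqueDiffOn_Icc h.hT t ht), ← Finset.sum_congr rfl fun a _ => h3 a,
    Finset.mul_sum, Finset.mul_sum, Finset.mul_sum, Finset.mul_sum, ← Finset.sum_sub_distrib,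
    ← Finset.sum_sub_distrib, ← Finset.sum_sub_distrib]
  refine Finset.sum_congr rfl fun a _ => ?_
  rw [← Finset.sum_sub_distrib, Finset.mul_sum, Finset.mul_sum, Finset.mul_sum, Finset.mul_sum,
    ← Finset.sum_sub_distrib, ← Finset.sum_sub_distrib, ← Finset.sum_sub_distrib]
  refine Finset.sum_congr rfl fun i _ => ?_
  rw [h.locen_eq ht]
  ring

theorem QPair.local_energy (h : QPair ν c T E0 M0 M1 u p v q) {ψ : R3 → ℝ} (hψ : Test ψ) {t : ℝ}
    (ht : t ∈ Icc 0 T) : HasDerivWithinAt (fun s => ∫ x, den (dif u v s) x * ψ x)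
      (-(2 * ν * ∫ x, dis (dif u v t) x * ψ x)
        - 2 * ν * (∫ x, ∑ a, ∑ i, ∑ j,
            dif u v t a x i * pd j (fun y => dif u v t a y i) x * pd j ψ x)
        + (∫ x, ∑ a, ∑ b, ∑ d, c a b d * (∑ i, dif u v t a x i * dif u v t d x i)
            * ∑ j, v b x t j * pd j ψ x)
        - 2 * (∫ x, (∑ a, ∑ b, ∑ d, c a b d * ∑ i, ∑ j,
            dif u v t a x i * dif u v t b x j * pd j (fun y => u d y t i) x) * ψ x)
        - 2 * ∑ a, ((∑ i, ∫ x, q a x t i * (ψ x * dif u v t a x i))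
            - ∑ i, ∫ x, p a x t i * (ψ x * dif u v t a x i)))
      (Icc 0 T) t := by
  have hw : ∀ a i, ContDiff ℝ ∞ fun y => dif u v t a y i := fun a i => (h.jw a i).slice ht
  have hu : ∀ a i, ContDiff ℝ ∞ fun y => u a y t i := fun a i => (h.hu.ju a i).slice ht
  have hv : ∀ a i, ContDiff ℝ ∞ fun y => v a y t i := fun a i => (h.hv.ju a i).slice ht
  have hp : ∀ a i, ContDiff ℝ ∞ fun x => p a x t i * dif u v t a x i :=
    fun a i => ((h.hu.jq a i).slice ht).mul (hw a i)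
  have hq : ∀ a i, ContDiff ℝ ∞ fun x => q a x t i * dif u v t a x i :=
    fun a i => ((h.hv.jq a i).slice ht).mul (hw a i)
  have e1 := locen_visc hw hψ
  have e2 := locen_trans h.hc hw hv (fun a x => h.hv.divFree a x t ht) hψ
  have i1 : Integrable fun x => (∑ a, ∑ i, dif u v t a x i *
      ∑ j, pd j (pd j fun y => dif u v t a y i) x) * ψ x :=
    hψ.integrable_mul (ContDiff.sum fun a _ => ContDiff.sum fun i _ => (hw a i).mul
      (ContDiff.sum fun j _ => contDiff_pd (contDiff_pd (hw a i) j) j)).continuous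
  have i2 : Integrable fun x => (∑ a, ∑ i, dif u v t a x i *
      ∑ b, ∑ d, c a b d * ∑ j, v b x t j * pd j (fun y => dif u v t d y i) x) * ψ x :=
    hψ.integrable_mul (ContDiff.sum fun a _ => ContDiff.sum fun i _ => (hw a i).mul
      (ContDiff.sum fun b _ => ContDiff.sum fun d _ => contDiff_const.mul
        (ContDiff.sum fun j _ => (hv b j).mul (contDiff_pd (hw d i) j)))).continuous
  have i3 : Integrable fun x => (∑ a, ∑ b, ∑ d, c a b d * ∑ i, ∑ j,
      dif u v t a x i * dif u v t b x j * pd j (fun y => u d y t i) x) * ψ x :=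
    hψ.integrable_mul (ContDiff.sum fun a _ => ContDiff.sum fun b _ => ContDiff.sum fun d _ =>
      contDiff_const.mul (ContDiff.sum fun i _ => ContDiff.sum fun j _ =>
        ((hw a i).mul (hw b j)).mul (contDiff_pd (hu d i) j))).continuous
  have i4 : Integrable fun x => (∑ a, ((∑ i, q a x t i * dif u v t a x i)
      - ∑ i, p a x t i * dif u v t a x i)) * ψ x :=
    hψ.integrable_mul (ContDiff.sum fun a _ => (ContDiff.sum fun i _ => hq a i).sub
      (ContDiff.sum fun i _ => hp a i)).continuous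
  have e3 : ∫ x, (∑ a, ((∑ i, q a x t i * dif u v t a x i)
      - ∑ i, p a x t i * dif u v t a x i)) * ψ x =
      ∑ a, ((∑ i, ∫ x, q a x t i * (ψ x * dif u v t a x i))
        - ∑ i, ∫ x, p a x t i * (ψ x * dif u v t a x i)) := by
    simp only [mul_comm (ψ _), ← mul_assoc]
    simp only [Finset.sum_mul (s := (Finset.univ : Finset ι))]
    rw [integral_finsetSum _ fun a _ => hψ.integrable_mul
      ((ContDiff.sum fun i _ => hq a i).sub (ContDiff.sum fun i _ => hp a i)).continuous]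
    refine Finset.sum_congr rfl fun a _ => ?_
    rw [← integral_finsetSum _ fun i _ => hψ.integrable_mul (hq a i).continuous,
      ← integral_finsetSum _ fun i _ => hψ.integrable_mul (hp a i).continuous,
      ← integral_sub (integrable_finsetSum _ fun i _ => hψ.integrable_mul (hq a i).continuous)
        (integrable_finsetSum _ fun i _ => hψ.integrable_mul (hp a i).continuous)]
    simp only [sub_mul, Finset.sum_mul]
  have e4 := h.locen_jden.hasDerivWithinAt_integral h.hT hψ ht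
  simp only [h.locen_deriv ht, sub_mul, mul_assoc _ _ (ψ _)] at e4
  rw [locen_four i1 i2 i3 i4, e1, e2, e3] at e4
  convert e4 using 1
  simp only [dis]
  ring

theorem qestp_div (h : QPair ν c T E0 M0 M1 u p v q) {ψ : R3 → ℝ} (hψ : Test ψ) {t : ℝ}
    (ht : t ∈ Icc 0 T) (a : ι) (x : R3) :
    ∑ k, pd k (fun y => ψ y * dif u v t a y k) x = fderiv ℝ ψ x (dif u v t a x) := by
  have h1 : ∀ k, pd k (fun y => ψ y * dif u v t a y k) x =
      dif u v t a x k * pd k ψ x + ψ x * pd k (fun y => dif u v t a y k) x := fun k => by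
    rw [pd_mul (hψ.1.differentiable (by simp) x)
      (((h.jw a k).slice ht).differentiable (by simp) x), mul_comm]
  simp only [h1, Finset.sum_add_distrib, ← Finset.mul_sum, h.div_dif ht, mul_zero, add_zero,
    fderiv_eq_sum_pd]

theorem QPair.press_est (h : QPair ν c T E0 M0 M1 u p v q) : ∃ B : ℝ, 0 ≤ B ∧
    ∀ (r d L : ℝ) (ψ : R3 → ℝ), 0 < r → 0 < d → Test ψ → Rad ψ →
      (∀ x, r ≤ ‖x‖ → fderiv ℝ ψ x = 0) →
      (∀ x, ‖fderiv ℝ ψ x‖ ≤ L) → ∀ t ∈ Icc 0 T, ∀ a,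
      |(∑ i, ∫ x, q a x t i * (ψ x * dif u v t a x i))
        - ∑ i, ∫ x, p a x t i * (ψ x * dif u v t a x i)|
        ≤ B * L * (√(∫ x in ball 0 (r + d), den (dif u v t) x ^ 2) + 1 + r ^ (3 / 2 : ℝ) / d ^ 3) := by
  obtain ⟨K, hK0, hK⟩ := exists_flux_le c
  obtain ⟨K', hK0', hK'⟩ := exists_hess_bound
  obtain ⟨C, hC0, hC⟩ := estp_pt c M0
  have hE : 0 ≤ E0 :=
    (integral_nonneg fun x => estp_den_nonneg _ x).trans (h.eu 0 ⟨le_rfl, h.hT.le⟩)
  obtain ⟨e, he0, he⟩ : ∃ e, 0 ≤ e ∧ √(4 * E0) = e := ⟨_, Real.sqrt_nonneg _, rfl⟩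
  obtain ⟨k, hk0, hk⟩ : ∃ k, 0 ≤ k ∧ √C = k := ⟨_, Real.sqrt_nonneg _, rfl⟩
  obtain ⟨m, hm0, hm⟩ : ∃ m, 0 ≤ m ∧ K' * (4 * E0 + Real.pi * 4 / 3) * (K * E0 + K * E0) = m :=
    ⟨_, by positivity, rfl⟩
  refine ⟨9 * (k * e + k * e * e + m), by positivity, fun r d L ψ hr hd hψ hψr h0 hL t ht a => ?_⟩
  have hL0 : 0 ≤ L := (norm_nonneg _).trans (hL 0)
  have hΦ : ∀ i, Test fun x => ψ x * dif u v t a x i := fun i => hψ.mul ((h.jw a i).slice ht)
  rw [h.hv.pressure h.hT h.iv h.ev hΦ a (h.ov ψ hψ hψr t ht a) ht,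
    h.hu.pressure h.hT h.iu h.eu hΦ a (h.ou ψ hψ hψr t ht a) ht]
  have hg : Test fun y => ∑ k, pd k (fun x => ψ x * dif u v t a x k) y :=
    Test.sum _ fun k _ => (hΦ k).pd k
  simp only [qestp_div h hψ ht] at hg ⊢
  obtain ⟨g, hg'⟩ : ∃ g : R3 → ℝ, g = fun y => fderiv ℝ ψ y (dif u v t a y) := ⟨_, rfl⟩
  rw [← hg'] at hg ⊢
  obtain ⟨hD, hDE⟩ := h.integrable_den ht
  have hD0 := estp_den_nonneg (dif u v t)
  have hDc : Continuous (den (dif u v t)) := continuous_finsetSum _ fun b _ =>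
    continuous_finsetSum _ fun i _ => ((h.jw b i).slice ht).continuous.pow 2
  have g0 : ∀ x, r ≤ ‖x‖ → g x = 0 := fun x hx => by simp [hg', h0 x hx]
  have g1 : ∀ x, g x ^ 2 ≤ L ^ 2 * den (dif u v t) x := fun x => by
    have h1 : |g x| ≤ L * ‖dif u v t a x‖ := hg' ▸
      ((fderiv ℝ ψ x).le_opNorm _).trans (mul_le_mul_of_nonneg_right (hL x) (norm_nonneg _))
    rw [← sq_abs]
    refine (pow_le_pow_left₀ (abs_nonneg _) h1 2).trans ?_
    rw [mul_pow, norm_sq_eq_sum]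
    exact mul_le_mul_of_nonneg_left (Finset.single_le_sum
      (f := fun b => ∑ i, dif u v t b x i ^ 2) (fun _ _ => by positivity) (Finset.mem_univ a))
      (sq_nonneg _)
  have g2 : √(∫ x, g x ^ 2) ≤ L * e := by
    rw [← he, ← Real.sqrt_sq hL0, ← Real.sqrt_mul (sq_nonneg _)]
    refine Real.sqrt_le_sqrt ((integral_mono_of_nonneg (ae_of_all _ fun x => sq_nonneg _)
      (hD.const_mul _) (ae_of_all _ g1)).trans ?_)
    rw [integral_const_mul]
    exact mul_le_mul_of_nonneg_left hDE (sq_nonneg _)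
  have g3 := estp_l1 hr hL0 hD hD0 hDE g1 g0
  obtain ⟨X, hX0, hX⟩ : ∃ X, 0 ≤ X ∧ √(∫ x in ball 0 (r + d), den (dif u v t) x ^ 2) = X :=
    ⟨_, Real.sqrt_nonneg _, rfl⟩
  obtain ⟨s, hs0, hs⟩ : ∃ s, 0 ≤ s ∧ r ^ (3 / 2 : ℝ) / d ^ 3 = s := ⟨_, by positivity, rfl⟩
  have key : ∀ i j, |(∫ x, flux c (fun b y => v b y t) a i j x * pd i (pd j (nw g)) x) -
      ∫ x, flux c (fun b y => u b y t) a i j x * pd i (pd j (nw g)) x| ≤
      (k * e + k * e * e + m) * L * (X + 1 + s) := by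
    intro i j
    have cv := ((h.hv.jflux a i j).slice ht).continuous
    have cu := ((h.hu.jflux a i j).slice ht).continuous
    have iv := estp_flux hK (h.iv t ht) cv
    have iu := estp_flux hK (h.iu t ht) cu
    rw [← integral_sub (estp_mul iv hg i j) (estp_mul iu hg i j)]
    simp only [← sub_mul]
    refine (hK' _ g r d hg (cv.sub cu) (iv.sub iu) hd g0 i j).trans ?_
    have f1 := estp_l2 (R := r + d) hC0 hD hDc hD0 hDE fun x =>
      hC (fun b y => u b y t) (fun b y => v b y t) (dif u v t) x (fun _ => rfl)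
        (fun b k => h.b0 t ht b x k) a i j
    rw [hk, hX, he] at f1
    have f2 : ∫ x, |flux c (fun b y => v b y t) a i j x - flux c (fun b y => u b y t) a i j x| ≤
        K * E0 + K * E0 := by
      refine (integral_mono_of_nonneg (ae_of_all _ fun x => abs_nonneg _)
        (((h.iv t ht).const_mul K).add ((h.iu t ht).const_mul K))
        (ae_of_all _ fun x => (abs_sub _ _).trans (add_le_add (hK _ a i j x) (hK _ a i j x)))).trans ?_
      simp only [Pi.add_apply]
      rw [integral_add ((h.iv t ht).const_mul K) ((h.iu t ht).const_mul K), integral_const_mul,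
        integral_const_mul]
      exact add_le_add (mul_le_mul_of_nonneg_left (h.ev t ht) hK0)
        (mul_le_mul_of_nonneg_left (h.eu t ht) hK0)
    refine (add_le_add (mul_le_mul f1 g2 (Real.sqrt_nonneg _) (by positivity))
      (mul_le_mul (mul_le_mul_of_nonneg_left g3 (by positivity)) f2
        (integral_nonneg fun x => abs_nonneg _) (by positivity))).trans ?_
    have e1 : K' / d ^ 3 * (L * (r ^ (3 / 2 : ℝ) * (4 * E0 + Real.pi * 4 / 3))) *
        (K * E0 + K * E0) = L * (m * s) := by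
      rw [← hm, ← hs]
      ring
    rw [e1, mul_comm _ L, mul_assoc L, show k * (X + e) * (L * e) = L * (k * e * X + k * e * e) by
      ring, ← mul_add]
    refine mul_le_mul_of_nonneg_left ?_ hL0
    have e2 : (k * e + k * e * e + m) * (X + 1 + s) = k * e * X + k * e * e + m * s +
        (k * e * (1 + s) + k * e * e * (X + s) + m * (X + 1)) := by ring
    rw [e2]
    exact le_add_of_nonneg_right (by positivity)
  rw [hX, hs, ← Finset.sum_sub_distrib]
  simp only [← Finset.sum_sub_distrib]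
  refine (Finset.abs_sum_le_sum_abs _ _).trans ((Finset.sum_le_sum fun i _ =>
    (Finset.abs_sum_le_sum_abs _ _).trans (Finset.sum_le_sum fun j _ => key i j)).trans_eq ?_)
  simp only [Finset.sum_const, Finset.card_univ, Fintype.card_fin, nsmul_eq_mul]
  push_cast
  ring

end

end Pool.Agent.Work.MP_6bf1e5_an.Ang
end

-- merged part: Pool.Agent.Work.MP_6bf1e5_an.Ang.QUniq
section
/-!
Uniqueness and the energy inequality (compare Ens/Est.lean, Ens/Fill.lean, Ens/Uniq.lean).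
-/

open scoped ContDiff ENNReal FourierTransform Topology ComplexConjugate
open Set MeasureTheory Filter Polynomial Metric Pool.Agent.Work.MP_6bf1e5_an.Ens

namespace Pool.Agent.Work.MP_6bf1e5_an.Ang

noncomputable section

variable {ι : Type} [Fintype ι]

theorem qexists_est (c : ι → ι → ι → ℝ) : ∃ K : ℝ, 0 ≤ K ∧ ∀ {ν T E0 M0 M1 : ℝ}
    {u v : ι → R3 → ℝ → R3} {p q : ι → R3 → ℝ → R3}, QPair ν c T E0 M0 M1 u p v q → ∀ ε > 0,
    ∃ B : ℝ, 0 ≤ B ∧ ∀ R r ρ : ℝ, 1 ≤ R → R ≤ r → r < ρ → ρ ≤ 2 * R → ∃ ψ : R3 → ℝ, Test ψ ∧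
      (∀ x, 0 ≤ ψ x ∧ ψ x ≤ 1) ∧ (∀ x, ‖x‖ ≤ r → ψ x = 1) ∧ ∀ t ∈ Icc 0 T, ∃ e : ℝ,
        HasDerivWithinAt (fun s => ∫ x, den (dif u v s) x * ψ x) e (Icc 0 T) t ∧
        e + 2 * ν * ∫ x in ball 0 r, dis (dif u v t) x ≤ ε * (∫ x in ball 0 ρ, dis (dif u v t) x)
          + K * M1 * (∫ x, den (dif u v t) x) + B * R ^ 3 / (ρ - r) ^ 4 := by
  obtain ⟨k, hk, hcut⟩ := qexists_cut
  obtain ⟨K4, hK4, hL4⟩ := exists_L4 ι
  have hC : 0 ≤ ∑ a, ∑ b, ∑ d, |c a b d| := by positivity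
  refine ⟨18 * ∑ a, ∑ b, ∑ d, |c a b d|, by positivity, ?_⟩
  intro ν T E0 M0 M1 u v p q h ε hε
  obtain ⟨Bp, hBp, hP⟩ := h.press_est
  have hν := h.hν
  have hE : 0 ≤ 4 * E0 := (integral_nonneg (est_den_nonneg _)).trans
    (h.integrable_den (left_mem_Icc.2 h.hT.le)).2
  set C := ∑ a, ∑ b, ∑ d, |c a b d| with hCd
  refine ⟨256 * (24 * ν ^ 2 / ε * (4 * E0) * k ^ 2
    + (9 * C * (|M0| + 1) * (4 * E0) + 2 * Fintype.card ι * Bp) * k
    + 16 * Fintype.card ι * Bp * k + ε / 2 * (4 * E0)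
    + K4 ^ 2 * (4 * E0) * (9 * C * (4 * E0 + 1) + 2 * Fintype.card ι * Bp) ^ 4 / (ε / 2) ^ 3
      * k ^ 4), by positivity, fun R r ρ hR hr hrρ hρ => ?_⟩
  obtain ⟨d, hd⟩ : ∃ d, ρ - r = 4 * d := ⟨(ρ - r) / 4, by ring⟩
  have hd0 : 0 < d := by linarith
  obtain ⟨ψ, hψ, hψr, hψ1, hψ2, hψ3, hψ4⟩ := hcut r d hd0 (by linarith)
  have hf0 : ∀ x : R3, r + d ≤ ‖x‖ → fderiv ℝ ψ x = 0 := fun x hx =>
    IsLocalMin.fderiv_eq_zero (Eventually.of_forall fun y => by rw [hψ3 x hx]; exact (hψ1 y).1)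
  have hp0 : ∀ s, r + d ≤ s → ∀ j (x : R3), s ≤ ‖x‖ → pd j ψ x = 0 := fun s hs j x hx => by
    rw [pd, hf0 x (hs.trans hx)]
    rfl
  have hL : ∀ j x, |pd j ψ x| ≤ k / d := fun j x => (abs_pd_le ψ j x).trans (hψ4 x)
  refine ⟨ψ, hψ, hψ1, hψ2, fun t ht => ⟨_, h.local_energy hψ ht, ?_⟩⟩
  obtain ⟨hD, hI⟩ := h.integrable_den ht
  have hw : ∀ a i, ContDiff ℝ ∞ fun x => dif u v t a x i := fun a i => (h.jw a i).slice ht
  have hG : Continuous (dis (dif u v t)) := (h.jdis.slice ht).continuous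
  have hDc : Continuous (den (dif u v t)) :=
    continuous_finsetSum _ fun a _ => continuous_finsetSum _ fun i _ => (hw a i).continuous.pow 2
  have hI0 : 0 ≤ ∫ x, den (dif u v t) x := integral_nonneg (est_den_nonneg _)
  have hY : 0 ≤ ∫ x in ball 0 (r + d + d), den (dif u v t) x ^ 2 :=
    integral_nonneg fun x => sq_nonneg _
  have hX : ∫ x in ball 0 (r + d + d + d), dis (dif u v t) x ≤ ∫ x in ball 0 ρ, dis (dif u v t) x :=
    setIntegral_mono_set (est_intOn hG ρ) (Eventually.of_forall (est_dis_nonneg _))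
      (ball_subset_ball (by linarith)).eventuallyLE
  have hZ : 0 ≤ (∫ x in ball 0 (r + d + d + d), dis (dif u v t) x)
      + (∫ x, den (dif u v t) x) / d ^ 2 :=
    add_nonneg (integral_nonneg (est_dis_nonneg _)) (by positivity)
  have h3 := est_T3 c hD hDc hL (hp0 (r + d + d) (by linarith)) (z := fun b x => v b x t)
    (abs_nonneg M0) (σ := √(∫ x in ball 0 (r + d + d), den (dif u v t) x ^ 2) + 1)
    (by positivity) fun b x j => by
      have e : v b x t j = u b x t j + dif u v t b x j := by simp [dif]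
      rw [e]
      exact (abs_add_le _ _).trans (add_le_add_left ((h.b0 t ht b x j).trans (le_abs_self _)) _)
  have h5 : |∑ a, ((∑ i, ∫ x, q a x t i * (ψ x * dif u v t a x i))
      - ∑ i, ∫ x, p a x t i * (ψ x * dif u v t a x i))|
      ≤ Fintype.card ι * (Bp * (k / d) * (√(∫ x in ball 0 (r + d + d), den (dif u v t) x ^ 2) + 1
        + (r + d) ^ (3 / 2 : ℝ) / d ^ 3)) := by
    refine (Finset.abs_sum_le_sum_abs _ _).trans ((Finset.sum_le_sum fun a _ =>
      hP (r + d) d (k / d) ψ (by linarith) hd0 hψ hψr hf0 hψ4 t ht a).trans (le_of_eq ?_))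
    rw [Finset.sum_const, Finset.card_univ, nsmul_eq_mul]
  have h6 : √(∫ x in ball 0 (r + d + d), den (dif u v t) x ^ 2) ^ 4 ≤ K4 ^ 2 * (4 * E0) *
      ((∫ x in ball 0 (r + d + d + d), dis (dif u v t) x)
        + (∫ x, den (dif u v t) x) / d ^ 2) ^ 3 := by
    have a1 := pow_le_pow_left₀ hY (hL4 (dif u v t) (r + d + d) d hd0 (by linarith) hw hD) 2
    rw [mul_pow, mul_pow, Real.sq_sqrt hI0, ← Real.rpow_natCast (_ ^ (3 / 2 : ℝ)),
      ← Real.rpow_mul hZ, show (3 / 2 : ℝ) * (2 : ℕ) = (3 : ℕ) by norm_num, Real.rpow_natCast] at a1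
    rw [show (4 : ℕ) = 2 * 2 from rfl, pow_mul, Real.sq_sqrt hY]
    exact a1.trans (by gcongr)
  obtain ⟨w1, w2, w4, w0, w5⟩ := est_radii (ρ := r + d) hR hd0 (by linarith) (by linarith)
    (by linarith) hk
  rw [← Real.sq_sqrt hY, Real.sqrt_sq (Real.sqrt_nonneg _)] at h3
  have key := est_arith hν hε hC (Nat.cast_nonneg _) hBp hE (abs_nonneg M0) (by positivity)
    (by positivity) (Real.sqrt_nonneg _) hZ hI
    (est_T1 hG (est_dis_nonneg _) hψ (fun x => (hψ1 x).1) hψ2)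
    (est_T2 hD hG hL (hp0 ρ (by linarith)) (by positivity)) h3
    (est_T4 c hD hψ1 (g := fun d i j x => pd j (fun y => u d y t i) x)
      fun d i j x => h.b1 t ht d x i j) h5 h6
    (add_le_add hX (by rw [← div_eq_mul_one_div]; gcongr)) w1 w2 w4 w0 w5
  refine key.trans (le_of_eq ?_)
  rw [hd]
  field_simp
  ring

section

variable {ν T E0 M0 M1 : ℝ} {c : ι → ι → ι → ℝ} {u v p q : ι → R3 → ℝ → R3}

theorem qfill_cont (h : QPair ν c T E0 M0 M1 u p v q) (r : ℝ) :
    ContinuousOn (fun t => ∫ x in ball (0 : R3) r, dis (dif u v t) x) (Icc 0 T) :=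
  h.jdis.continuousOn_setIntegral isBounded_ball measurableSet_ball

theorem qfill_int (h : QPair ν c T E0 M0 M1 u p v q) {t0 t1 : ℝ} (h0 : 0 ≤ t0) (h01 : t0 ≤ t1)
    (h1 : t1 ≤ T) (r : ℝ) :
    IntervalIntegrable (fun t => ∫ x in ball (0 : R3) r, dis (dif u v t) x) volume t0 t1 :=
  ((qfill_cont h r).mono (Icc_subset_Icc h0 h1)).intervalIntegrable_of_Icc h01

theorem qfill_D_mono (h : QPair ν c T E0 M0 M1 u p v q) {t0 t1 : ℝ} (h0 : 0 ≤ t0) (h01 : t0 ≤ t1)
    (h1 : t1 ≤ T) {r ρ : ℝ} (hr : r ≤ ρ) :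
    ∫ t in t0..t1, ∫ x in ball (0 : R3) r, dis (dif u v t) x ≤
      ∫ t in t0..t1, ∫ x in ball (0 : R3) ρ, dis (dif u v t) x := by
  refine intervalIntegral.integral_mono_on h01 (qfill_int h h0 h01 h1 r) (qfill_int h h0 h01 h1 ρ)
    fun t ht => ?_
  have hc : Continuous fun x => dis (dif u v t) x :=
    (h.jdis.slice ⟨h0.trans ht.1, ht.2.trans h1⟩).continuous
  refine setIntegral_mono_set
    ((hc.continuousOn.integrableOn_compact (isCompact_closedBall (0 : R3) ρ)).mono_set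
      ball_subset_closedBall)
    (Eventually.of_forall fun x => fill_dis_nonneg _ x) (ball_subset_ball hr).eventuallyLE

theorem qfill_time (h : QPair ν c T E0 M0 M1 u p v q) {t0 t1 : ℝ} (h0 : 0 ≤ t0) (h01 : t0 ≤ t1)
    (h1 : t1 ≤ T) {ε L r ρ : ℝ} {g : ℝ → ℝ}
    (hg : ∀ t ∈ Icc t0 t1, ∃ e : ℝ, HasDerivWithinAt g e (Icc 0 T) t ∧
      e + 2 * ν * ∫ x in ball 0 r, dis (dif u v t) x ≤
        ε * (∫ x in ball 0 ρ, dis (dif u v t) x) + L) :
    g t1 + 2 * ν * (∫ t in t0..t1, ∫ x in ball (0 : R3) r, dis (dif u v t) x) ≤ g t0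
      + ε * (∫ t in t0..t1, ∫ x in ball (0 : R3) ρ, dis (dif u v t) x) + L * (t1 - t0) := by
  choose! e he using hg
  have hsub : Icc t0 t1 ⊆ Icc 0 T := Icc_subset_Icc h0 h1
  have hφ : ContinuousOn (fun t => ε * (∫ x in ball (0 : R3) ρ, dis (dif u v t) x)
      - 2 * ν * (∫ x in ball (0 : R3) r, dis (dif u v t) x) + L) (Icc t0 t1) :=
    ((continuousOn_const.mul ((qfill_cont h ρ).mono hsub)).sub
      (continuousOn_const.mul ((qfill_cont h r).mono hsub))).add continuousOn_const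
  have key := intervalIntegral.sub_le_integral_of_hasDeriv_right_of_le (g := g) (g' := e) h01
    (fun t ht => ((he t ht).1.continuousWithinAt).mono hsub)
    (fun t ht => ((he t (Ioo_subset_Icc_self ht)).1.hasDerivAt
      (Icc_mem_nhds (h0.trans_lt ht.1) (ht.2.trans_le h1))).hasDerivWithinAt)
    (hφ.integrableOn_compact isCompact_Icc)
    (fun t ht => by linarith [(he t (Ioo_subset_Icc_self ht)).2])
  rw [intervalIntegral.integral_add
      (((qfill_int h h0 h01 h1 ρ).const_mul ε).sub ((qfill_int h h0 h01 h1 r).const_mul (2 * ν)))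
      intervalIntegrable_const,
    intervalIntegral.integral_sub ((qfill_int h h0 h01 h1 ρ).const_mul ε)
      ((qfill_int h h0 h01 h1 r).const_mul (2 * ν)),
    intervalIntegral.integral_const_mul, intervalIntegral.integral_const_mul,
    intervalIntegral.integral_const, smul_eq_mul] at key
  linarith

end

theorem qexists_step (c : ι → ι → ι → ℝ) : ∃ K : ℝ, 0 ≤ K ∧ ∀ {ν T E0 M0 M1 : ℝ}
    {u v : ι → R3 → ℝ → R3} {p q : ι → R3 → ℝ → R3}, QPair ν c T E0 M0 M1 u p v q →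
    ∀ t0 t1 S : ℝ, 0 ≤ t0 → t0 ≤ t1 → t1 ≤ T → (∀ t ∈ Icc t0 t1, ∫ x, den (dif u v t) x ≤ S) →
      ∫ x, den (dif u v t1) x ≤ (∫ x, den (dif u v t0) x) + K * M1 * (t1 - t0) * S := by
  rcases isEmpty_or_nonempty ι with hι | ⟨⟨a0⟩⟩
  · exact ⟨0, le_rfl, fun _ _ _ _ _ _ _ _ => by simp [den]⟩
  obtain ⟨K, hK, hest⟩ := qexists_est c
  obtain ⟨K0, hK0, hfill⟩ := hole_fill
  refine ⟨K, hK, fun {ν T E0 M0 M1 u v p q} h t0 t1 S h0 h01 h1 hS => ?_⟩
  have hν := h.hν
  have hM1 : 0 ≤ M1 := (abs_nonneg _).trans (h.b1 0 ⟨le_rfl, h.hT.le⟩ a0 0 0 0)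
  have hsub : Icc t0 t1 ⊆ Icc 0 T := Icc_subset_Icc h0 h1
  have ht0 : t0 ∈ Icc t0 t1 := ⟨le_rfl, h01⟩
  have ht1 : t1 ∈ Icc t0 t1 := ⟨h01, le_rfl⟩
  have hi0 := (h.integrable_den (hsub ht0)).1
  have hi1 := (h.integrable_den (hsub ht1)).1
  have hS0 : 0 ≤ S := (integral_nonneg fun x => fill_den_nonneg _ x).trans (hS t0 ht0)
  have hτ : 0 ≤ t1 - t0 := sub_nonneg.mpr h01
  set D : ℝ → ℝ := fun r => ∫ t in t0..t1, ∫ x in ball (0 : R3) r, dis (dif u v t) x with hD
  have main : ∀ ε > 0, ∃ B : ℝ, 0 ≤ B ∧ ∀ R r ρ : ℝ, 1 ≤ R → R ≤ r → r < ρ → ρ ≤ 2 * R →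
      (∫ x in ball (0 : R3) r, den (dif u v t1) x) + 2 * ν * D r ≤ (∫ x, den (dif u v t0) x)
        + ε * D ρ + (K * M1 * S + B * R ^ 3 / (ρ - r) ^ 4) * (t1 - t0) := by
    intro ε hε
    obtain ⟨B, hB, hB'⟩ := hest h ε hε
    refine ⟨B, hB, fun R r ρ hR hr hρ hρ' => ?_⟩
    obtain ⟨ψ, hψ, hψ1, hψ2, hψ3⟩ := hB' R r ρ hR hr hρ hρ'
    have k1 := qfill_time h h0 h01 h1 (ε := ε) (L := K * M1 * S + B * R ^ 3 / (ρ - r) ^ 4)
      (r := r) (ρ := ρ) (g := fun s => ∫ x, den (dif u v s) x * ψ x) fun t ht => by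
        obtain ⟨e, he, he'⟩ := hψ3 t (hsub ht)
        refine ⟨e, he, ?_⟩
        have := mul_le_mul_of_nonneg_left (hS t ht) (mul_nonneg hK hM1)
        linarith
    have k2 := fill_cut_le hi0 (fill_den_nonneg _) hψ1
    have k3 := fill_le_cut hi1 (fill_den_nonneg _) hψ hψ1 hψ2
    simp only [hD]
    linarith
  obtain ⟨B1, hB1, m1⟩ := main ν hν
  have hbound : ∀ R : ℝ, 1 ≤ R → D R ≤ 2 * ((S + K * M1 * S * (t1 - t0)) / (2 * ν))
      + K0 * (B1 * (t1 - t0) / (2 * ν)) := by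
    intro R hR
    have hR0 : 0 < R := by linarith
    have k := hfill D R ((S + K * M1 * S * (t1 - t0)) / (2 * ν))
      (B1 * R ^ 3 * (t1 - t0) / (2 * ν)) hR0 (by positivity) (by positivity)
      ⟨D (2 * R), fun r hr => qfill_D_mono h h0 h01 h1 hr.2⟩ fun r ρ hr hρ hρ' => by
        have k1 := m1 R r ρ hR hr hρ hρ'
        have k2 : 0 ≤ ∫ x in ball (0 : R3) r, den (dif u v t1) x :=
          integral_nonneg fun x => fill_den_nonneg _ x
        have k3 := hS t0 ht0
        have k4 : D ρ / 2 + (S + K * M1 * S * (t1 - t0)) / (2 * ν)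
            + B1 * R ^ 3 * (t1 - t0) / (2 * ν) / (ρ - r) ^ 4
            = (S + ν * D ρ + (K * M1 * S + B1 * R ^ 3 / (ρ - r) ^ 4) * (t1 - t0)) / (2 * ν) := by
          field_simp
          ring
        rw [k4, le_div_iff₀ (by positivity)]
        linarith
    have k5 : K0 * (B1 * R ^ 3 * (t1 - t0) / (2 * ν)) / R ^ 4
        = K0 * (B1 * (t1 - t0) / (2 * ν)) / R := by
      field_simp
    have k6 : K0 * (B1 * (t1 - t0) / (2 * ν)) / R ≤ K0 * (B1 * (t1 - t0) / (2 * ν)) :=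
      div_le_self (by positivity) hR
    linarith
  set D0 : ℝ := 2 * ((S + K * M1 * S * (t1 - t0)) / (2 * ν)) + K0 * (B1 * (t1 - t0) / (2 * ν))
  have hε : ∀ ε > 0, ∫ x, den (dif u v t1) x ≤
      (∫ x, den (dif u v t0) x) + K * M1 * (t1 - t0) * S + ε * D0 := by
    intro ε hε
    obtain ⟨B, hB, m⟩ := main ε hε
    have hlim : Tendsto (fun n : ℕ => (∫ x, den (dif u v t0) x) + K * M1 * (t1 - t0) * S + ε * D0
        + B * (t1 - t0) * (1 / ((n : ℝ) + 1))) atTop
        (𝓝 ((∫ x, den (dif u v t0) x) + K * M1 * (t1 - t0) * S + ε * D0 + B * (t1 - t0) * 0)) :=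
      (tendsto_one_div_add_atTop_nhds_zero_nat.const_mul _).const_add _
    have := le_of_tendsto_of_tendsto' (fill_tendsto hi1) hlim fun n => by
      have hn : (0 : ℝ) ≤ n := n.cast_nonneg
      have k1 := m ((n : ℝ) + 1) ((n : ℝ) + 1) (2 * ((n : ℝ) + 1)) (by linarith) le_rfl
        (by linarith) le_rfl
      have k2 : 0 ≤ D ((n : ℝ) + 1) := fill_D_nonneg u v h01 _
      have k3 := mul_le_mul_of_nonneg_left (hbound (2 * ((n : ℝ) + 1)) (by linarith)) hε.le
      have k4 : B * ((n : ℝ) + 1) ^ 3 / (2 * ((n : ℝ) + 1) - ((n : ℝ) + 1)) ^ 4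
          = B * (1 / ((n : ℝ) + 1)) := by
        rw [show 2 * ((n : ℝ) + 1) - ((n : ℝ) + 1) = (n : ℝ) + 1 by ring]
        field_simp
      rw [k4] at k1
      have k5 : 0 ≤ 2 * ν * D ((n : ℝ) + 1) := by positivity
      linarith
    simpa using this
  have hlim : Tendsto (fun n : ℕ => (∫ x, den (dif u v t0) x) + K * M1 * (t1 - t0) * S
      + 1 / ((n : ℝ) + 1) * D0) atTop
      (𝓝 ((∫ x, den (dif u v t0) x) + K * M1 * (t1 - t0) * S + 0 * D0)) :=
    (tendsto_one_div_add_atTop_nhds_zero_nat.mul_const _).const_add _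
  simpa using ge_of_tendsto' hlim fun n => hε _ (by positivity)

variable {ν T : ℝ} {c : ι → ι → ι → ℝ} {u0 : ι → R3 → R3} {u v p q : ι → R3 → ℝ → R3}

theorem quniq_cont {I : Set ℝ} (hu : QSol ν c u0 I u p) {t : ℝ} (ht : t ∈ I) (a : ι) :
    Continuous fun x => u a x t :=
  (hu.smooth_u a).continuousOn.comp_continuous (f := fun x : R3 => (x, t)) (by fun_prop)
    fun _ => ⟨trivial, ht⟩

theorem quniq_init {I : Set ℝ} (hu : QSol ν c u0 I u p) : u0 = fun a x => u a x 0 :=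
  funext fun a => funext fun x => (hu.initial a x).symm

theorem quniq_pair (hν : 0 < ν) (hT : 0 < T) (hc : ∀ a b d, c a b d = c d b a)
    {v0 : ι → R3 → R3} (hu : QSol ν c u0 (Icc 0 T) u p) (hv : QSol ν c v0 (Icc 0 T) v q)
    (eu : ∃ C < (⊤ : ℝ≥0∞), ∀ t ∈ Icc 0 T, energy (fun a x => u a x t) ≤ C)
    (ev : ∃ C < (⊤ : ℝ≥0∞), ∀ t ∈ Icc 0 T, energy (fun a x => v a x t) ≤ C) {M : ℝ}
    (hb : ∀ t ∈ Icc 0 T, ∀ a x i, |u a x t i| ≤ M ∧ ∀ j, |pd j (fun y => u a y t i) x| ≤ M)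
    (ou : ∀ ψ, Test ψ → Rad ψ → ∀ t ∈ Icc 0 T, ∀ a,
      Blind (Icc 0 T) (p a) fun i x => ψ x * dif u v t a x i)
    (ov : ∀ ψ, Test ψ → Rad ψ → ∀ t ∈ Icc 0 T, ∀ a,
      Blind (Icc 0 T) (q a) fun i x => ψ x * dif u v t a x i) :
    ∃ E0, QPair ν c T E0 M M u p v q := by
  obtain ⟨C, hC, eu⟩ := eu
  obtain ⟨D, hD, ev⟩ := ev
  have h1 := fun t ht => uniq_int (quniq_cont hu ht) hC (eu t ht)
  have h2 := fun t ht => uniq_int (quniq_cont hv ht) hD (ev t ht)
  exact ⟨max C.toReal D.toReal, hν, hT, hc, quniq_init hu ▸ hu, quniq_init hv ▸ hv,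
    fun t ht => (h1 t ht).1, fun t ht => (h2 t ht).1,
    fun t ht => (h1 t ht).2.trans (le_max_left _ _),
    fun t ht => (h2 t ht).2.trans (le_max_right _ _),
    fun t ht a x i => (hb t ht a x i).1, fun t ht a x i j => (hb t ht a x i).2 j, ou, ov⟩

theorem QSol.unique (hν : 0 < ν) (hT : 0 < T) (hc : ∀ a b d, c a b d = c d b a)
    (hu : QSol ν c u0 (Icc 0 T) u p) (hv : QSol ν c u0 (Icc 0 T) v q)
    (eu : ∃ C < (⊤ : ℝ≥0∞), ∀ t ∈ Icc 0 T, energy (fun a x => u a x t) ≤ C)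
    (ev : ∃ C < (⊤ : ℝ≥0∞), ∀ t ∈ Icc 0 T, energy (fun a x => v a x t) ≤ C)
    (hb : ∃ M : ℝ, ∀ t ∈ Icc 0 T, ∀ a x i,
      |u a x t i| ≤ M ∧ ∀ j, |pd j (fun y => u a y t i) x| ≤ M)
    (ou : ∀ ψ, Test ψ → Rad ψ → ∀ t ∈ Icc 0 T, ∀ a,
      Blind (Icc 0 T) (p a) fun i x => ψ x * dif u v t a x i)
    (ov : ∀ ψ, Test ψ → Rad ψ → ∀ t ∈ Icc 0 T, ∀ a,
      Blind (Icc 0 T) (q a) fun i x => ψ x * dif u v t a x i) :
    ∀ t ∈ Icc 0 T, ∀ a x, v a x t = u a x t := by
  obtain ⟨M, hb⟩ := hb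
  obtain ⟨E0, hP⟩ := quniq_pair hν hT hc hu hv eu ev (M := max M 0) (fun t ht a x i =>
    ⟨(hb t ht a x i).1.trans (le_max_left _ _),
      fun j => ((hb t ht a x i).2 j).trans (le_max_left _ _)⟩) ou ov
  obtain ⟨K, hK, hs⟩ := qexists_step c
  have h0 : ∫ x, den (dif u v 0) x ≤ 0 := by
    simp [den, dif, hu.initial, hv.initial]
  have h1 := uniq_gronwall (e := fun t => ∫ x, den (dif u v t) x)
    (mul_nonneg hK (le_max_right M 0)) h0 (fun t ht => (hP.integrable_den ht).2) (hs hP)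
  intro t ht a x
  have hc' : Continuous (den (dif u v t)) :=
    uniq_den_cont fun a => (quniq_cont hv ht a).sub (quniq_cont hu ht a)
  have h2 := (integral_eq_zero_iff_of_nonneg (uniq_den_nonneg _) (hP.integrable_den ht).1).1
    (le_antisymm (h1 t ht) (integral_nonneg (uniq_den_nonneg _)))
  have h3 := congrFun ((hc'.ae_eq_iff_eq volume continuous_zero).1 h2) x
  have h4 := (Finset.sum_eq_zero_iff_of_nonneg fun _ _ =>
    Finset.sum_nonneg fun _ _ => sq_nonneg _).1 h3 a (Finset.mem_univ a)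
  rw [← norm_sq_eq_sum, sq_eq_zero_iff, norm_eq_zero] at h4
  exact sub_eq_zero.1 h4

theorem QSol.zero (ν : ℝ) (c : ι → ι → ι → ℝ) (I : Set ℝ) :
    QSol ν c (fun _ _ => 0) I (fun _ _ _ => 0) fun _ _ _ => 0 := by
  have e : ∀ (j : Fin 3), pd j (fun _ => (0 : ℝ)) = fun _ => 0 := fun j => funext (pd_const 0 j)
  refine ⟨fun _ => contDiffOn_const, fun _ => contDiffOn_const, fun a x t _ i => ?_,
    fun a x t _ => ?_, fun _ _ => rfl⟩
  · simp [e]
  · simp [e]

theorem QSol.energy_le (hν : 0 < ν) (hT : 0 < T) (hc : ∀ a b d, c a b d = c d b a)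
    (hv : QSol ν c u0 (Icc 0 T) v q)
    (ev : ∃ C < (⊤ : ℝ≥0∞), ∀ t ∈ Icc 0 T, energy (fun a x => v a x t) ≤ C)
    (ov : ∀ ψ, Test ψ → Rad ψ → ∀ t ∈ Icc 0 T, ∀ a,
      Blind (Icc 0 T) (q a) fun i x => ψ x * v a x t i) :
    ∀ t ∈ Icc 0 T, energy (fun a x => v a x t) ≤ energy u0 := by
  obtain ⟨E0, hP⟩ := quniq_pair hν hT hc (QSol.zero ν c (Icc 0 T)) hv
    ⟨0, ENNReal.zero_lt_top, fun t _ => by simp [energy]⟩ ev (M := 0) (fun t _ a x i =>
    ⟨by simp, fun j => by simp [pd_const]⟩) (fun ψ _ _ t _ a θ _ _ s _ => by simp)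
    (fun ψ h1 h2 t ht a => by simpa only [dif, sub_zero] using ov ψ h1 h2 t ht a)
  obtain ⟨K, -, hs⟩ := qexists_step c
  intro t ht
  have h0 : (0 : ℝ) ∈ Icc 0 T := ⟨le_rfl, hT.le⟩
  have h1 := hs hP 0 t _ le_rfl ht.1 ht.2 fun s hs' =>
    (hP.integrable_den ⟨hs'.1, hs'.2.trans ht.2⟩).2
  have h2 : ∀ s, dif (fun _ _ _ => 0) v s = fun a x => v a x s := fun s =>
    funext fun a => funext fun x => sub_zero _
  rw [h2, h2, mul_zero, zero_mul, zero_mul, add_zero] at h1
  rw [quniq_init hv, uniq_energy (quniq_cont hv ht) (hP.iv t ht),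
    uniq_energy (quniq_cont hv h0) (hP.iv 0 h0)]
  exact ENNReal.ofReal_le_ofReal h1

end

end Pool.Agent.Work.MP_6bf1e5_an.Ang
end
end

-- merged part: Pool.Agent.Work.MP_6bf1e5_an.Ang.ProfE
section
-- merged part: Pool.Agent.Work.MP_6bf1e5_an.Ang.Rot1
section
/-!
Orthogonal matrices. For `exists_rotation` take `R θ = 1 + sin θ K + (1 - cos θ) K²` with `K i j = Km k i j`
(`K³ = -K`, `Kᵀ = -K`), or write the three matrices with `cos` and `sin`.
-/

open scoped ContDiff ENNReal FourierTransform Topology Matrix RealInnerProductSpace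
open Set MeasureTheory Filter Metric Pool.Agent.Work.MP_6bf1e5_an.Ens
  Pool.Agent.Work.MP_6bf1e5_an.Mat

namespace Pool.Agent.Work.MP_6bf1e5_an.Ang

noncomputable section

theorem act_apply (R : M3) (x : R3) (i : Fin 3) : act R x i = ∑ j, R i j * x j := rfl

theorem act_act (R S : M3) (x : R3) : act R (act S x) = act (R * S) x := by
  simp only [act, Matrix.mulVec_mulVec]

theorem act_one (x : R3) : act 1 x = x := by
  simp only [act, Matrix.one_mulVec]

theorem act_smul (R : M3) (r : ℝ) (x : R3) : act R (r • x) = r • act R x := by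
  simp only [act, WithLp.ofLp_smul, Matrix.mulVec_smul, WithLp.toLp_smul]

theorem rot1_add (R : M3) (x y : R3) : act R (x + y) = act R x + act R y := by
  simp only [act, WithLp.ofLp_add, Matrix.mulVec_add, WithLp.toLp_add]

theorem norm_act {R : M3} (hR : R * Rᵀ = 1) (x : R3) : ‖act R x‖ = ‖x‖ := by
  have h : Rᵀ * R = 1 := mul_eq_one_comm.1 hR
  have h1 : (R *ᵥ x.ofLp) ⬝ᵥ (R *ᵥ x.ofLp) = x.ofLp ⬝ᵥ x.ofLp := by
    rw [Matrix.dotProduct_mulVec, Matrix.vecMul_mulVec, h, Matrix.vecMul_one]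
  rw [EuclideanSpace.norm_eq, EuclideanSpace.norm_eq]
  congr 1
  simpa [dotProduct, sq, act] using h1

theorem exists_actL {R : M3} (hR : R * Rᵀ = 1) : ∃ L : R3 ≃ₗᵢ[ℝ] R3,
    (∀ x, L x = act R x) ∧ ∀ x, L.symm x = act Rᵀ x := by
  have h : Rᵀ * R = 1 := mul_eq_one_comm.1 hR
  exact ⟨{ toFun := act R
           invFun := act Rᵀ
           map_add' := rot1_add R
           map_smul' := act_smul R
           left_inv := fun x => by rw [act_act, h, act_one]
           right_inv := fun x => by rw [act_act, hR, act_one]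
           norm_map' := norm_act hR }, fun _ => rfl, fun _ => rfl⟩

theorem rot1_Km (k i j : Fin 3) : Km k i j =
    ![!![0, 0, 0; 0, 0, -1; 0, 1, 0], !![0, 0, 1; 0, 0, 0; -1, 0, 0],
      !![0, -1, 0; 1, 0, 0; 0, 0, 0]] k i j := by
  fin_cases k <;> fin_cases i <;> fin_cases j <;> simp [Km, cr, cross_apply]

theorem exists_rotation (k : Fin 3) : ∃ R : ℝ → M3, (∀ s, R s * (R s)ᵀ = 1) ∧ R 0 = 1 ∧
    (∀ i j, ContDiff ℝ ∞ fun s => R s i j) ∧
      ∀ i j, HasDerivAt (fun s => R s i j) (Km k i j) 0 := by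
  have hc : HasDerivAt Real.cos 0 0 := by simpa using Real.hasDerivAt_cos 0
  have hs : HasDerivAt Real.sin 1 0 := by simpa using Real.hasDerivAt_sin 0
  refine ⟨fun s => Matrix.of fun i j => (if i = j then 1 else 0) + Real.sin s * Km k i j +
    (1 - Real.cos s) * ∑ l, Km k i l * Km k l j, fun s => ?_, ?_, fun i j => ?_, fun i j => ?_⟩
  · have h := Real.sin_sq_add_cos_sq s
    ext i j
    simp only [Matrix.mul_apply, Matrix.transpose_apply, Matrix.of_apply, rot1_Km,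
      Fin.sum_univ_three]
    fin_cases k <;> fin_cases i <;> fin_cases j <;> simp <;> linarith
  · ext i j
    simp [Matrix.one_apply]
  · simp only [Matrix.of_apply]
    fun_prop
  · simp only [Matrix.of_apply]
    simpa using ((hs.mul_const (Km k i j)).const_add (if i = j then 1 else 0)).fun_add
      ((hc.const_sub 1).mul_const (∑ l, Km k i l * Km k l j))

theorem exists_orth_e3 {w : R3} (hw : ‖w‖ = 1) : ∃ R : M3, R * Rᵀ = 1 ∧ act R e3 = w := by
  obtain ⟨b, hb⟩ := Orthonormal.exists_orthonormalBasis_extension_of_card_eq (𝕜 := ℝ) (E := R3)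
    (ι := Fin 3) (by simp) (v := fun _ => w) (s := {2}) (by simp [hw])
  have h1 : (Matrix.of fun i j => b j i : M3)ᵀ * (Matrix.of fun i j => b j i) = 1 := by
    ext i j
    have h2 := orthonormal_iff_ite.1 b.orthonormal j i
    rw [Matrix.one_apply, Matrix.mul_apply]
    simpa [PiLp.inner_apply, eq_comm] using h2
  refine ⟨Matrix.of fun i j => b j i, mul_eq_one_comm.1 h1, ?_⟩
  ext i
  rw [act_apply, ← hb 2 rfl]
  simp [e3]

theorem ev_act {R : M3} (hR : R * Rᵀ = 1) (f : R3 → ℂ) (x : R3) :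
    ev (fun ξ => f (act R ξ)) x = ev f (act R x) := by
  obtain ⟨L, h, -⟩ := exists_actL hR
  simp only [← h]
  exact Real.fourierInv_comp_linearIsometry L f x

theorem cv_act {R : M3} (hR : R * Rᵀ = 1) (f g : R3 → ℂ) (ξ : R3) :
    cv (fun η => f (act R η)) (fun η => g (act R η)) ξ = cv f g (act R ξ) := by
  obtain ⟨L, h, -⟩ := exists_actL hR
  simp only [← h, cv, map_sub]
  exact L.measurePreserving.integral_comp L.toHomeomorph.measurableEmbedding
    fun η => f η * g (L ξ - η)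

end

end Pool.Agent.Work.MP_6bf1e5_an.Ang
end

-- merged part: Pool.Agent.Work.MP_6bf1e5_an.Ang.JNw
section
/-!
The Newton potential is symmetric and commutes with rotations. `nw_symm`: both sides are the real part of
`∫ -(𝓕 φ ξ) (𝓕 χ (-ξ)) / (4 π² |ξ|²)` (`Real.integral_fourierInv_smul_eq` or `VectorFourier.integral_fourierIntegral_smul_eq_flip`).
`ang_nw`: with `R s` from `exists_rotation` and a test function `χ`,
`∫ nw φ (R s x) χ x = ∫ (φ ∘ R s) nw χ = ∫ φ y nw χ ((R s)ᵀ y)`. Differentiate at `s = 0`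
(`JS.hasDerivWithinAt_integral` on `Icc 0 1`): `-∫ ang k (nw φ) χ = ∫ φ ang k (nw χ) = -∫ ang k φ nw χ = -∫ nw (ang k φ) χ`.
A continuous function that is orthogonal to all test functions vanishes (test with `θ` times the function).
-/

open scoped ContDiff ENNReal FourierTransform Topology Matrix RealInnerProductSpace
open Set MeasureTheory Filter Metric Pool.Agent.Work.MP_6bf1e5_an.Ens
  Pool.Agent.Work.MP_6bf1e5_an.Mat

namespace Pool.Agent.Work.MP_6bf1e5_an.Ang

noncomputable section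

variable {φ χ : R3 → ℝ}

theorem jnw_pair (hφ : Test φ) (hχ : Test χ) : ∫ x, nw φ x * χ x =
    (∫ ξ : R3, -(𝓕 (fun y => (φ y : ℂ)) ξ) / ((4 * Real.pi ^ 2 * ‖ξ‖ ^ 2 : ℝ) : ℂ) *
      𝓕 (fun y => (χ y : ℂ)) (-ξ)).re := by
  have h := planch_fubini (f := fun y => (χ y : ℂ)) (newtonS hχ).integrable (newton_int0 hφ)
  simp only [smul_eq_mul, ev_neg (fun y => (χ y : ℂ))] at h
  have hi : Integrable fun x => ev (fun ξ => -(𝓕 (fun y => (φ y : ℂ)) ξ) /
      ((4 * Real.pi ^ 2 * ‖ξ‖ ^ 2 : ℝ) : ℂ)) x * (χ x : ℂ) :=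
    ((continuous_ev (newton_int0 hφ)).mul (newtonS hχ).continuous).integrable_of_hasCompactSupport
      (hχ.2.comp_left (g := fun r : ℝ => (r : ℂ)) Complex.ofReal_zero).mul_left
  rw [← h, ← Complex.reCLM_apply, ← Complex.reCLM.integral_comp_comm hi]
  refine integral_congr_ae (Eventually.of_forall fun x => ?_)
  simp [nw]

theorem jnw_deriv {R : ℝ → M3} {K : M3} (h0 : R 0 = 1) (hs : ∀ i j, ContDiff ℝ ∞ fun s => R s i j)
    (hd : ∀ i j, HasDerivAt (fun s => R s i j) (K i j) 0) {f : R3 → ℝ} (hf : ContDiff ℝ ∞ f)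
    (hχ : Test χ) : HasDerivWithinAt (fun s => ∫ x, f (act (R s) x) * χ x)
      (∫ x, fderiv ℝ f x (act K x) * χ x) (Icc 0 1) 0 := by
  have hc : ContDiff ℝ ∞ fun z : R3 × ℝ => act (R z.2) z.1 := by
    refine contDiff_euclidean.2 fun i => ?_
    simp only [act_apply]
    exact ContDiff.sum fun j _ => ((hs i j).comp contDiff_snd).mul (by fun_prop)
  have hJ : JS (Icc 0 1) fun x s => f (act (R s) x) := (hf.comp hc).contDiffOn
  have hm : (0 : ℝ) ∈ Icc (0 : ℝ) 1 := left_mem_Icc.2 zero_le_one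
  have h := hJ.hasDerivWithinAt_integral one_pos hχ hm
  have e : ∀ x, derivWithin (fun s => f (act (R s) x)) (Icc 0 1) 0 = fderiv ℝ f x (act K x) :=
    fun x => by
      have h1 : HasDerivAt (fun s => act (R s) x) (act K x) 0 := by
        refine (PiLp.continuousLinearEquiv 2 ℝ fun _ : Fin 3 => ℝ).symm.toContinuousLinearMap
          |>.hasFDerivAt.comp_hasDerivAt 0 (f := fun s => R s *ᵥ x.ofLp) (f' := K *ᵥ x.ofLp) ?_
        exact hasDerivAt_pi.2 fun i =>
          HasDerivAt.fun_sum (u := Finset.univ) fun j _ => (hd i j).mul_const (x j)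
      have h2 : HasFDerivAt f (fderiv ℝ f x) (act (R 0) x) := by
        rw [h0, act_one]
        exact (hf.differentiable (by simp) x).hasFDerivAt
      exact (h2.comp_hasDerivAt 0 h1).hasDerivWithinAt.derivWithin (uniqueDiffOn_Icc one_pos 0 hm)
  simpa only [e] using h

theorem nw_symm (hφ : Test φ) (hχ : Test χ) : ∫ x, nw φ x * χ x = ∫ x, φ x * nw χ x := by
  simp only [mul_comm (φ _)]
  rw [jnw_pair hφ hχ, jnw_pair hχ hφ, ← integral_neg_eq_self]
  simp only [neg_neg, norm_neg]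
  congr 2
  funext ξ
  ring

theorem nw_act {R : M3} (hR : R * Rᵀ = 1) (φ : R3 → ℝ) (x : R3) :
    nw (fun y => φ (act R y)) x = nw φ (act R x) := by
  obtain ⟨L, hL, -⟩ := exists_actL hR
  rw [nw, nw, ← ev_act hR]
  congr 3
  funext ξ
  rw [norm_act hR, ← hL, ← Real.fourier_comp_linearIsometry L]
  simp only [← hL]
  rfl

theorem eq_zero_of_test {f : R3 → ℝ} (hf : ContDiff ℝ ∞ f)
    (h : ∀ χ, Test χ → ∫ x, f x * χ x = 0) (x : R3) : f x = 0 := by
  have := ae_eq_zero_of_integral_contDiff_smul_eq_zero (μ := (volume : Measure R3))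
    hf.continuous.locallyIntegrable fun g h1 h2 => by
      simpa only [smul_eq_mul, mul_comm] using h g ⟨h1, h2⟩
  exact congrFun ((hf.continuous.ae_eq_iff_eq volume continuous_zero).1 this) x

theorem ang_nw (hφ : Test φ) (k : Fin 3) : ang k (nw φ) = nw (ang k φ) := by
  obtain ⟨R, hR, h0, hs, hd⟩ := exists_rotation k
  have hn := contDiff_nw hφ
  have ha := test_ang hφ k
  funext x
  refine sub_eq_zero.1 (eq_zero_of_test ((contDiff_ang hn k).sub (contDiff_nw ha))
    (fun χ hχ => ?_) x)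
  have e : (fun s => ∫ x, nw φ (act (R s) x) * χ x) =
      fun s => ∫ x, nw χ (act (R s)ᵀ x) * φ x := by
    funext s
    obtain ⟨L, hL, hL'⟩ := exists_actL (hR s)
    have ht : Test fun y => φ (act (R s) y) := by
      simp only [← hL]
      exact ⟨hφ.1.comp L.contDiff, hφ.2.comp_homeomorph L.toHomeomorph⟩
    simp only [← nw_act (hR s)]
    rw [nw_symm ht hχ, ← integral_comp L fun x => nw χ (act (R s)ᵀ x) * φ x]
    simp only [← hL, ← hL', L.symm_apply_apply, mul_comm]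
  have h1 := jnw_deriv (K := Matrix.of (Km k)) h0 hs hd hn hχ
  have h2 := jnw_deriv (R := fun s => (R s)ᵀ) (K := (Matrix.of (Km k))ᵀ)
    (by rw [h0, Matrix.transpose_one]) (fun i j => hs j i) (fun i j => hd j i) (contDiff_nw hχ) hφ
  rw [← e] at h2
  have h3 := (uniqueDiffOn_Icc one_pos 0 (left_mem_Icc.2 zero_le_one)).eq_deriv _ h1 h2
  have e1 : ∀ x, act (Matrix.of (Km k)) x = cr k x := fun x => by
    ext i
    rw [act_apply, cr_apply]
    rfl
  have e2 : ∀ x, act (Matrix.of (Km k))ᵀ x = -cr k x := fun x => by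
    ext i
    rw [act_apply, PiLp.neg_apply, cr_apply, ← Finset.sum_neg_distrib]
    refine Finset.sum_congr rfl fun j _ => ?_
    rw [← neg_mul, ← Km_anti]
    rfl
  have h4 : ∫ x, ang k (nw φ) x * χ x = -∫ x, ang k (nw χ) x * φ x := by
    simp only [e1, e2, map_neg] at h3
    simp only [ang]
    rw [← h3, ← integral_neg]
    simp only [neg_mul]
  simp only [sub_mul]
  rw [integral_sub (hχ.integrable_mul (contDiff_ang hn k).continuous)
    (hχ.integrable_mul (contDiff_nw ha).continuous), h4, ang_skew (contDiff_nw hχ) hφ, neg_neg,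
    nw_symm ha hχ]
  simp only [mul_comm, sub_self]

end

end Pool.Agent.Work.MP_6bf1e5_an.Ang
end

-- merged part: Pool.Agent.Work.MP_6bf1e5_an.Ang.EqA
section
/-!
Equivariant families. `mm (act R w) = rho R (mm w)` for orthogonal `R` (`∑ b, R a.1 b.1 R a.2 b.2 Sb b = Rᵀ (Sb a) R`).
`Eqv.pr_eq`: at `0` use `R = -1`. At `r e3`, `r > 0`, use `R = -1`, the reflections `diagonal ![-1,1,1]`, `diagonal ![1,-1,1]`, the
exchange of the first two coordinates, `swap` and `DivFree` (third component zero) to see `f (r e3) = 2 f (r e3) (0,2) 0 • mm e3`;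
then move `e3` to `ξ / |ξ|` by `exists_orth_e3`.
-/

open scoped ContDiff ENNReal FourierTransform Topology Matrix RealInnerProductSpace
open Set MeasureTheory Filter Metric Pool.Agent.Work.MP_6bf1e5_an.Ens
  Pool.Agent.Work.MP_6bf1e5_an.Mat

namespace Pool.Agent.Work.MP_6bf1e5_an.Ang

noncomputable section

variable {f g : R3 → V I2}

theorem rho_add (R : M3) (v w : V I2) : rho R (v + w) = rho R v + rho R w := by
  funext a i
  simp only [rho, Pi.add_apply, mul_add, Finset.sum_add_distrib]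

theorem rho_smul (R : M3) (z : ℂ) (v : V I2) : rho R (z • v) = z • rho R v := by
  funext a i
  simp only [rho, Pi.smul_apply, smul_eq_mul, Finset.mul_sum, mul_left_comm z]

theorem eqa_rho_rsmul (R : M3) (r : ℝ) (v : V I2) : rho R (r • v) = r • rho R v := by
  rw [← Complex.coe_smul, ← Complex.coe_smul, rho_smul]

theorem exists_rhoL (R : M3) : ∃ L : V I2 →L[ℝ] V I2, ∀ v, L v = rho R v :=
  ⟨LinearMap.toContinuousLinearMap
    { toFun := rho R, map_add' := rho_add R, map_smul' := eqa_rho_rsmul R }, fun _ => rfl⟩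

theorem eqa_mm (w : R3) (a : I2) (i : Fin 3) : mm w a i =
    ((((if i = a.1 then 1 else 0) * w a.2 + (if i = a.2 then 1 else 0) * w a.1) / 2
      - w a.1 * w a.2 * w i : ℝ) : ℂ) := by
  rw [mm]
  congr 2
  simp only [Sb, ite_and, div_mul_eq_mul_div, add_mul, ite_mul, one_mul, zero_mul,
    ← Finset.sum_div, Finset.sum_add_distrib]
  congr 2 <;> split_ifs <;> simp

theorem mm_act {R : M3} (hR : R * Rᵀ = 1) (w : R3) : mm (act R w) = rho R (mm w) := by
  have h : ∀ p i, (if i = p then (1 : ℝ) else 0) = ∑ j, R i j * R p j := fun p i => by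
    have := congrFun (congrFun hR i) p
    rw [Matrix.mul_apply, Matrix.one_apply] at this
    exact this.symm
  funext a i
  rw [eqa_mm, h, h, rho]
  simp only [eqa_mm, ← Complex.ofReal_mul, ← Complex.ofReal_sum, act_apply]
  congr 1
  simp only [Fintype.sum_prod_type, Fin.sum_univ_three]
  simp
  ring

theorem mm_neg (w : R3) : mm (-w) = -mm w := by
  funext a i
  rw [Pi.neg_apply, Pi.neg_apply, eqa_mm, eqa_mm, ← Complex.ofReal_neg]
  congr 1
  simp only [PiLp.neg_apply]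
  ring

theorem norm_mm_le {w : R3} (hw : ‖w‖ ≤ 1) : ‖mm w‖ ≤ 2 := by
  have h : ∀ j, |w j| ≤ 1 := fun j => (PiLp.norm_apply_le w j).trans hw
  have h' : ∀ (P : Prop) [Decidable P] j, |(if P then 1 else 0) * w j| ≤ 1 := fun P _ j => by
    split_ifs
    · simpa using h j
    · simp
  refine (pi_norm_le_iff_of_nonneg zero_le_two).2 fun a =>
    (pi_norm_le_iff_of_nonneg zero_le_two).2 fun i => ?_
  rw [eqa_mm, Complex.norm_real, Real.norm_eq_abs]
  have h1 := abs_le.1 (h' (i = a.1) a.2)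
  have h2 := abs_le.1 (h' (i = a.2) a.1)
  have h3 : |w a.1 * w a.2 * w i| ≤ 1 := by
    rw [abs_mul, abs_mul]
    exact mul_le_one₀ (mul_le_one₀ (h _) (abs_nonneg _) (h _)) (abs_nonneg _) (h _)
  have h4 := abs_le.1 h3
  exact abs_le.2 ⟨by linarith [h1.1, h2.1, h4.2], by linarith [h1.2, h2.2, h4.1]⟩

theorem eqa_mm_swap (w : R3) (a : I2) : mm w a.swap = mm w a := by
  funext i
  rw [mm, mm, jord_swap, Prod.fst_swap, Prod.snd_swap, mul_comm (w a.2)]

theorem eqa_norm {ξ : R3} (h : ξ ≠ 0) : ‖‖ξ‖⁻¹ • ξ‖ = 1 := by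
  rw [norm_smul, norm_inv, norm_norm, inv_mul_cancel₀ (norm_ne_zero_iff.2 h)]

theorem eqa_unit (ξ : R3) : ∃ w : R3, ‖ξ‖⁻¹ • ξ = w ∧ (∀ j, ξ j = ‖ξ‖ * w j) ∧
    ∀ j, (w 0 ^ 2 + w 1 ^ 2 + w 2 ^ 2) * w j = w j := by
  by_cases h : ξ = 0
  · exact ⟨0, by simp [h], by simp [h], by simp⟩
  · refine ⟨_, rfl, fun j => ?_, fun j => ?_⟩
    · rw [PiLp.smul_apply, smul_eq_mul, mul_inv_cancel_left₀ (norm_ne_zero_iff.2 h)]
    · have := EuclideanSpace.real_norm_sq_eq (‖ξ‖⁻¹ • ξ)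
      rw [eqa_norm h, Fin.sum_univ_three] at this
      rw [← this, one_pow, one_mul]

theorem pr_eqv (f : R3 → V I2) : Eqv (pr f) := by
  refine ⟨fun R hR ξ => ?_, fun ξ a => ?_⟩
  · rw [pr, pr, norm_act hR, ← act_smul, mm_act hR, rho_smul]
  · rw [pr, Pi.smul_apply, Pi.smul_apply, eqa_mm_swap]

theorem pr_div (f : R3 → V I2) : DivFree (pr f) := by
  intro ξ a
  obtain ⟨w, h1, h2, h3⟩ := eqa_unit ξ
  have key : ∑ j, (ξ j : ℂ) * mm w a j = 0 := by
    simp only [eqa_mm, ← Complex.ofReal_mul, ← Complex.ofReal_sum, Complex.ofReal_eq_zero, h2,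
      mul_sub, Finset.sum_sub_distrib, mul_div_assoc', ← Finset.sum_div, mul_add,
      Finset.sum_add_distrib, ite_mul, mul_ite, one_mul, zero_mul, mul_zero,
      Finset.sum_ite_eq', Finset.mem_univ, if_true]
    rw [Fin.sum_univ_three]
    linear_combination (-(‖ξ‖ * w a.2)) * h3 a.1
  simp only [pr, h1, Pi.smul_apply, smul_eq_mul, mul_left_comm (ξ _ : ℂ), ← Finset.mul_sum, key,
    mul_zero]

theorem pr_trace (f : R3 → V I2) (ξ : R3) (i : Fin 3) : ∑ p, pr f ξ (p, p) i = 0 := by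
  obtain ⟨w, h1, -, h3⟩ := eqa_unit ξ
  have key : ∑ p, mm w (p, p) i = 0 := by
    simp only [eqa_mm, ← Complex.ofReal_sum, Complex.ofReal_eq_zero, Finset.sum_sub_distrib,
      add_self_div_two, ite_mul, one_mul, zero_mul, Finset.sum_ite_eq, Finset.mem_univ, if_true]
    rw [Fin.sum_univ_three]
    linear_combination (-1 : ℝ) * h3 i
  simp only [pr, h1, Pi.smul_apply, smul_eq_mul, ← Finset.mul_sum, key, mul_zero]

/-- signed permutation matrices -/
def eqa_P (σ : Equiv.Perm (Fin 3)) (s : Fin 3 → ℝ) : M3 :=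
  Matrix.of fun i j => if j = σ i then s i else 0

theorem eqa_signed (h : Eqv f) (σ : Equiv.Perm (Fin 3)) (s : Fin 3 → ℝ) (hs : ∀ i, s i * s i = 1)
    {x y : R3} (hxy : ∀ i, y i = s i * x (σ i)) (a : I2) (i : Fin 3) :
    f y a i = ((s a.1 * s a.2 * s i : ℝ) : ℂ) * f x (σ a.1, σ a.2) (σ i) := by
  have h1 : eqa_P σ s * (eqa_P σ s)ᵀ = 1 := by
    ext p q
    simp only [eqa_P, Matrix.mul_apply, Matrix.transpose_apply, Matrix.of_apply, ite_mul, zero_mul,
      Finset.sum_ite_eq', Finset.mem_univ, if_true, Matrix.one_apply, σ.apply_eq_iff_eq]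
    split_ifs with e
    · rw [← e, hs]
    · rw [mul_zero]
  have h2 : act (eqa_P σ s) x = y := by
    ext p
    simp [act_apply, eqa_P, hxy]
  rw [← h2, h.eqv _ h1, rho, Fintype.sum_prod_type, Finset.sum_eq_single (σ a.1),
    Finset.sum_eq_single (σ a.2), Finset.sum_eq_single (σ i)] <;>
    simp +contextual [eqa_P]

theorem eqa_neg (h : Eqv f) (ξ : R3) : f (-ξ) = -f ξ := by
  funext a i
  rw [eqa_signed h 1 (fun _ => -1) (by simp) (x := ξ) (by simp)]
  simp

theorem eqa_axis (h : Eqv f) (hd : DivFree f) {r : ℝ} (hr : r ≠ 0) :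
    f (r • e3) = (2 * f (r • e3) (0, 2) 0) • mm e3 := by
  have e0 : (r • e3) 0 = 0 := by simp [e3]
  have e1 : (r • e3) 1 = 0 := by simp [e3]
  have e2 : (r • e3) 2 = r := by simp [e3]
  have h0 := eqa_signed h 1 ![-1, 1, 1] (fun i => by fin_cases i <;> simp)
    (x := r • e3) (y := r • e3) fun i => by fin_cases i <;> simp [e3]
  have h1 := eqa_signed h 1 ![1, -1, 1] (fun i => by fin_cases i <;> simp)
    (x := r • e3) (y := r • e3) fun i => by fin_cases i <;> simp [e3]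
  have h2 := eqa_signed h (Equiv.swap 0 1) (fun _ => 1) (fun i => by simp)
    (x := r • e3) (y := r • e3) (fun i => by
      fin_cases i <;> simp [e3, Equiv.swap_apply_of_ne_of_ne]) (1, 2) 1
  have h3 : ∀ a, f (r • e3) a 2 = 0 := fun a => by
    have := hd (r • e3) a
    rw [Fin.sum_univ_three, e0, e1, e2] at this
    simpa [hr] using this
  have h4 := congrFun (h.swap (r • e3) (0, 2)) 0
  have h5 := congrFun (h.swap (r • e3) (1, 2)) 1
  generalize f (r • e3) = v at *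
  have z : ∀ c : ℂ, c = -c → c = 0 := fun c hc => by linear_combination hc / 2
  simp only [Prod.swap_prod_mk] at h4 h5
  simp [Equiv.swap_apply_of_ne_of_ne] at h2
  funext ⟨p, q⟩ i
  have k0 := h0 (p, q) i
  have k1 := h1 (p, q) i
  rw [Pi.smul_apply, Pi.smul_apply, eqa_mm]
  fin_cases p <;> fin_cases q <;> fin_cases i <;> simp [e3, h3] at k0 k1 ⊢ <;>
    first
    | exact z _ k0
    | exact z _ k1
    | (rw [h4]; ring)
    | (rw [h5, h2]; ring)
    | (rw [h2]; ring)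
    | ring

theorem Eqv.pr_eq (h : Eqv f) (hd : DivFree f) : pr f = f := by
  funext ξ
  by_cases h0 : ξ = 0
  · have h1 := eqa_neg h 0
    have h2 := mm_neg 0
    rw [neg_zero] at h1 h2
    rw [h0, pr, smul_zero, self_eq_neg.1 h1, self_eq_neg.1 h2, smul_zero]
  · obtain ⟨R, hR, e⟩ := exists_orth_e3 (eqa_norm h0)
    have h1 : ξ = act R (‖ξ‖ • e3) := by
      rw [act_smul, e, smul_inv_smul₀ (norm_ne_zero_iff.2 h0)]
    rw [pr, eqa_neg h, Pi.neg_apply, Pi.neg_apply, sub_neg_eq_add, ← two_mul, ← e, mm_act hR,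
      ← rho_smul, ← eqa_axis h hd (norm_ne_zero_iff.2 h0), ← h.eqv R hR, ← h1]

theorem Eqv.add (hf : Eqv f) (hg : Eqv g) : Eqv fun ξ => f ξ + g ξ :=
  ⟨fun R hR ξ => by rw [hf.eqv R hR, hg.eqv R hR, rho_add], fun ξ a => by
    rw [Pi.add_apply, Pi.add_apply, hf.swap, hg.swap]⟩

theorem Eqv.scale (h : Eqv f) (m : ℝ → ℝ) (l : ℝ) : Eqv fun ξ => m ‖ξ‖ • f (l • ξ) :=
  ⟨fun R hR ξ => by rw [norm_act hR, ← act_smul, h.eqv R hR, eqa_rho_rsmul], fun ξ a => by
    rw [Pi.smul_apply, Pi.smul_apply, h.swap]⟩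

end

end Pool.Agent.Work.MP_6bf1e5_an.Ang
end

-- merged part: Pool.Agent.Work.MP_6bf1e5_an.Ang.ProfE
section
/-!
The profile is equivariant. Take `g` from `exists_ode`, `W = hatW (WJ g)` (`OdeSol.phys3`, `PhysProfile.profile`). `WJ g` is `PEq`
(`∑ b, R a.1 b.1 R a.2 b.2 Am b = Rᵀ (Am a) R`). For `ξ ≠ 0` compare the two sides of `Eqv.eqv` with `PhysFRep.inj` or `ev_inj`
(`ev_act`, `PhysFRep.of_sy`); at `0` both vanish (`physf_hat_zero`). `phys W = WJ g`, and the first component of `one (WJ g)` at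
`s e_0` is `-(7/12) s (alZ g (s²) + beZ g (s²) s²)`; if it vanishes for all `s > 0`, then `3 g 0 = alZ g 0 = 0` by continuity.
-/

open scoped ContDiff ENNReal FourierTransform Topology Matrix RealInnerProductSpace
open Set MeasureTheory Filter Metric Pool.Agent.Work.MP_6bf1e5_an.Ens
  Pool.Agent.Work.MP_6bf1e5_an.Mat

namespace Pool.Agent.Work.MP_6bf1e5_an.Ang

noncomputable section

theorem profe_apply (g : ℝ → ℝ) (p q : Fin 3) (y : R3) (i : Fin 3) : WJ g (p, q) y i =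
    alZ g (‖y‖ ^ 2) * (((if i = p then 1 else 0) * y q + (if i = q then 1 else 0) * y p) / 2
      - (if p = q then 1 else 0) * y i / 3)
    + beZ g (‖y‖ ^ 2) * (y p * y q - (if p = q then 1 else 0) * ‖y‖ ^ 2 / 3) * y i := by
  rw [WJ, radf_apply, tens_mv, tens_qf]
  simp only [ite_mul, one_mul, zero_mul, ite_div, zero_div]

theorem peq_WJ (g : ℝ → ℝ) : PEq (WJ g) := by
  refine ⟨fun R hR ⟨p, q⟩ x => ?_, fun ⟨p, q⟩ => ?_, fun x => ?_⟩
  · have hO : ∀ a b : Fin 3, (if a = b then (1 : ℝ) else 0) =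
        R a 0 * R b 0 + R a 1 * R b 1 + R a 2 * R b 2 := fun a b => by
      have := congrFun (congrFun hR a) b
      rw [Matrix.mul_apply, Fin.sum_univ_three, Matrix.one_apply] at this
      exact this.symm
    ext i
    rw [profe_apply g p q (act R x) i, hO i p, hO i q, hO p q, norm_act hR]
    simp only [Fintype.sum_prod_type, Fin.sum_univ_three, PiLp.add_apply, PiLp.smul_apply,
      act_apply, smul_eq_mul, profe_apply, Fin.isValue, Fin.reduceEq, if_true, if_false]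
    ring
  · funext y
    ext i
    rw [Prod.swap_prod_mk, profe_apply, profe_apply, if_congr (eq_comm (a := q)) rfl rfl]
    ring
  · ext i
    simp only [Fin.sum_univ_three, PiLp.add_apply, profe_apply, if_true, PiLp.zero_apply]
    have h := tens_norm x
    generalize alZ g (‖x‖ ^ 2) = a
    generalize beZ g (‖x‖ ^ 2) = b
    rw [h]
    fin_cases i <;> simp <;> ring

theorem profe_act {f : R3 → ℂ} {u : R3 → ℝ} (h : PhysFRep f u) {R : M3} (hR : R * Rᵀ = 1) :
    PhysFRep (fun ξ => f (act R ξ)) fun x => u (act R x) := by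
  have h0 : ∀ ξ : R3, ξ ≠ 0 → act R ξ ≠ 0 := fun ξ hξ => by
    rw [← norm_ne_zero_iff, norm_act hR]
    exact norm_ne_zero_iff.2 hξ
  obtain ⟨L, hL, -⟩ := exists_actL hR
  have hc : Continuous (act R) := (funext hL : ⇑L = act R) ▸ L.continuous
  refine ⟨⟨h.rap.cont.comp hc.continuousOn h0, fun N => ?_⟩, fun x => by rw [ev_act hR, h.eq]⟩
  obtain ⟨C, hC⟩ := h.rap.bound N
  refine ⟨C, fun ξ hξ => ?_⟩
  have h1 := hC _ (h0 ξ hξ)
  rwa [wt, norm_act hR] at h1

theorem exists_profileE {ν : ℝ} (hν : 0 < ν) :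
    ∃ W : R3 → V I2, Profile ν (cJ 3) W ∧ Eqv W ∧ one (phys W) ≠ 0 := by
  obtain ⟨g, hg⟩ := exists_ode hν
  have hf : ∀ a i, PhysFRep (fun ξ => hatW (WJ g) ξ a i) fun y => WJ g a y i := fun a i =>
    PhysFRep.of_sy (hg.sy_WJ a i)
  have hp : phys (hatW (WJ g)) = WJ g := by
    funext a y
    ext i
    simp [phys, (hf a i).eq]
  refine ⟨hatW (WJ g), hg.phys3.profile hν, ⟨fun R hR ξ => ?_, fun ξ a => ?_⟩, fun h0 => hg.ne ?_⟩
  · funext a i
    by_cases hξ : ξ = 0
    · have e : act R ξ = 0 := by rw [← norm_eq_zero, norm_act hR, hξ, norm_zero]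
      simp only [hξ, rho, hatW, physf_hat_zero, mul_zero, Finset.sum_const_zero]
      rw [← hξ, e, physf_hat_zero]
    · have h1 := ((profe_act (hf a i) hR).add ((PhysFRep.sum fun b : I2 => PhysFRep.sum fun j =>
        (hf b j).smul (R a.1 b.1 * R a.2 b.2 * R i j)).smul (-1))).inj (fun x => by
          rw [(peq_WJ g).eqv R hR a x, neg_one_mul, add_neg_eq_zero]
          simp only [WithLp.ofLp_sum, Finset.sum_apply, PiLp.smul_apply, act_apply, smul_eq_mul,
            Finset.mul_sum, mul_assoc]) hξ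
      rw [rho]
      push_cast at h1 ⊢
      linear_combination h1
  · funext i
    simp only [hatW, (peq_WJ g).swap]
  · rw [hp] at h0
    have h1 : ∀ s : ℝ, g (s ^ 2) = 0 := by
      refine (dense_compl_singleton (0 : ℝ)).induction (fun s hs => ?_)
        (isClosed_eq (hg.smooth.continuous.comp (continuous_pow 2)) continuous_const)
      have h2 := congrArg (fun v : R3 => v 0) (congrFun h0 (EuclideanSpace.single 0 s))
      simp [one, profe_apply, alZ, beZ] at h2
      refine mul_left_cancel₀ (a := s) hs ?_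
      linear_combination h2 / 3
    simpa using h1 0

end

end Pool.Agent.Work.MP_6bf1e5_an.Ang
end
end

-- merged part: Pool.Agent.Work.MP_6bf1e5_an.Ang.GUniq
section
-- merged part: Pool.Agent.Work.MP_6bf1e5_an.Ang.Orth
section
/-!
Completeness of the eigenspaces. Take `θ = 1` on the support of `Θ` (`exists_rad_one`), `K = tsupport θ`, `P` close to `Θ` on `K`,
`P = A + B`, where `A` is the sum of the eigenfields with eigenvalue in `Λ`. Then `|Θ - θ P| ≤ ε` on `K` and `0` outside,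
`θ B` is orthogonal to `Θ` (hypothesis `h2`) and to `θ A` (`Comp.of_eigen`, `cas_rad`), so `∫ |Θ - θ A|² ≤ ∫ |Θ - θ P|² ≤ ε² vol K`;
and `∫ ⟪f, θ A⟫ = 0` (hypothesis `h1`). Hence `|∫ ⟪f, Θ⟫| ≤ δ ∫_K |f|² + ε² vol K / δ` for all `ε, δ > 0`.
-/

open scoped ContDiff ENNReal FourierTransform Topology Matrix RealInnerProductSpace
open Set MeasureTheory Filter Metric Pool.Agent.Work.MP_6bf1e5_an.Ens
  Pool.Agent.Work.MP_6bf1e5_an.Mat

namespace Pool.Agent.Work.MP_6bf1e5_an.Ang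

noncomputable section

theorem orth_alg {I C V : ℝ} (hC : 0 ≤ C) (hV : 0 ≤ V)
    (h : ∀ t ε : ℝ, 0 < ε → 2 * t * I ≤ t ^ 2 * C + ε ^ 2 * V) : I = 0 := by
  have h' : ∀ t : ℝ, 2 * t * I ≤ t ^ 2 * C := fun t => le_of_forall_pos_le_add fun η hη => by
    have h0 : 0 < η / (V + 1) := by positivity
    refine (h t _ (Real.sqrt_pos.2 h0)).trans (add_le_add le_rfl ?_)
    rw [Real.sq_sqrt h0.le, div_mul_eq_mul_div, div_le_iff₀ (by positivity)]
    nlinarith
  obtain ⟨t, rfl⟩ : ∃ t, I = t * (C + 1) := ⟨I / (C + 1), by field_simp⟩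
  have h1 := h' t
  have h2 : t ^ 2 ≤ 0 := by nlinarith [mul_nonneg (sq_nonneg t) hC]
  rw [pow_eq_zero_iff (two_ne_zero)|>.1 (le_antisymm h2 (sq_nonneg t)), zero_mul]

theorem orth_sum {α : Type} (s : Finset α) {Q : α → R3 → R3} {θ : R3 → ℝ} {g : R3 → R3}
    (hθ : Test θ) (hQ : ∀ m, ContDiff ℝ ∞ (Q m)) (hg : Continuous g)
    (h : ∀ m ∈ s, ∫ x, ⟪g x, θ x • Q m x⟫ = 0) : ∫ x, ⟪g x, θ x • ∑ m ∈ s, Q m x⟫ = 0 := by
  simp only [Finset.smul_sum, inner_sum]
  rw [integral_finsetSum _ fun m _ => (testV_smul hθ (hQ m)).integrable_inner hg]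
  exact Finset.sum_eq_zero h

theorem orth_point (t : ℝ) (g D B : R3) :
    2 * t * ⟪g, D⟫ ≤ t ^ 2 * ⟪g, g⟫ + ‖D - B‖ ^ 2 + 2 * ⟪D, B⟫ := by
  have h1 := sq_nonneg ‖t • g - D‖
  rw [norm_sub_sq_real, real_inner_smul_left, norm_smul, mul_pow, Real.norm_eq_abs, sq_abs] at h1
  rw [norm_sub_sq_real, real_inner_self_eq_norm_sq]
  nlinarith [sq_nonneg ‖B‖]

theorem orth {Λ : Set ℝ} {f Θ : R3 → R3} (hf : Continuous f) (h1 : Comp Λᶜ f) (hΘ : TestV Θ)
    (h2 : Comp Λ Θ) : ∫ x, ⟪f x, Θ x⟫ = 0 := by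
  classical
  obtain ⟨θ, hθ, rθ, bθ, eθ⟩ := exists_rad_one hΘ.2.isCompact
  obtain ⟨χ, hχ, -, -, eχ⟩ := exists_rad_one hθ.2.isCompact
  have cΘ := hΘ.1.continuous
  have e1 : ∀ x, θ x • Θ x = Θ x := fun x => by
    by_cases h : Θ x = 0
    · rw [h, smul_zero]
    · rw [eθ x (subset_tsupport _ h), one_smul]
  have cg : Continuous fun x => χ x • f x := hχ.1.continuous.smul hf
  have ig : Integrable fun x => ⟪χ x • f x, χ x • f x⟫ :=
    (cg.inner cg).integrable_of_hasCompactSupport (hχ.2.mono fun x hx e => hx (by simp [e]))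
  have iθ : Integrable θ := hθ.1.continuous.integrable_of_hasCompactSupport hθ.2
  refine orth_alg (C := ∫ x, ⟪χ x • f x, χ x • f x⟫) (V := ∫ x, θ x)
    (integral_nonneg fun x => real_inner_self_nonneg) (integral_nonneg fun x => (bθ x).1)
    fun t ε hε => ?_
  obtain ⟨P, hP, hε'⟩ := poly_approx cΘ hθ.2.isCompact hε
  obtain ⟨n, l, Q, hQ, eP⟩ := poly_eigen hP
  have sQ : ∀ m, ContDiff ℝ ∞ (Q m) := fun m => (hQ m).1
  have tQ : ∀ m, TestV fun x => θ x • Q m x := fun m => testV_smul hθ (sQ m)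
  have eQ : ∀ m x, cas (fun x => θ x • Q m x) x = l m • θ x • Q m x := fun m x => by
    rw [cas_rad rθ (sQ m)]
    simp only [(hQ m).2]
    exact smul_comm _ _ _
  have tS : ∀ s : Finset (Fin n), TestV fun x => θ x • ∑ m ∈ s, Q m x := fun s =>
    testV_smul hθ (ContDiff.sum fun m _ => sQ m)
  set a := Finset.univ.filter fun m => l m ∈ Λ with ha
  set b := Finset.univ.filter fun m => l m ∉ Λ with hb
  have oA : ∀ g : R3 → R3, Continuous g → Comp Λᶜ g → ∫ x, ⟪g x, θ x • ∑ m ∈ a, Q m x⟫ = 0 :=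
    fun g cg h => orth_sum a hθ sQ cg fun m hm =>
      h (l m) (fun e => e (Finset.mem_filter.1 hm).2) _ (tQ m).1 (tQ m).2 (eQ m)
  have o1 : ∫ x, ⟪Θ x, θ x • ∑ m ∈ b, Q m x⟫ = 0 := orth_sum b hθ sQ cΘ fun m hm =>
    h2 (l m) (Finset.mem_filter.1 hm).2 _ (tQ m).1 (tQ m).2 (eQ m)
  have o2 : ∫ x, ⟪θ x • ∑ m ∈ a, Q m x, θ x • ∑ m ∈ b, Q m x⟫ = 0 :=
    orth_sum b hθ sQ (tS a).1.continuous fun m hm => by
      rw [← oA _ (tQ m).1.continuous (Comp.of_eigen (tQ m).1 (eQ m) (Finset.mem_filter.1 hm).2)]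
      exact integral_congr_ae (Eventually.of_forall fun x => real_inner_comm _ _)
  have i1 := hΘ.integrable_inner hf
  have i2 := (tS a).integrable_inner hf
  have i3 := (tS b).integrable_inner cΘ
  have i4 := (tS b).integrable_inner (tS a).1.continuous
  have key : ∀ x, 2 * t * (⟪f x, Θ x⟫ - ⟪f x, θ x • ∑ m ∈ a, Q m x⟫) ≤
      t ^ 2 * ⟪χ x • f x, χ x • f x⟫ + ε ^ 2 * θ x + 2 * (⟪Θ x, θ x • ∑ m ∈ b, Q m x⟫ -
        ⟪θ x • ∑ m ∈ a, Q m x, θ x • ∑ m ∈ b, Q m x⟫) := fun x => by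
    by_cases h : θ x = 0
    · rw [← e1 x, h]
      simp only [zero_smul, inner_zero_right, sub_self, mul_zero, add_zero]
      exact mul_nonneg (sq_nonneg t) real_inner_self_nonneg
    have hx := subset_tsupport _ h
    rw [eχ x hx, one_smul, ← inner_sub_right, ← inner_sub_left]
    refine (orth_point t _ _ (θ x • ∑ m ∈ b, Q m x)).trans
      (add_le_add (add_le_add le_rfl ?_) le_rfl)
    rw [sub_sub, ← smul_add, Finset.sum_filter_add_sum_filter_not, ← eP, ← e1 x, ← smul_sub,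
      norm_smul, Real.norm_of_nonneg (bθ x).1, mul_pow]
    have h3 : ‖Θ x - P x‖ ^ 2 ≤ ε ^ 2 := pow_le_pow_left₀ (norm_nonneg _) (hε' x hx) 2
    have h4 : θ x ^ 2 ≤ θ x := by nlinarith [(bθ x).1, (bθ x).2]
    rw [mul_comm]
    exact mul_le_mul h3 h4 (sq_nonneg _) (sq_nonneg _)
  have j1 := ig.const_mul (t ^ 2)
  have j2 := iθ.const_mul (ε ^ 2)
  have j3 : Integrable fun x => t ^ 2 * ⟪χ x • f x, χ x • f x⟫ + ε ^ 2 * θ x := j1.add j2
  have j4 : Integrable fun x => 2 * (⟪Θ x, θ x • ∑ m ∈ b, Q m x⟫ -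
      ⟪θ x • ∑ m ∈ a, Q m x, θ x • ∑ m ∈ b, Q m x⟫) := (i3.sub i4).const_mul 2
  have h := integral_mono ((i1.sub i2).const_mul (2 * t)) (j3.add j4) key
  simp only [Pi.add_apply, Pi.sub_apply] at h
  rwa [integral_const_mul, integral_sub i1 i2, oA f hf h1, sub_zero, integral_add j3 j4,
    integral_add j1 j2, integral_const_mul, integral_const_mul, integral_const_mul,
    integral_sub i3 i4, o1, o2, sub_zero, mul_zero, add_zero] at h

end

end Pool.Agent.Work.MP_6bf1e5_an.Ang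
end

-- merged part: Pool.Agent.Work.MP_6bf1e5_an.Ang.JCurl
section
/-!
The curl commutes with `rot`. First `pd j (ang k f) = ang k (pd j f) - ∑ l, Km k l j * pd l f`; then check the nine
cases `k, i` (`fin_cases`, values of `Km` by `simp [Km, cr, crossProduct]`).
-/

open scoped ContDiff ENNReal FourierTransform Topology Matrix RealInnerProductSpace
open Set MeasureTheory Filter Metric Pool.Agent.Work.MP_6bf1e5_an.Ens
  Pool.Agent.Work.MP_6bf1e5_an.Mat

namespace Pool.Agent.Work.MP_6bf1e5_an.Ang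

noncomputable section

variable {u φ : R3 → R3} {Λ : Set ℝ}

theorem jcurl_comp (hu : ContDiff ℝ ∞ u) (i : Fin 3) : ContDiff ℝ ∞ fun y => u y i :=
  contDiff_euclidean.mp hu i

theorem jcurl_apply (u : R3 → R3) (x : R3) (i : Fin 3) : curl u x i =
    pd (i + 1) (fun y => u y (i + 2)) x - pd (i + 2) (fun y => u y (i + 1)) x := rfl

theorem jcurl_pd_neg (f : R3 → ℝ) (j : Fin 3) (x : R3) : pd j (fun y => -f y) x = -pd j f x := by
  have h := pd_const_mul (-1) f j x
  simpa using h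

theorem jcurl_pd_lin (c : Fin 3 → ℝ) (hu : ContDiff ℝ ∞ u) (j : Fin 3) (x : R3) :
    pd j (fun y => ∑ l, c l * u y l) x = ∑ l, c l * pd j (fun y => u y l) x := by
  rw [pd_sum Finset.univ (f := fun l y => c l * u y l)
    (fun l _ => (contDiff_const.mul (jcurl_comp hu l)).differentiable (by simp) x)]
  exact Finset.sum_congr rfl fun l _ => pd_const_mul _ _ _ _

theorem jcurl_cr (k l : Fin 3) : (fun y : R3 => cr k y l) = fun y => ∑ m, Km k l m * y m :=
  funext fun y => cr_apply k y l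

theorem jcurl_contDiff_cr (k l : Fin 3) : ContDiff ℝ ∞ fun y : R3 => cr k y l := by
  rw [jcurl_cr]
  exact ContDiff.sum fun m _ => contDiff_const.mul (jcurl_comp (u := fun y => y) contDiff_id m)

theorem jcurl_pd_cr (k l j : Fin 3) (x : R3) : pd j (fun y : R3 => cr k y l) x = Km k l j := by
  rw [jcurl_cr, jcurl_pd_lin (u := fun y => y) _ contDiff_id]
  simp [pd_coord]

theorem jcurl_pd_ang {f : R3 → ℝ} (hf : ContDiff ℝ ∞ f) (k j : Fin 3) (x : R3) :
    pd j (ang k f) x = ang k (pd j f) x - ∑ l, Km k l j * pd l f x := by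
  have e : ang k f = fun y => -∑ l, cr k y l * pd l f y := funext (ang_eq k f)
  rw [e, jcurl_pd_neg, pd_sum Finset.univ (f := fun l y => cr k y l * pd l f y)
    (fun l _ => ((jcurl_contDiff_cr k l).mul (contDiff_pd hf l)).differentiable (by simp) x),
    ang_eq]
  have h : ∀ l, pd j (fun y => cr k y l * pd l f y) x =
      Km k l j * pd l f x + cr k x l * pd l (pd j f) x := fun l => by
    rw [pd_mul ((jcurl_contDiff_cr k l).differentiable (by simp) x)
      ((contDiff_pd hf l).differentiable (by simp) x), jcurl_pd_cr, pd_comm hf j l]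
  simp only [h, Finset.sum_add_distrib]
  ring

theorem jcurl_ang_sub {f g : R3 → ℝ} (hf : ContDiff ℝ ∞ f) (hg : ContDiff ℝ ∞ g) (k : Fin 3)
    (x : R3) : ang k (fun y => f y - g y) x = ang k f x - ang k g x := by
  unfold ang
  rw [fderiv_fun_sub (hf.differentiable (by simp) x) (hg.differentiable (by simp) x),
    sub_apply]
  ring

theorem jcurl_pd_rot (hu : ContDiff ℝ ∞ u) (k j m : Fin 3) (x : R3) :
    pd j (fun y => rot k u y m) x = ∑ l, Km k m l * pd j (fun y => u y l) x +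
      (ang k (pd j fun y => u y m) x - ∑ l, Km k l j * pd l (fun y => u y m) x) := by
  have e : (fun y => rot k u y m) =
      fun y => (∑ l, Km k m l * u y l) + ang k (fun y => u y m) y := by
    funext y
    rw [rot_apply hu, cr_apply]
  have h1 : ContDiff ℝ ∞ fun y => ∑ l, Km k m l * u y l :=
    ContDiff.sum fun l _ => contDiff_const.mul (jcurl_comp hu l)
  rw [e, pd_add (h1.differentiable (by simp) x)
    ((contDiff_ang (jcurl_comp hu m) k).differentiable (by simp) x), jcurl_pd_lin _ hu,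
    jcurl_pd_ang (jcurl_comp hu m)]

theorem jcurl_alg (D : Fin 3 → Fin 3 → ℝ) (k i : Fin 3) :
    ∑ j, Km k i j * (D (j + 1) (j + 2) - D (j + 2) (j + 1)) =
      (∑ l, Km k (i + 2) l * D (i + 1) l - ∑ l, Km k l (i + 1) * D l (i + 2)) -
      (∑ l, Km k (i + 1) l * D (i + 2) l - ∑ l, Km k l (i + 2) * D l (i + 1)) := by
  fin_cases k <;> fin_cases i <;> simp [Fin.sum_univ_three, Km, cr, crossProduct] <;> ring

theorem contDiff_curl (hu : ContDiff ℝ ∞ u) : ContDiff ℝ ∞ (curl u) :=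
  contDiff_euclidean.mpr fun i =>
    (contDiff_pd (jcurl_comp hu (i + 2)) (i + 1)).sub (contDiff_pd (jcurl_comp hu (i + 1)) (i + 2))

theorem TestV.curl (h : TestV φ) : TestV (curl φ) :=
  testV_of_comp fun i => ((h.comp (i + 2)).pd (i + 1)).sub ((h.comp (i + 1)).pd (i + 2))

theorem curl_smul (r : ℝ) (u : R3 → R3) : curl (fun y => r • u y) = fun x => r • curl u x := by
  funext x
  ext i
  simp only [jcurl_apply, PiLp.smul_apply, smul_eq_mul, pd_const_mul]
  ring

theorem rot_curl (hu : ContDiff ℝ ∞ u) (k : Fin 3) : rot k (curl u) = curl (rot k u) := by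
  funext x
  ext i
  have e : (fun y => curl u y i) = fun y =>
      pd (i + 1) (fun y => u y (i + 2)) y - pd (i + 2) (fun y => u y (i + 1)) y := rfl
  have h := jcurl_alg (fun a b => pd a (fun y => u y b) x) k i
  rw [rot_apply (contDiff_curl hu), e, jcurl_ang_sub (contDiff_pd (jcurl_comp hu _) _)
    (contDiff_pd (jcurl_comp hu _) _), cr_apply, jcurl_apply, jcurl_pd_rot hu, jcurl_pd_rot hu]
  simp only [jcurl_apply]
  linarith

theorem jcurl_neg_sum {w : Fin 3 → R3 → R3} (hw : ∀ k, ContDiff ℝ ∞ (w k)) :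
    curl (fun y => -∑ k, w k y) = fun x => -∑ k, curl (w k) x := by
  funext x
  ext i
  have h : ∀ a b : Fin 3, pd a (fun y => (-∑ k, w k y : R3) b) x =
      -∑ k, pd a (fun y => w k y b) x := fun a b => by
    have e : (fun y => (-∑ k, w k y : R3) b) = fun y => -∑ k, w k y b := by
      funext y
      simp
    rw [e, jcurl_pd_neg, pd_sum Finset.univ (f := fun k y => w k y b)
      (fun k _ => (jcurl_comp (hw k) b).differentiable (by simp) x)]
  rw [jcurl_apply, h, h]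
  simp only [Fin.sum_univ_three, PiLp.neg_apply, PiLp.add_apply, jcurl_apply]
  ring

theorem cas_curl (hu : ContDiff ℝ ∞ u) : cas (curl u) = curl (cas u) := by
  have e : cas u = fun y => -∑ k, rot k (rot k u) y := rfl
  rw [e, jcurl_neg_sum fun k => contDiff_rot (contDiff_rot hu k) k]
  funext x
  unfold cas
  congr 1
  refine Finset.sum_congr rfl fun k _ => ?_
  rw [rot_curl hu, rot_curl (contDiff_rot hu k)]

theorem jcurl_int {F G : Fin 3 → R3 → ℝ} (hF : ∀ i, Integrable (F i)) (hG : ∀ i, Integrable (G i)) :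
    ∫ x, ∑ i, (F i x - G i x) = ∑ i, ((∫ x, F i x) - ∫ x, G i x) := by
  rw [integral_finsetSum (f := fun i x => F i x - G i x) _ fun i _ => (hF i).sub (hG i)]
  exact Finset.sum_congr rfl fun i _ => integral_sub (hF i) (hG i)

theorem curl_symm (hu : ContDiff ℝ ∞ u) (hφ : TestV φ) :
    ∫ x, ⟪curl u x, φ x⟫ = ∫ x, ⟪u x, curl φ x⟫ := by
  have i1 : ∀ a b c : Fin 3, Integrable fun x => pd a (fun y => u y b) x * φ x c := fun a b c =>
    (hφ.comp c).integrable_mul (contDiff_pd (jcurl_comp hu b) a).continuous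
  have i2 : ∀ a b c : Fin 3, Integrable fun x => u x b * pd a (fun y => φ y c) x := fun a b c =>
    ((hφ.comp c).pd a).integrable_mul (jcurl_comp hu b).continuous
  have h : ∀ a b c : Fin 3, ∫ x, pd a (fun y => u y b) x * φ x c =
      -∫ x, u x b * pd a (fun y => φ y c) x := fun a b c =>
    integral_pd_mul (jcurl_comp hu b) (hφ.comp c) a
  have l : ∫ x, ⟪curl u x, φ x⟫ = ∑ i : Fin 3,
      ((∫ x, pd (i + 1) (fun y => u y (i + 2)) x * φ x i) -
        ∫ x, pd (i + 2) (fun y => u y (i + 1)) x * φ x i) := by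
    simp only [inner_eq_sum, jcurl_apply, sub_mul]
    exact jcurl_int (fun i => i1 _ _ _) fun i => i1 _ _ _
  have r : ∫ x, ⟪u x, curl φ x⟫ = ∑ i : Fin 3,
      ((∫ x, u x i * pd (i + 1) (fun y => φ y (i + 2)) x) -
        ∫ x, u x i * pd (i + 2) (fun y => φ y (i + 1)) x) := by
    simp only [inner_eq_sum, jcurl_apply, mul_sub]
    exact jcurl_int (fun i => i2 _ _ _) fun i => i2 _ _ _
  rw [l, r]
  simp only [h, Fin.sum_univ_three]
  simp only [show (0 : Fin 3) + 1 = 1 from rfl, show (0 : Fin 3) + 2 = 2 from rfl,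
    show (1 : Fin 3) + 1 = 2 from rfl, show (1 : Fin 3) + 2 = 0 from rfl,
    show (2 : Fin 3) + 1 = 0 from rfl, show (2 : Fin 3) + 2 = 1 from rfl]
  ring

theorem Comp.curl (h : Comp Λ u) (hu : ContDiff ℝ ∞ u) : Comp Λ (curl u) := by
  intro l hl φ h1 h2 h3
  have hφ : TestV φ := ⟨h1, h2⟩
  rw [curl_symm hu hφ]
  refine h l hl _ hφ.curl.1 hφ.curl.2 fun x => ?_
  have e : cas φ = fun y => l • φ y := funext h3
  rw [cas_curl h1, e, curl_smul]

end

end Pool.Agent.Work.MP_6bf1e5_an.Ang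
end

-- merged part: Pool.Agent.Work.MP_6bf1e5_an.Ang.JNwV
section
/-!
The Newton potential of vector fields. Linearity of `nw` on test functions follows from `nw_symm` and
`eq_zero_of_test` (or directly). `Comp.nwV`: `∫ ⟪nwV Φ, φ⟫ = ∫ ⟪Φ, nwV φ⟫ = ∫ ⟪Φ, θ nwV φ⟫` with `θ` from `exists_rad_one`
for the support of `Φ`, and `θ nwV φ` is a test field in the same eigenspace (`cas_rad`, `cas_nwV`).
-/

open scoped ContDiff ENNReal FourierTransform Topology Matrix RealInnerProductSpace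
open Set MeasureTheory Filter Metric Pool.Agent.Work.MP_6bf1e5_an.Ens
  Pool.Agent.Work.MP_6bf1e5_an.Mat

namespace Pool.Agent.Work.MP_6bf1e5_an.Ang

noncomputable section

variable {φ Φ : R3 → R3} {Λ : Set ℝ}

theorem jnwv_int {f χ : R3 → ℝ} (hχ : Test χ) (hf : Continuous f) :
    Integrable fun x => f x * χ x := hχ.integrable_mul hf

theorem jnwv_int' {f χ : R3 → ℝ} (hχ : Test χ) (hf : Continuous f) :
    Integrable fun x => χ x * f x := by
  simpa only [mul_comm] using hχ.integrable_mul hf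

theorem jnwv_test_mul (r : ℝ) {f : R3 → ℝ} (hf : Test f) : Test fun y => r * f y := by
  simpa only [mul_comm] using hf.mul (contDiff_const (c := r))

theorem nw_add {f g : R3 → ℝ} (hf : Test f) (hg : Test g) (x : R3) :
    nw (fun y => f y + g y) x = nw f x + nw g x := by
  have c1 := contDiff_nw (hf.add hg)
  have c2 := contDiff_nw hf
  have c3 := contDiff_nw hg
  have := eq_zero_of_test (f := fun x => nw (fun y => f y + g y) x - (nw f x + nw g x))
    (c1.sub (c2.add c3)) (fun χ hχ => by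
      have cχ := (contDiff_nw hχ).continuous
      simp only [sub_mul, add_mul]
      have i23 : Integrable fun x => nw f x * χ x + nw g x * χ x :=
        (jnwv_int hχ c2.continuous).add (jnwv_int hχ c3.continuous)
      rw [integral_sub (jnwv_int hχ c1.continuous) i23,
        integral_add (jnwv_int hχ c2.continuous) (jnwv_int hχ c3.continuous),
        nw_symm (hf.add hg) hχ, nw_symm hf hχ, nw_symm hg hχ,
        ← integral_add (jnwv_int' hf cχ) (jnwv_int' hg cχ)]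
      simp only [add_mul, sub_self]) x
  linarith

theorem nw_const_mul (r : ℝ) {f : R3 → ℝ} (hf : Test f) (x : R3) :
    nw (fun y => r * f y) x = r * nw f x := by
  have c1 := contDiff_nw (jnwv_test_mul r hf)
  have c2 := contDiff_nw hf
  have := eq_zero_of_test (f := fun x => nw (fun y => r * f y) x - r * nw f x)
    (c1.sub (contDiff_const.mul c2)) (fun χ hχ => by
      simp only [sub_mul, mul_assoc]
      rw [integral_sub (jnwv_int hχ c1.continuous) ((jnwv_int hχ c2.continuous).const_mul r),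
        integral_const_mul, nw_symm (jnwv_test_mul r hf) hχ, nw_symm hf hχ, ← integral_const_mul]
      simp only [mul_assoc, sub_self]) x
  linarith

theorem jnwv_apply (φ : R3 → R3) (x : R3) (i : Fin 3) : nwV φ x i = nw (fun y => φ y i) x := rfl

theorem contDiff_nwV (h : TestV φ) : ContDiff ℝ ∞ (nwV φ) :=
  contDiff_euclidean.2 fun i => contDiff_nw (h.comp i)

theorem rot_nwV (h : TestV φ) (k : Fin 3) : rot k (nwV φ) = nwV (rot k φ) := by
  funext x
  ext i
  have e1 : (fun y => rot k φ y i)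
      = fun y => (∑ j, Km k i j * φ y j) + ang k (fun z => φ z i) y := by
    funext y
    rw [rot_apply h.1, cr_apply]
  have t1 : ∀ j, Test fun y => Km k i j * φ y j := fun j => jnwv_test_mul _ (h.comp j)
  rw [rot_apply (contDiff_nwV h), jnwv_apply, e1,
    nw_add (Test.sum Finset.univ fun j _ => t1 j) (test_ang (h.comp i) k), nw_sum t1, cr_apply,
    ← ang_nw (h.comp i)]
  congr 1
  exact Finset.sum_congr rfl fun j _ => (nw_const_mul _ (h.comp j) x).symm

theorem cas_nwV (h : TestV φ) : cas (nwV φ) = nwV (cas φ) := by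
  funext x
  ext i
  have t1 : ∀ k, Test fun y => rot k (rot k φ) y i := fun k => ((h.rot k).rot k).comp i
  have e1 : (fun y => cas φ y i) = fun y => (-1 : ℝ) * ∑ k, rot k (rot k φ) y i := by
    funext y
    simp [cas]
  rw [jnwv_apply, e1, nw_const_mul _ (Test.sum Finset.univ fun k _ => t1 k), nw_sum t1]
  simp only [cas, rot_nwV h, fun k => rot_nwV (h.rot k) k]
  simp [jnwv_apply]

theorem jnwv_smul (r : ℝ) (h : TestV φ) (x : R3) : nwV (fun y => r • φ y) x = r • nwV φ x := by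
  ext i
  exact nw_const_mul r (h.comp i) x

theorem jnwv_symm (hΦ : TestV Φ) (h : TestV φ) :
    ∫ x, ⟪nwV Φ x, φ x⟫ = ∫ x, ⟪Φ x, nwV φ x⟫ := by
  simp only [inner_eq_sum, jnwv_apply]
  rw [integral_finsetSum _ fun i _ => jnwv_int (h.comp i) (contDiff_nw (hΦ.comp i)).continuous,
    integral_finsetSum _ fun i _ =>
      jnwv_int' (hΦ.comp i) (contDiff_nw (h.comp i)).continuous]
  exact Finset.sum_congr rfl fun i _ => nw_symm (hΦ.comp i) (h.comp i)

theorem Comp.nwV (h : Comp Λ Φ) (hΦ : TestV Φ) : Comp Λ (nwV Φ) := by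
  intro l hl φ h1 h2 h3
  have hφ : TestV φ := ⟨h1, h2⟩
  obtain ⟨θ, hθ, hr, -, h1θ⟩ := exists_rad_one (K := tsupport Φ) hΦ.2
  have ht := testV_smul hθ (contDiff_nwV hφ)
  have e : ∀ x, ⟪Φ x, Ang.nwV φ x⟫ = ⟪Φ x, θ x • Ang.nwV φ x⟫ := fun x => by
    by_cases hx : x ∈ tsupport Φ
    · rw [h1θ x hx, one_smul]
    · rw [image_eq_zero_of_notMem_tsupport hx, inner_zero_left, inner_zero_left]
  rw [jnwv_symm hΦ hφ]
  simp only [e]
  refine h l hl _ ht.1 ht.2 fun x => ?_
  rw [cas_rad hr (contDiff_nwV hφ), cas_nwV hφ, funext h3]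
  simp only [jnwv_smul l hφ, smul_comm l]

end

end Pool.Agent.Work.MP_6bf1e5_an.Ang
end

-- merged part: Pool.Agent.Work.MP_6bf1e5_an.Ang.GUniq
section
/-!
Uniqueness and the energy inequality. `blind`: the field in `Blind` is `Θ = - curl (θ curl (nwV Φ))`, a test field with `Comp Λ Θ`
(`Comp.nwV`, `Comp.curl`, `Comp.rad`, `Comp.neg`); the pressure part vanishes by `press_anti`, the force part by `orth`.
A `GSol` is a `QSol` with index type `Unit`, `c = 1` and `q = ∇ p - f` (`JS.pd`, `contDiffOn_vec`); apply `QSol.unique`,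
`QSol.energy_le` with `Φ = ψ (v - u)` (`Comp.sub`, `Comp.rad`). `sanity`: `orth` with `Θ = θ f`, `ψ u`, `ψ curl u`.
-/

open scoped ContDiff ENNReal FourierTransform Topology Matrix RealInnerProductSpace
open Set MeasureTheory Filter Metric Pool.Agent.Work.MP_6bf1e5_an.Ens
  Pool.Agent.Work.MP_6bf1e5_an.Mat

namespace Pool.Agent.Work.MP_6bf1e5_an.Ang

noncomputable section

variable {ν T : ℝ} {Λ I : Set ℝ} {u0 : R3 → R3} {u v f g : R3 → ℝ → R3} {p q : R3 → ℝ → ℝ}

theorem guniq_sum {G : Fin 3 → Fin 3 → R3 → ℝ} (ha : ∀ i k x, G i k x = -G k i x) {W : R3 → R3}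
    (hW : ∀ y i, W y i = G (i + 2) (i + 1) y) (x : R3) (i : Fin 3) :
    ∑ k, pd k (G i k) x = (-curl W x) i := by
  have h1 : ∀ j i k, pd j (G i k) x = -pd j (G k i) x := fun j i k => by
    rw [show G i k = fun y => (-1 : ℝ) * G k i y from funext fun y => by rw [ha]; ring,
      pd_const_mul]
    ring
  have h0 : ∀ i, pd i (G i i) x = 0 := fun i => by linarith [h1 i i i]
  have h2 : (-curl W x) i = -(pd (i + 1) (G (i + 2 + 2) (i + 2 + 1)) x -
      pd (i + 2) (G (i + 1 + 2) (i + 1 + 1)) x) := by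
    rw [← show (fun y => W y (i + 2)) = G (i + 2 + 2) (i + 2 + 1) from funext fun y => hW y _,
      ← show (fun y => W y (i + 1)) = G (i + 1 + 2) (i + 1 + 1) from funext fun y => hW y _]
    rfl
  rw [h2, Fin.sum_univ_three]
  fin_cases i
  · change pd 0 (G 0 0) x + pd 1 (G 0 1) x + pd 2 (G 0 2) x = -(pd 1 (G 1 0) x - pd 2 (G 0 2) x)
    linarith [h0 0, h1 1 0 1]
  · change pd 0 (G 1 0) x + pd 1 (G 1 1) x + pd 2 (G 1 2) x = -(pd 2 (G 2 1) x - pd 0 (G 1 0) x)
    linarith [h0 1, h1 2 1 2]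
  · change pd 0 (G 2 0) x + pd 1 (G 2 1) x + pd 2 (G 2 2) x = -(pd 0 (G 0 2) x - pd 1 (G 2 1) x)
    linarith [h0 2, h1 0 2 0]

theorem blind {S : Set ℝ} {Φ : R3 → R3} (hp : ∀ s ∈ S, ContDiff ℝ ∞ fun x => p x s)
    (hf : ∀ s ∈ S, Continuous fun x => f x s) (hc : ∀ s ∈ S, Comp Λᶜ fun x => f x s)
    (hΦ : TestV Φ) (h2 : Comp Λ Φ) :
    Blind S (fun x s => WithLp.toLp 2 fun i => pd i (fun y => p y s) x - f x s i)
      fun i x => Φ x i := by
  intro θ hθ hr s hs
  have hw := contDiff_nwV hΦ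
  have hn : ∀ i, ContDiff ℝ ∞ (nw fun x => Φ x i) := fun i => contDiff_nw (hΦ.comp i)
  have hP : ∀ i k, Test fun y =>
      θ y * (pd k (nw fun x => Φ x i) y - pd i (nw fun x => Φ x k) y) := fun i k =>
    hθ.mul ((contDiff_pd (hn i) k).sub (contDiff_pd (hn k) i))
  have hW := testV_smul hθ (contDiff_curl hw)
  have hT : TestV fun x => -curl (fun y => θ y • curl (nwV Φ) y) x := ⟨hW.curl.1.neg, hW.curl.2.neg⟩
  have h3 := orth (hf s hs) (hc s hs) hT
    (((((h2.nwV hΦ).curl hw).rad hr).curl hW.1).neg)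
  have h4 := press_anti (hp s hs) hP fun i k x => by ring
  have h5 := fun x i => guniq_sum (G := fun i k y =>
    θ y * (pd k (nw fun x => Φ x i) y - pd i (nw fun x => Φ x k) y))
    (W := fun y => θ y • curl (nwV Φ) y) (fun i k x => by ring) (fun y i => rfl) x i
  have hfi : ∀ i, Continuous fun x => f x s i := fun i =>
    (EuclideanSpace.proj i : R3 →L[ℝ] ℝ).continuous.comp (hf s hs)
  simp only [h5] at h4 ⊢
  simp only [inner_eq_sum] at h3
  rw [integral_finsetSum _ fun i _ => (hT.comp i).integrable_mul (hfi i)] at h3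
  rw [← sub_zero (0 : ℝ)]
  nth_rewrite 1 [← h4]
  rw [← h3, ← Finset.sum_sub_distrib]
  refine Finset.sum_congr rfl fun i _ => ?_
  rw [← integral_sub ((hT.comp i).integrable_mul (contDiff_pd (hp s hs) i).continuous)
    ((hT.comp i).integrable_mul (hfi i))]
  exact integral_congr_ae (Eventually.of_forall fun x => sub_mul _ _ _)

theorem GSol.mono (h : GSol ν Λ u0 I u p f) {J : Set ℝ} (hJ : J ⊆ I) (hu : UniqueDiffOn ℝ J) :
    GSol ν Λ u0 J u p f := by
  refine ⟨h.smooth_u.mono (prod_mono subset_rfl hJ), h.smooth_p.mono (prod_mono subset_rfl hJ),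
    h.smooth_f.mono (prod_mono subset_rfl hJ), fun x t ht i => ?_,
    fun x t ht => h.divFree x t (hJ ht), h.initial, fun t ht => h.kept t (hJ ht),
    fun t ht => h.removed t (hJ ht)⟩
  rw [(((contDiffOn_vec.1 h.smooth_u i).hasDerivWithinAt x (hJ ht)).mono hJ).derivWithin (hu t ht)]
  exact h.momentum x t (hJ ht) i

theorem guniq_slice {w : R3 → ℝ → R3} (h : ContDiffOn ℝ ∞ (fun z : R3 × ℝ => w z.1 z.2) (univ ×ˢ I))
    {t : ℝ} (ht : t ∈ I) : ContDiff ℝ ∞ fun x => w x t :=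
  contDiff_euclidean.2 fun i => (contDiffOn_vec.1 h i).slice ht

theorem guniq_qsol (h : GSol ν Λ u0 I u p f) (hI : UniqueDiffOn ℝ I) :
    QSol ν (fun _ _ _ : Unit => 1) (fun _ => u0) I (fun _ => u)
      fun _ x s => WithLp.toLp 2 fun i => pd i (fun y => p y s) x - f x s i := by
  refine ⟨fun _ => h.smooth_u, fun _ => contDiffOn_euclidean.2 fun i =>
    JS.sub (JS.pd h.smooth_p hI i) (contDiffOn_vec.1 h.smooth_f i), fun _ x t ht i => ?_,
    fun _ => h.divFree, fun _ => h.initial⟩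
  have := h.momentum x t ht i
  simp only [Finset.univ_unique, Finset.sum_singleton, one_mul]
  linarith

theorem guniq_blind (h : GSol ν Λ u0 I u p f) {ψ : R3 → ℝ} (hψ : Test ψ) (hr : Rad ψ)
    {w : R3 → R3} (hw : ContDiff ℝ ∞ w) (hc : Comp Λ w) :
    Blind I (fun x s => WithLp.toLp 2 fun i => pd i (fun y => p y s) x - f x s i)
      fun i x => ψ x * w x i :=
  blind (Φ := fun x => ψ x • w x) (fun _ hs => JS.slice h.smooth_p hs)
    (fun _ hs => (guniq_slice h.smooth_f hs).continuous) h.removed (testV_smul hψ hw) (hc.rad hr)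

theorem guniq_energy (w : R3 → R3) : energy (fun _ : Unit => w) = en w := by
  simp only [energy, en, Finset.univ_unique, Finset.sum_singleton]

theorem GSol.unique (hν : 0 < ν) (hT : 0 < T) (hu : GSol ν Λ u0 (Icc 0 T) u p f)
    (hv : GSol ν Λ u0 (Icc 0 T) v q g)
    (eu : ∃ C < (⊤ : ℝ≥0∞), ∀ t ∈ Icc 0 T, en (fun x => u x t) ≤ C)
    (ev : ∃ C < (⊤ : ℝ≥0∞), ∀ t ∈ Icc 0 T, en (fun x => v x t) ≤ C)
    (hb : ∃ M : ℝ, ∀ t ∈ Icc 0 T, ∀ x i, |u x t i| ≤ M ∧ ∀ j, |pd j (fun y => u y t i) x| ≤ M) :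
    ∀ t ∈ Icc 0 T, ∀ x, v x t = u x t := by
  obtain ⟨M, hM⟩ := hb
  have hd : ∀ t ∈ Icc 0 T, ContDiff ℝ ∞ fun x => v x t - u x t := fun t ht =>
    (guniq_slice hv.smooth_u ht).sub (guniq_slice hu.smooth_u ht)
  have hc : ∀ t ∈ Icc 0 T, Comp Λ fun x => v x t - u x t := fun t ht =>
    (hv.kept t ht).sub (hu.kept t ht) (guniq_slice hv.smooth_u ht).continuous
      (guniq_slice hu.smooth_u ht).continuous
  exact fun t ht x => QSol.unique hν hT (fun _ _ _ => rfl) (guniq_qsol hu (uniqueDiffOn_Icc hT))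
    (guniq_qsol hv (uniqueDiffOn_Icc hT)) (by simpa only [guniq_energy] using eu)
    (by simpa only [guniq_energy] using ev) ⟨M, fun t ht _ => hM t ht⟩
    (fun ψ hψ hr t ht _ => guniq_blind hu hψ hr (hd t ht) (hc t ht))
    (fun ψ hψ hr t ht _ => guniq_blind hv hψ hr (hd t ht) (hc t ht)) t ht () x

theorem GSol.energy_le (hν : 0 < ν) (hT : 0 < T) (hv : GSol ν Λ u0 (Icc 0 T) v q g)
    (ev : ∃ C < (⊤ : ℝ≥0∞), ∀ t ∈ Icc 0 T, en (fun x => v x t) ≤ C) :
    ∀ t ∈ Icc 0 T, en (fun x => v x t) ≤ en u0 := by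
  simpa only [guniq_energy] using QSol.energy_le hν hT (fun _ _ _ => rfl)
    (guniq_qsol hv (uniqueDiffOn_Icc hT)) (by simpa only [guniq_energy] using ev)
    fun ψ hψ hr t ht _ => guniq_blind hv hψ hr (guniq_slice hv.smooth_u ht) (hv.kept t ht)

theorem guniq_test {ψ : ℝ → ℝ} (h : ContDiff ℝ ∞ ψ) (hc : HasCompactSupport ψ) :
    Test fun x : R3 => ψ (‖x‖ ^ 2) := by
  refine ⟨h.comp (contDiff_norm_sq ℝ), ?_⟩
  obtain ⟨r, hr⟩ := hc.isCompact.isBounded.subset_closedBall 0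
  refine HasCompactSupport.intro (isCompact_closedBall 0 (|r| + 1)) fun x hx => ?_
  refine image_eq_zero_of_notMem_tsupport fun h1 => hx ?_
  have h2 := hr h1
  rw [mem_closedBall_zero_iff, Real.norm_eq_abs, abs_of_nonneg (sq_nonneg _)] at h2
  rw [mem_closedBall_zero_iff]
  nlinarith [le_abs_self r, abs_nonneg r, norm_nonneg x]

theorem GSol.sanity (h : GSol ν Λ u0 I u p f) {t : ℝ} (ht : t ∈ I) :
    (Λ = univ → ∀ x, f x t = 0) ∧ ∀ ψ : ℝ → ℝ, ContDiff ℝ ∞ ψ → HasCompactSupport ψ →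
      ∫ x, ψ (‖x‖ ^ 2) * ⟪f x t, u x t⟫ = 0 ∧
        ∫ x, ψ (‖x‖ ^ 2) * ⟪f x t, curl (fun y => u y t) x⟫ = 0 := by
  have hf := guniq_slice h.smooth_f ht
  have hu := guniq_slice h.smooth_u ht
  refine ⟨fun hΛ x => ?_, fun ψ h1 h2 => ?_⟩
  · obtain ⟨θ, hθ, -, h0, h1⟩ := exists_rad_one (isCompact_singleton (x := x))
    have h2 := orth hf.continuous (h.removed t ht) (testV_smul hθ hf)
      fun l hl => absurd (hΛ ▸ mem_univ l) hl
    have hc : Continuous fun y => ⟪f y t, θ y • f y t⟫ :=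
      hf.continuous.inner (hθ.1.continuous.smul hf.continuous)
    by_contra hne
    refine (hc.integral_pos_of_hasCompactSupport_nonneg_nonzero (μ := volume) (x := x) ?_ ?_
      (by rwa [h1 x rfl, one_smul, Ne, inner_self_eq_zero])).ne' h2
    · exact HasCompactSupport.intro hθ.2.isCompact fun y hy => by
        rw [image_eq_zero_of_notMem_tsupport hy, zero_smul, inner_zero_right]
    · intro y
      change 0 ≤ ⟪f y t, θ y • f y t⟫
      rw [real_inner_smul_right]
      exact mul_nonneg (h0 y).1 real_inner_self_nonneg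
  · have hθ := guniq_test h1 h2
    have hr : Rad fun x : R3 => ψ (‖x‖ ^ 2) := ⟨ψ, h1, fun _ => rfl⟩
    have a := orth hf.continuous (h.removed t ht) (testV_smul hθ hu) ((h.kept t ht).rad hr)
    have b := orth hf.continuous (h.removed t ht) (testV_smul hθ (contDiff_curl hu))
      (((h.kept t ht).curl hu).rad hr)
    simp only [real_inner_smul_right] at a b
    exact ⟨a, b⟩

end

end Pool.Agent.Work.MP_6bf1e5_an.Ang
end
end

-- merged part: Pool.Agent.Work.MP_6bf1e5_an.Ang.DMainE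
section
-- merged part: Pool.Agent.Work.MP_6bf1e5_an.Ang.EqNL
section
/-!
The nonlinearity is equivariant. At `ξ = 0` it vanishes. For `ξ ≠ 0`: `cv_act` and `Eqv.eqv` give
`cv (f b j) (g d k) (R ξ) = ∑ ρ b b' R j j' ρ d d' R k k' cv (f b' j') (g d' k') ξ` (integrability: `VB.nl_int`), where
`ρ a b = R a.1 b.1 R a.2 b.2`; `lr (R ξ) = R (lr ξ) Rᵀ`; and `∑ b d, cJ a b d ρ b b' ρ d d' = ∑ a', ρ a a' cJ a' b' d'` because
`∑ b, ρ b b' Sb b = R (Sb b') Rᵀ` and `∑ a', ρ a a' Sb a' = Rᵀ (Sb a) R`. `swap`: `cJ_swap1`.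
-/

open scoped ContDiff ENNReal FourierTransform Topology Matrix RealInnerProductSpace
open Set MeasureTheory Filter Metric Pool.Agent.Work.MP_6bf1e5_an.Ens
  Pool.Agent.Work.MP_6bf1e5_an.Mat

namespace Pool.Agent.Work.MP_6bf1e5_an.Ang

noncomputable section

theorem eqnl_conj (R : M3) (b' : I2) :
    ∑ b : I2, (R b.1 b'.1 * R b.2 b'.2) • Sb b = R * Sb b' * Rᵀ := by
  ext r s
  have h1 : (R * Sb b' * Rᵀ) r s = (R r b'.1 * R s b'.2 + R r b'.2 * R s b'.1) / 2 := by
    rw [jord_single, Matrix.mul_smul, Matrix.smul_mul, Matrix.mul_add, Matrix.add_mul,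
      Matrix.smul_apply, Matrix.add_apply]
    have h : ∀ p q : Fin 3, (R * Matrix.single p q (1 : ℝ) * Rᵀ) r s = R r p * R s q := by
      intro p q
      rw [Matrix.mul_apply, Finset.sum_eq_single q]
      · simp
      · intro j _ hj
        rw [Matrix.mul_single_apply_of_ne _ _ _ _ _ hj, zero_mul]
      · simp
    rw [h, h, smul_eq_mul]
    ring
  rw [h1]
  simp only [Matrix.sum_apply, Matrix.smul_apply, Sb, smul_eq_mul, Fintype.sum_prod_type]
  have h2 : ∀ i j : Fin 3, R i b'.1 * R j b'.2 * (((if r = i ∧ s = j then (1 : ℝ) else 0)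
      + (if r = j ∧ s = i then 1 else 0)) / 2)
      = (if r = i then if s = j then R i b'.1 * R j b'.2 / 2 else 0 else 0)
        + (if s = i then if r = j then R i b'.1 * R j b'.2 / 2 else 0 else 0) := by
    intro i j
    simp only [← ite_and, @and_comm (s = i)]
    split_ifs <;> ring
  simp only [h2, Finset.sum_add_distrib]
  have h3 : ∀ p q : Fin 3, (∑ i : Fin 3, ∑ j : Fin 3,
      (if p = i then if q = j then R i b'.1 * R j b'.2 / 2 else 0 else 0)) =
        R p b'.1 * R q b'.2 / 2 := by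
    intro p q
    rw [Finset.sum_eq_single p]
    · simp
    · intro i _ hi
      simp [hi.symm]
    · simp
  rw [h3, h3]
  ring

theorem cJ_rho {R : M3} (hR : R * Rᵀ = 1) (a b' d' : I2) :
    ∑ b : I2, ∑ d : I2, cJ 3 a b d * (R b.1 b'.1 * R b.2 b'.2) * (R d.1 d'.1 * R d.2 d'.2) =
      ∑ a' : I2, R a.1 a'.1 * R a.2 a'.2 * cJ 3 a' b' d' := by
  have hR' : Rᵀ * R = 1 := mul_eq_one_comm.1 hR
  have h1 : ∑ b : I2, ∑ d : I2, cJ 3 a b d * (R b.1 b'.1 * R b.2 b'.2) * (R d.1 d'.1 * R d.2 d'.2) =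
      (Sb a * (R * Sb b' * Rᵀ) * (R * Sb d' * Rᵀ)).trace := by
    rw [← eqnl_conj, ← eqnl_conj, Finset.mul_sum _ _ (Sb a), Finset.sum_mul, Matrix.trace_sum]
    refine Finset.sum_congr rfl fun b _ => ?_
    rw [Finset.mul_sum, Matrix.trace_sum]
    refine Finset.sum_congr rfl fun d _ => ?_
    rw [Matrix.mul_smul, Matrix.mul_smul, Matrix.smul_mul, Matrix.trace_smul, Matrix.trace_smul, cJ]
    simp only [smul_eq_mul]
    ring
  have h2 : ∑ a' : I2, R a.1 a'.1 * R a.2 a'.2 * cJ 3 a' b' d' =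
      (Rᵀ * Sb a * R * Sb b' * Sb d').trace := by
    have h := eqnl_conj Rᵀ a
    rw [Matrix.transpose_transpose] at h
    rw [← h, Finset.sum_mul, Finset.sum_mul, Matrix.trace_sum]
    refine Finset.sum_congr rfl fun a' _ => ?_
    rw [Matrix.smul_mul, Matrix.smul_mul, Matrix.trace_smul, cJ]
    simp only [smul_eq_mul, Matrix.transpose_apply]
  rw [h1, h2]
  have h3 : Sb a * (R * Sb b' * Rᵀ) * (R * Sb d' * Rᵀ) = Sb a * R * Sb b' * Sb d' * Rᵀ := by
    calc _ = Sb a * R * Sb b' * (Rᵀ * R) * Sb d' * Rᵀ := by simp only [Matrix.mul_assoc]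
      _ = _ := by rw [hR', Matrix.mul_one]
  rw [h3, Matrix.trace_mul_comm]
  simp only [Matrix.mul_assoc]

theorem eqnl_sum {α β : Type} [Fintype α] [Fintype β] (c : α → α → ℂ) (P x : β → ℂ)
    (ρ : α → α → ℂ) (R : β → β → ℂ) (T : α → β → α → β → ℂ) :
    ∑ b, ∑ d, c b d * ∑ k, ∑ j, P k * x j *
      ∑ b', ∑ d', ∑ k', ∑ j', ρ b b' * R j j' * (ρ d d' * R k k') * T b' j' d' k' =
    ∑ b', ∑ d', ∑ k', ∑ j', (∑ b, ∑ d, c b d * ρ b b' * ρ d d') * (∑ k, P k * R k k') *
      (∑ j, x j * R j j') * T b' j' d' k' := by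
  have e : ∀ F : α → α → β → β → ℂ, ∑ b, ∑ d, ∑ k, ∑ j, F b d k j =
      ∑ p : α × α × β × β, F p.1 p.2.1 p.2.2.1 p.2.2.2 := by
    intro F
    simp only [Fintype.sum_prod_type]
  calc _ = ∑ b, ∑ d, ∑ k, ∑ j, ∑ q : α × α × β × β, c b d * ρ b q.1 * ρ d q.2.1 *
        (P k * R k q.2.2.1) * (x j * R j q.2.2.2) * T q.1 q.2.2.2 q.2.1 q.2.2.1 := by
        refine Finset.sum_congr rfl fun b _ => Finset.sum_congr rfl fun d _ => ?_
        rw [Finset.mul_sum]
        refine Finset.sum_congr rfl fun k _ => ?_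
        rw [Finset.mul_sum]
        refine Finset.sum_congr rfl fun j _ => ?_
        rw [e, Finset.mul_sum, Finset.mul_sum]
        exact Finset.sum_congr rfl fun q _ => by ring
    _ = ∑ q : α × α × β × β, ∑ b, ∑ d, ∑ k, ∑ j, c b d * ρ b q.1 * ρ d q.2.1 *
        (P k * R k q.2.2.1) * (x j * R j q.2.2.2) * T q.1 q.2.2.2 q.2.1 q.2.2.1 := by
        rw [e, Finset.sum_comm]
        exact Finset.sum_congr rfl fun q _ => (e fun b d k j => c b d * ρ b q.1 * ρ d q.2.1 *
          (P k * R k q.2.2.1) * (x j * R j q.2.2.2) * T q.1 q.2.2.2 q.2.1 q.2.2.1).symm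
    _ = _ := by
        rw [e]
        refine Finset.sum_congr rfl fun q _ => ?_
        simp only [← Finset.sum_mul, ← Finset.mul_sum]

theorem eqnl_back {R : M3} (hR : R * Rᵀ = 1) (ξ : R3) (j' : Fin 3) :
    ∑ j, act R ξ j * R j j' = ξ j' := by
  have hR' : Rᵀ * R = 1 := mul_eq_one_comm.1 hR
  have h : ∀ l, ∑ j, R j j' * R j l = if j' = l then 1 else 0 := by
    intro l
    have := congrFun (congrFun hR' j') l
    simpa only [Matrix.mul_apply, Matrix.transpose_apply, Matrix.one_apply] using this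
  calc _ = ∑ j, ∑ l, R j j' * R j l * ξ l := by
        refine Finset.sum_congr rfl fun j _ => ?_
        rw [act_apply, Finset.sum_mul]
        exact Finset.sum_congr rfl fun l _ => by ring
    _ = ∑ l, (∑ j, R j j' * R j l) * ξ l := by
        rw [Finset.sum_comm]
        simp only [Finset.sum_mul]
    _ = _ := by simp [h]

theorem eqnl_lr {R : M3} (hR : R * Rᵀ = 1) (ξ : R3) (i k' : Fin 3) :
    ∑ k, lr (act R ξ) i k * R k k' = ∑ i', R i i' * lr ξ i' k' := by
  have h1 : ∀ k, lr (act R ξ) i k * R k k' =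
      (if i = k then R k k' else 0) - act R ξ i / ‖ξ‖ ^ 2 * (act R ξ k * R k k') := by
    intro k
    rw [lr, norm_act hR]
    split_ifs <;> ring
  have h2 : ∀ i', R i i' * lr ξ i' k' =
      (if i' = k' then R i i' else 0) - R i i' * ξ i' * (ξ k' / ‖ξ‖ ^ 2) := by
    intro i'
    rw [lr]
    split_ifs <;> ring
  simp only [h1, h2, Finset.sum_sub_distrib, ← Finset.mul_sum, ← Finset.sum_mul, eqnl_back hR,
    ← act_apply]
  simp only [Finset.sum_ite_eq, Finset.sum_ite_eq', Finset.mem_univ, if_true]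
  ring

theorem eqnl_cv {κ C C' : ℝ} {f g : R3 → V I2} (hκ : 0 ≤ κ) (hf : VB κ C f) (hg : VB κ C' g)
    (ef : Eqv f) (eg : Eqv g) {R : M3} (hR : R * Rᵀ = 1) {ξ : R3} (hξ : ξ ≠ 0) (b d : I2)
    (j k : Fin 3) : cv (fun η => f η b j) (fun η => g η d k) (act R ξ) =
      ∑ b' : I2, ∑ d' : I2, ∑ k', ∑ j', ((R b.1 b'.1 * R b.2 b'.2 : ℝ) : ℂ) * (R j j' : ℂ) *
        (((R d.1 d'.1 * R d.2 d'.2 : ℝ) : ℂ) * (R k k' : ℂ)) *
          cv (fun η => f η b' j') (fun η => g η d' k') ξ := by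
  rw [← cv_act hR]
  have hi : ∀ (b' d' : I2) (k' j' : Fin 3), Integrable fun η =>
      ((R b.1 b'.1 * R b.2 b'.2 : ℝ) : ℂ) * (R j j' : ℂ) *
        (((R d.1 d'.1 * R d.2 d'.2 : ℝ) : ℂ) * (R k k' : ℂ)) * (f η b' j' * g (ξ - η) d' k') :=
    fun b' d' k' j' => (hf.nl_int hκ hg b' j' d' k' hξ).const_mul _
  simp only [cv, ← integral_const_mul]
  rw [Finset.sum_congr rfl fun b' _ => Finset.sum_congr rfl fun d' _ =>
    Finset.sum_congr rfl fun k' _ => (integral_finsetSum _ fun j' _ => hi b' d' k' j').symm]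
  rw [Finset.sum_congr rfl fun b' _ => Finset.sum_congr rfl fun d' _ =>
    (integral_finsetSum _ fun k' _ => integrable_finsetSum _ fun j' _ => hi b' d' k' j').symm]
  rw [Finset.sum_congr rfl fun b' _ => (integral_finsetSum _ fun d' _ =>
    integrable_finsetSum _ fun k' _ => integrable_finsetSum _ fun j' _ => hi b' d' k' j').symm]
  rw [← integral_finsetSum _ fun b' _ => integrable_finsetSum _ fun d' _ =>
    integrable_finsetSum _ fun k' _ => integrable_finsetSum _ fun j' _ => hi b' d' k' j']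
  congr 1
  funext η
  rw [ef.eqv R hR, eg.eqv R hR, rho, rho, Finset.sum_mul_sum]
  refine Finset.sum_congr rfl fun b' _ => Finset.sum_congr rfl fun d' _ => ?_
  rw [Finset.sum_mul_sum, Finset.sum_comm]
  refine Finset.sum_congr rfl fun k' _ => Finset.sum_congr rfl fun j' _ => ?_
  push_cast
  ring

theorem Eqv.NL {κ C C' : ℝ} {f g : R3 → V I2} (hκ : 0 ≤ κ) (hf : VB κ C f) (hg : VB κ C' g)
    (ef : Eqv f) (eg : Eqv g) : Eqv (NL (cJ 3) f g) := by
  refine ⟨fun R hR ξ => ?_, fun ξ a => ?_⟩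
  · by_cases hξ : ξ = 0
    · have h0 : act R 0 = 0 := by simpa using act_smul R 0 0
      rw [hξ, h0, NL_origin]
      funext a i
      simp [rho]
    funext a i
    have h := eqnl_sum (fun b d => (cJ 3 a b d : ℂ)) (fun k => (lr (act R ξ) i k : ℂ))
      (fun j => (act R ξ j : ℂ)) (fun b b' : I2 => ((R b.1 b'.1 * R b.2 b'.2 : ℝ) : ℂ))
      (fun j j' => (R j j' : ℂ)) fun b j d k => cv (fun η => f η b j) (fun η => g η d k) ξ
    simp only [← Complex.ofReal_mul, ← Complex.ofReal_sum, cJ_rho hR, eqnl_lr hR,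
      eqnl_back hR] at h
    simp only [Ens.NL, rho, eqnl_cv hκ hf hg ef eg hR hξ, ← Complex.ofReal_mul]
    rw [h]
    have e : ∀ F : I2 → I2 → Fin 3 → Fin 3 → ℂ, ∑ b, ∑ d, ∑ k, ∑ j, F b d k j =
        ∑ p : I2 × I2 × Fin 3 × Fin 3, F p.1 p.2.1 p.2.2.1 p.2.2.2 := by
      intro F
      simp only [Fintype.sum_prod_type]
    simp only [Finset.mul_sum, Finset.sum_mul, Complex.ofReal_sum]
    rw [e]
    simp only [e]
    symm
    refine ((Finset.sum_congr rfl fun a' _ => Finset.sum_comm).trans Finset.sum_comm).trans ?_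
    refine Finset.sum_congr rfl fun q _ => ?_
    rw [Finset.sum_comm]
    refine Finset.sum_congr rfl fun i' _ => Finset.sum_congr rfl fun a' _ => ?_
    push_cast
    ring
  · funext i
    simp only [Ens.NL, cJ_swap1]

end

end Pool.Agent.Work.MP_6bf1e5_an.Ang
end

-- merged part: Pool.Agent.Work.MP_6bf1e5_an.Ang.EqO
section
/-!
The projection commutes with the operators of the local theory. `P_B`: the slices of `y`, `z` are `Eqv` (`pr_eqv`), so are the lifts
(`Eqv.scale`), `NL` (`Eqv.NL` with `YY.vb`) and the time integral (`exists_rhoL`, `ContinuousLinearMap.intervalIntegral_comp_comm`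
with `bil_cont_integrand`; the swap through the evaluation maps); then `Eqv.pr_eq` with `YY.div`.
-/

open scoped ContDiff ENNReal FourierTransform Topology Matrix RealInnerProductSpace
open Set MeasureTheory Filter Metric Pool.Agent.Work.MP_6bf1e5_an.Ens
  Pool.Agent.Work.MP_6bf1e5_an.Mat

namespace Pool.Agent.Work.MP_6bf1e5_an.Ang

noncomputable section

variable {ν κ t1 : ℝ} {H : XX I2 →L[ℂ] YY I2} {E : YY I2 →L[ℂ] XX I2}
  {B : YY I2 →L[ℂ] YY I2 →L[ℂ] YY I2} {σ : XX I2 →L[ℝ] XX I2} {σ' : YY I2 →L[ℝ] YY I2}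
  {PX : XX I2 →L[ℂ] XX I2} {PY : YY I2 →L[ℂ] YY I2}

theorem eqo_norm (r : ℝ) (hr : 0 ≤ r) : ‖r • e3‖ = r := by
  rw [norm_smul, e3, PiLp.norm_single, norm_one, mul_one, Real.norm_of_nonneg hr]

theorem eqo_pr_scale (f : R3 → V I2) (m : ℝ → ℝ) {l : ℝ} (hl : 0 < l) (ξ : R3) :
    pr (fun η => m ‖η‖ • f (l • η)) ξ = m ‖ξ‖ • pr f (l • ξ) := by
  have e1 : ‖l • ξ‖ = l * ‖ξ‖ := by rw [norm_smul, Real.norm_of_nonneg hl.le]
  have e2 : (l * ‖ξ‖)⁻¹ • l • ξ = ‖ξ‖⁻¹ • ξ := by
    rw [smul_smul, mul_inv, mul_assoc, mul_comm _ l, ← mul_assoc, inv_mul_cancel₀ hl.ne', one_mul]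
  simp only [pr, e1, e2, norm_neg, eqo_norm _ (norm_nonneg ξ), smul_neg, smul_smul l,
    Pi.smul_apply]
  rw [← smul_sub, smul_assoc]

theorem eqo_int {F : ℝ → R3 → V I2} (hc : ∀ ξ, Continuous fun s => F s ξ) (h : ∀ s, Eqv (F s))
    (t : ℝ) : Eqv fun ξ => ∫ s in (0 : ℝ)..t, F s ξ := by
  constructor
  · intro R hR ξ
    obtain ⟨L, hL⟩ := exists_rhoL R
    rw [← hL, ← L.intervalIntegral_comp_comm ((hc ξ).intervalIntegrable _ _)]
    simp only [hL, (h _).eqv R hR]
  · intro ξ a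
    have e : ∀ b : I2, (∫ s in (0 : ℝ)..t, F s ξ) b = ∫ s in (0 : ℝ)..t, F s ξ b := fun b =>
      ((ContinuousLinearMap.proj (R := ℝ) (φ := fun _ : I2 => Fin 3 → ℂ) b).intervalIntegral_comp_comm
        ((hc ξ).intervalIntegrable _ _)).symm
    simp only [e, (h _).swap]

theorem eqo_scale1 {f : R3 → V I2} (h : Eqv f) (m : ℝ → ℝ) : Eqv fun ξ => m ‖ξ‖ • f ξ := by
  simpa using h.scale m 1

theorem P_H (h : Ops ν (cJ 3) κ t1 H E B σ σ') (hX : ∀ v, (PX v).fn = pr v.fn)
    (hY : ∀ y t ξ, (PY y).fn (t, ξ) = pr (fun η => y.fn (t, η)) ξ) (v : XX I2) :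
    PY (H v) = H (PX v) := by
  refine YY.ext fun ⟨t, ξ⟩ => ?_
  have := eqo_pr_scale v.fn (fun r => Real.exp (-(4 * Real.pi ^ 2 * ν * r ^ 2 * clamp t1 t)))
    one_pos ξ
  simp only [one_smul] at this
  simp only [hY, h.hH, hX, hr]
  exact this

theorem P_E (h : Ops ν (cJ 3) κ t1 H E B σ σ') (h1 : t1 < 1) (hX : ∀ v, (PX v).fn = pr v.fn)
    (hY : ∀ y t ξ, (PY y).fn (t, ξ) = pr (fun η => y.fn (t, η)) ξ) (y : YY I2) :
    PX (E y) = E (PY y) := by
  refine XX.ext fun ξ => ?_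
  have := eqo_pr_scale (fun η => y.fn (t1, η)) (fun r => (1 - t1) ^ (1 / 4 : ℝ) *
    Real.exp (-(κ * r * ((√(1 - t1))⁻¹ - 1))))
    (inv_pos.2 (Real.sqrt_pos.2 (sub_pos.2 h1))) ξ
  rw [hX, h.hE, hY, funext (h.hE y)]
  exact this

theorem P_sig (h : Ops ν (cJ 3) κ t1 H E B σ σ')
    (hY : ∀ y t ξ, (PY y).fn (t, ξ) = pr (fun η => y.fn (t, η)) ξ) (y : YY I2) :
    PY (σ' y) = σ' (PY y) := by
  refine YY.ext fun ⟨t, ξ⟩ => ?_
  have hm : ∀ w, star (mm w) = mm w := fun w => by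
    funext a i
    simp only [Pi.star_apply, mm, Complex.star_def, Complex.conj_ofReal]
  simp only [hY, h.hσ', pr, norm_neg, smul_neg, mm_neg, star_neg, star_smul, hm, neg_neg,
    Pi.star_apply, star_sub]
  rw [← neg_sub, neg_smul]

theorem P_fix (hY : ∀ y t ξ, (PY y).fn (t, ξ) = pr (fun η => y.fn (t, η)) ξ) (y : YY I2) :
    PY y = y ↔ ∀ t, Eqv fun η => y.fn (t, η) := by
  constructor
  · intro h t
    have : (fun η => y.fn (t, η)) = pr fun η => y.fn (t, η) := funext fun ξ => by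
      rw [← hY, h]
    rw [this]
    exact pr_eqv _
  · intro h
    refine YY.ext fun ⟨t, ξ⟩ => ?_
    rw [hY, (h t).pr_eq (y.div t)]

theorem P_idem (hY : ∀ y t ξ, (PY y).fn (t, ξ) = pr (fun η => y.fn (t, η)) ξ) (y : YY I2) :
    PY (PY y) = PY y := by
  refine (P_fix hY _).2 fun t => ?_
  simp only [hY]
  exact pr_eqv _

theorem P_B (h : Ops ν (cJ 3) κ t1 H E B σ σ') (hκ : 0 < κ)
    (hY : ∀ y t ξ, (PY y).fn (t, ξ) = pr (fun η => y.fn (t, η)) ξ) {y z : YY I2}
    (hy : PY y = y) (hz : PY z = z) : PY (B y z) = B y z := by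
  refine (P_fix hY _).2 fun t => ?_
  have l : ∀ {w : YY I2}, PY w = w → ∀ s, Eqv (lift κ w.fn s) := fun hw s =>
    eqo_scale1 ((P_fix hY _).1 hw s) fun r => r ^ (-(5 / 2) : ℝ) * Real.exp (-(κ * r))
  simp only [h.hB]
  exact eqo_scale1 (eqo_int (fun ξ => bil_cont_integrand (ν := ν) (cJ 3) hκ y z (clamp t1 t) ξ)
    (fun s => eqo_scale1 (Eqv.NL hκ.le (y.vb κ s) (z.vb κ s) (l hy s) (l hz s))
      fun r => Real.exp (-(4 * Real.pi ^ 2 * ν * r ^ 2 * (clamp t1 t - s)))) (clamp t1 t))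
    fun r => (r ^ (-(5 / 2) : ℝ) * Real.exp (-(κ * r)))⁻¹

/-- A continuous divergence-free family whose lift is equivariant is equivariant. -/
theorem eqv_of_lift {f : R3 → V I2} (hc : Continuous f) (hd : DivFree f)
    (h : Eqv fun ξ => wt κ ξ • f ξ) : Eqv f := by
  have h' := eqo_scale1 h fun r => (r ^ (-(5 / 2) : ℝ) * Real.exp (-(κ * r)))⁻¹
  have e : ∀ ξ : R3, ξ ≠ 0 →
      (‖ξ‖ ^ (-(5 / 2) : ℝ) * Real.exp (-(κ * ‖ξ‖)))⁻¹ • wt κ ξ • f ξ = f ξ := fun ξ h0 =>
    inv_smul_smul₀ (wt_pos κ h0).ne' _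
  constructor
  · intro R hR
    obtain ⟨L, hL⟩ := exists_rhoL R
    obtain ⟨A, hA, -⟩ := exists_actL hR
    have : (fun ξ => f (A ξ)) = fun ξ => L (f ξ) := by
      refine Continuous.ext_on (dense_compl_singleton (0 : R3)) (hc.comp A.continuous)
        (L.continuous.comp hc) fun ξ h0 => ?_
      have h1 : act R ξ ≠ 0 := by
        rw [← norm_ne_zero_iff, norm_act hR, norm_ne_zero_iff]; exact h0
      have := h'.eqv R hR ξ
      rw [e ξ h0, e _ h1] at this
      simp only [hA, hL, this]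
    intro ξ
    simpa only [hA, hL] using congrFun this ξ
  · intro ξ a
    have : (fun ξ => f ξ a.swap) = fun ξ => f ξ a := by
      refine Continuous.ext_on (dense_compl_singleton (0 : R3)) (by fun_prop) (by fun_prop)
        fun ξ h0 => ?_
      have := h'.swap ξ a
      rwa [e ξ h0] at this
    exact congrFun this ξ

end

end Pool.Agent.Work.MP_6bf1e5_an.Ang
end

-- merged part: Pool.Agent.Work.MP_6bf1e5_an.Ang.EqP
section
/-!
The projection as a bounded operator (compare `exists_sigX`, `exists_sigY` in Ens/HE.lean). Continuity at `ξ = 0`: the coefficient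
`f (r e3) (0,2) 0 - f (-(r e3)) (0,2) 0` is continuous and vanishes at `r = 0`, and `mm` is bounded on the unit ball.
-/

open scoped ContDiff ENNReal FourierTransform Topology Matrix RealInnerProductSpace
open Set MeasureTheory Filter Metric Pool.Agent.Work.MP_6bf1e5_an.Ens
  Pool.Agent.Work.MP_6bf1e5_an.Mat

namespace Pool.Agent.Work.MP_6bf1e5_an.Ang

noncomputable section

theorem eqp_norm_e3 (r : ℝ) (hr : 0 ≤ r) : ‖r • e3‖ = r := by
  have h : ‖e3‖ = 1 := by simp [e3]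
  rw [norm_smul, h, mul_one, Real.norm_of_nonneg hr]

theorem eqp_unit (ξ : R3) : ‖‖ξ‖⁻¹ • ξ‖ ≤ 1 := by
  rw [norm_smul, norm_inv, norm_norm]
  exact inv_mul_le_one_of_le₀ le_rfl (norm_nonneg _)

theorem eqp_coef (v : V I2) : ‖v (0, 2) 0‖ ≤ ‖v‖ :=
  (norm_le_pi_norm (v (0, 2)) 0).trans (norm_le_pi_norm v (0, 2))

theorem eqp_smul_le (c : ℂ) (ξ : R3) : ‖c • mm (‖ξ‖⁻¹ • ξ)‖ ≤ ‖c‖ * 2 := by
  rw [norm_smul]
  exact mul_le_mul_of_nonneg_left (norm_mm_le (eqp_unit ξ)) (norm_nonneg _)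

theorem eqp_pr_le (f : R3 → V I2) (ξ : R3) :
    ‖pr f ξ‖ ≤ (‖f (‖ξ‖ • e3)‖ + ‖f (-(‖ξ‖ • e3))‖) * 2 := by
  refine (eqp_smul_le _ ξ).trans (mul_le_mul_of_nonneg_right ?_ zero_le_two)
  exact (norm_sub_le _ _).trans (add_le_add (eqp_coef _) (eqp_coef _))

theorem norm_pr_le {f : R3 → V I2} {C : ℝ} (h : ∀ ξ, ‖f ξ‖ ≤ C) (ξ : R3) : ‖pr f ξ‖ ≤ 4 * C := by
  have h1 := eqp_pr_le f ξ
  have h2 := h (‖ξ‖ • e3)
  have h3 := h (-(‖ξ‖ • e3))
  linarith

theorem eqp_mm_smooth : ContDiff ℝ ∞ mm := by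
  refine contDiff_pi.2 fun a => contDiff_pi.2 fun i => ?_
  refine Complex.ofRealCLM.contDiff.comp
    (f := fun w : R3 => ∑ j, Sb a i j * w j - w a.1 * w a.2 * w i) ?_
  fun_prop

theorem eqp_cont {Z : Type} [TopologicalSpace Z] {c : Z → ℂ} {x : Z → R3} (hc : Continuous c)
    (hx : Continuous x) (h0 : ∀ z, x z = 0 → c z = 0) :
    Continuous fun z => c z • mm (‖x z‖⁻¹ • x z) := by
  refine continuous_iff_continuousAt.2 fun z => ?_
  by_cases hz : x z = 0
  · have h1 : Tendsto (fun w => ‖c w‖ * 2) (𝓝 z) (𝓝 0) := by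
      have := (hc.norm.mul_const 2).tendsto z
      simpa [h0 z hz] using this
    have h2 := squeeze_zero_norm (fun w => eqp_smul_le (c w) (x w)) h1
    rw [ContinuousAt, h0 z hz, zero_smul]
    exact h2
  · refine hc.continuousAt.smul (eqp_mm_smooth.continuous.continuousAt.comp ?_)
    exact (hx.norm.continuousAt.inv₀ (norm_ne_zero_iff.2 hz)).smul hx.continuousAt

theorem eqp_tendsto : Tendsto (fun ξ : R3 => ‖ξ‖ • e3) (cocompact R3) (cocompact R3) := by
  rw [← Metric.cobounded_eq_cocompact (α := R3)]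
  refine tendsto_norm_atTop_iff_cobounded.1 ?_
  simp only [eqp_norm_e3 _ (norm_nonneg _)]
  exact tendsto_norm_cobounded_atTop

theorem eqp_add (f g : R3 → V I2) (ξ : R3) : pr (fun η => f η + g η) ξ = pr f ξ + pr g ξ := by
  simp only [pr, Pi.add_apply, ← add_smul]
  congr 1
  ring

theorem eqp_smul (z : ℂ) (f : R3 → V I2) (ξ : R3) : pr (fun η => z • f η) ξ = z • pr f ξ := by
  simp only [pr, Pi.smul_apply, smul_smul, smul_eq_mul]
  congr 1
  ring

theorem exists_PX : ∃ P : XX I2 →L[ℂ] XX I2, ∀ v, (P v).fn = pr v.fn := by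
  have hb : ∀ (v : XX I2) (ξ : R3), ‖pr v.fn ξ‖ ≤ 4 * ‖v‖ := fun v => norm_pr_le v.norm_fn_le
  have hc : ∀ v : XX I2, Continuous (pr v.fn) := fun v => by
    have := v.cont
    refine eqp_cont (x := fun ξ => ξ) (by fun_prop) continuous_id fun ξ h => ?_
    simp [h]
  have hz : ∀ v : XX I2, Tendsto (pr v.fn) (cocompact R3) (𝓝 0) := fun v => by
    have a1 : Tendsto (fun ξ : R3 => -ξ) (cocompact R3) (cocompact R3) :=
      (Homeomorph.neg R3).map_cocompact.le
    have a2 := (v.zero.comp eqp_tendsto).norm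
    have a3 := (v.zero.comp (a1.comp eqp_tendsto)).norm
    refine squeeze_zero_norm (eqp_pr_le v.fn) ?_
    simpa using (a2.add a3).mul_const 2
  let L : XX I2 →ₗ[ℂ] XX I2 :=
    { toFun := fun v => XX.mk (pr v.fn) (hc v) _ (hb v) (pr_div _) (hz v)
      map_add' := fun v w => XX.ext fun z => eqp_add v.fn w.fn z
      map_smul' := fun r v => XX.ext fun z => eqp_smul r v.fn z }
  have hL : ∀ v, ‖L v‖ ≤ 4 * ‖v‖ := fun v => XX.norm_le _ (by positivity) (hb v)
  exact ⟨L.mkContinuous 4 hL, fun _ => rfl⟩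

theorem exists_PY : ∃ P : YY I2 →L[ℂ] YY I2, ‖P‖ ≤ 4 ∧
    ∀ y t ξ, (P y).fn (t, ξ) = pr (fun η => y.fn (t, η)) ξ := by
  have hb : ∀ (y : YY I2) (z : ℝ × R3), ‖pr (fun η => y.fn (z.1, η)) z.2‖ ≤ 4 * ‖y‖ :=
    fun y z => norm_pr_le (fun η => y.norm_fn_le _) _
  have hc : ∀ y : YY I2, Continuous fun z : ℝ × R3 => pr (fun η => y.fn (z.1, η)) z.2 :=
    fun y => by
      have := y.cont
      refine eqp_cont (x := fun z : ℝ × R3 => z.2) (by fun_prop) continuous_snd fun z h => ?_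
      simp [h]
  let L : YY I2 →ₗ[ℂ] YY I2 :=
    { toFun := fun y => YY.mk (fun z => pr (fun η => y.fn (z.1, η)) z.2) (hc y) _ (hb y)
        fun t => pr_div fun η => y.fn (t, η)
      map_add' := fun v w => YY.ext fun z =>
        eqp_add (fun η => v.fn (z.1, η)) (fun η => w.fn (z.1, η)) z.2
      map_smul' := fun r v => YY.ext fun z => eqp_smul r (fun η => v.fn (z.1, η)) z.2 }
  have hL : ∀ y, ‖L y‖ ≤ 4 * ‖y‖ := fun y => YY.norm_le _ (by positivity) (hb y)
  exact ⟨L.mkContinuous 4 hL, LinearMap.mkContinuous_norm_le _ (by norm_num) hL, fun _ _ _ => rfl⟩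

theorem eqp_zero {f : R3 → V I2} {ξ : R3} (h : ∀ η, ‖η‖ = ‖ξ‖ → f η = 0) : pr f ξ = 0 := by
  have h1 := eqp_norm_e3 _ (norm_nonneg ξ)
  rw [pr, h _ h1, h _ ((norm_neg _).trans h1)]
  simp

theorem pr_mem_Ds {P : XX I2 →L[ℂ] XX I2} (hP : ∀ v, (P v).fn = pr v.fn) {v : XX I2}
    (hv : v ∈ Ds I2) : P v ∈ Ds I2 := by
  obtain ⟨h1, h2, h3⟩ := hv
  have h0 : pr v.fn =ᶠ[𝓝 0] 0 := by
    obtain ⟨ε, hε, h⟩ := Metric.eventually_nhds_iff.1 h3
    refine Metric.eventually_nhds_iff.2 ⟨ε, hε, fun ξ hξ => eqp_zero fun η hη => h ?_⟩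
    rwa [dist_zero_right, hη, ← dist_zero_right]
  change ContDiff ℝ ∞ (P v).fn ∧ HasCompactSupport (P v).fn ∧ (P v).fn =ᶠ[𝓝 0] 0
  rw [hP]
  refine ⟨contDiff_iff_contDiffAt.2 fun ξ => ?_, ?_, h0⟩
  · by_cases hξ : ξ = 0
    · subst hξ
      exact contDiffAt_const.congr_of_eventuallyEq h0
    · have hn : ContDiffAt ℝ ∞ (fun η : R3 => ‖η‖) ξ := contDiffAt_norm ℝ hξ
      have he : ContDiffAt ℝ ∞ (fun η : R3 => ‖η‖ • e3) ξ := hn.smul contDiffAt_const
      have a1 := contDiffAt_pi.1 (contDiffAt_pi.1 (h1.contDiffAt.comp ξ he) (0, 2)) 0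
      have a2 := contDiffAt_pi.1 (contDiffAt_pi.1 (h1.contDiffAt.comp ξ he.neg) (0, 2)) 0
      exact (a1.sub a2).smul (eqp_mm_smooth.contDiffAt.comp ξ
        ((hn.inv (norm_ne_zero_iff.2 hξ)).smul contDiffAt_id))
  · obtain ⟨R, hR⟩ := h2.isCompact.isBounded.subset_closedBall 0
    refine HasCompactSupport.intro (isCompact_closedBall 0 R) fun ξ hξ => eqp_zero fun η hη => ?_
    refine image_eq_zero_of_notMem_tsupport fun h => hξ ?_
    have := hR h
    rwa [mem_closedBall_zero_iff, hη, ← mem_closedBall_zero_iff] at this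

end

end Pool.Agent.Work.MP_6bf1e5_an.Ang
end

-- merged part: Pool.Agent.Work.MP_6bf1e5_an.Ang.DMainE
section
/-!
The equivariant solution on the Fourier side. Copy the proof of `Profile.exists_fsol` (Ens/DMain.lean) with `M` replaced by `4 M`
in `dmain_t1` and `stableP` in place of `stable`. `PY U = U` and `PX Wn = Wn`: `eqv_of_lift`, `Eqv.scale`, `P_fix`, `Eqv.pr_eq`.
Every `t ∈ [0, 1)` lies in one of the intervals (`dmain_interval` with `N = 0`).
-/

open scoped ContDiff ENNReal FourierTransform Topology Matrix RealInnerProductSpace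
open Set MeasureTheory Filter Metric Pool.Agent.Work.MP_6bf1e5_an.Ens
  Pool.Agent.Work.MP_6bf1e5_an.Mat

namespace Pool.Agent.Work.MP_6bf1e5_an.Ang

noncomputable section

theorem dmaine_smul {f : R3 → V I2} (h : Eqv f) (a l : ℝ) : Eqv fun ξ => a • f (l • ξ) :=
  h.scale (fun _ => a) l

theorem dmaine_lift {y : ℝ × R3 → V I2} {s : ℝ} (h : Eqv fun η => y (s, η)) (κ : ℝ) :
    Eqv (lift κ y s) := by
  have := h.scale (fun r => r ^ (-(5 / 2) : ℝ) * Real.exp (-(κ * r))) 1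
  simp only [one_smul] at this
  exact this

theorem dmaine_Uh {W : R3 → V I2} (h : Eqv W) (t : ℝ) : Eqv (Uh W t) :=
  dmaine_smul h (1 - t) (√(1 - t))

theorem exists_fsolE {ν : ℝ} {W : R3 → V I2} (hν : 0 < ν) (h : Profile ν (cJ 3) W) (hW : Eqv W) :
    ∃ f : ℝ → R3 → V I2, FSol ν (cJ 3) f ∧ ContDiff ℝ ∞ (f 0) ∧ HasCompactSupport (f 0) ∧
      (∀ t ∈ Ico (0 : ℝ) 1, Eqv (f t)) ∧ ∀ ε > 0, ∃ t0, 0 ≤ t0 ∧ t0 < 1 ∧ ∀ t ∈ Ico t0 1,
        √(1 - t) * ∫ ξ, ‖f t ξ - Uh W t ξ‖ ≤ ε := by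
  obtain ⟨κ, hκ, M, ⟨Wn, hWs, hWn⟩, hU⟩ := h.normalised
  obtain ⟨K, hK, hB⟩ := exists_Bil (cJ 3) hν
  obtain ⟨t1, h0, h34, hsm⟩ := dmain_t1 (M := 4 * M) hK
  have h1 : t1 < 1 := by linarith
  obtain ⟨U, hUM, hUs, hUl⟩ := hU t1 h0 h34
  obtain ⟨B, hBn, hBf⟩ := hB κ hκ t1 h0
  obtain ⟨H, hHn, hHf⟩ := exists_H (ι := I2) hν t1
  obtain ⟨E, hEn, hEf⟩ := exists_E (ι := I2) hκ h0 h1
  obtain ⟨σ, hσ⟩ := exists_sigX (ι := I2)
  obtain ⟨σ', hσ'⟩ := exists_sigY (ι := I2)
  obtain ⟨PX, hPX⟩ := exists_PX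
  obtain ⟨PY, hPn, hPY⟩ := exists_PY
  have O : Ops ν (cJ 3) κ t1 H E B σ σ' := ⟨hHf, hEf, hBf, hσ, hσ'⟩
  have hBM : ‖B‖ * ‖U‖ ≤ K * t1 ^ (1 / 4 : ℝ) * M :=
    mul_le_mul hBn hUM (norm_nonneg _) (mul_nonneg hK (Real.rpow_nonneg h0.le _))
  have hL : ‖(B U + B.flip U) ∘L PY‖ < 1 := by
    have a0 := (B U + B.flip U).opNorm_comp_le PY
    have a1 := norm_add_le (B U) (B.flip U)
    have a2 := B.le_opNorm U
    have a3 := B.flip.le_opNorm U
    have a4 := mul_le_mul_of_nonneg_left hPn (norm_nonneg (B U + B.flip U))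
    rw [ContinuousLinearMap.opNorm_flip] at a3
    linarith
  have hq0 : 0 < 1 - t1 := by linarith
  have hq1 : 1 - t1 < 1 := by linarith
  have hEH : ‖E ∘L H‖ < 1 := by
    have a1 := E.opNorm_comp_le H
    have a2 : (1 - t1) ^ (1 / 4 : ℝ) < 1 := Real.rpow_lt_one hq0.le hq1 (by norm_num)
    have a3 : ‖E‖ * ‖H‖ ≤ ‖E‖ * 1 := mul_le_mul_of_nonneg_left hHn (norm_nonneg _)
    linarith
  have hUσ : σ' U = U := O.sig_eq' hUs
  have pU : PY U = U := (P_fix hPY U).2 fun t =>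
    eqv_of_lift (κ := κ) (U.cont.comp (Continuous.prodMk_right t)) (U.div t) (by
      have e : (fun ξ => wt κ ξ • U.fn (t, ξ)) = Uh W (clamp t1 t) := funext (hUl t)
      rw [e]
      exact dmaine_Uh hW _)
  have pW : PX Wn = Wn := by
    have e : Eqv Wn.fn := eqv_of_lift (κ := κ) Wn.cont Wn.div (by rw [funext hWn]; exact hW)
    exact XX.ext fun ξ => by rw [hPX, e.pr_eq Wn.div]
  obtain ⟨ρ, ρ0, ρ1, v, y, hv0, hy⟩ := stableP H E B σ σ' U PX PY hL hEH
    (fun ε hε => O.approx hν hκ h0 h1 U hε) O.sig_sig O.H_sig O.E_sig hUσ O.B_sig (Ds I2)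
    dense_Ds (fun x hx => O.sig_mem hx) Wn (O.sig_eq hWs) (P_H O hPX hPY) (fun y => P_E O h1 hPX hPY y)
    (P_sig O hPY) (P_idem hPY) (fun y z hy hz => P_B O hκ hPY hy hz) pU pW
    (fun x hx => pr_mem_Ds hPX hx)
  have hseg := fun n => O.segment hκ h0 h1 h hUl (y := y n) (v := v n) (hy n).1 (hy n).2.2.1
  have hl : 0 < √(1 - t1) := Real.sqrt_pos.2 hq0
  obtain ⟨f, hf, hfe⟩ := exists_glue (ν := ν) (c := cJ 3) hq0 hq1
    (F := fun n s ξ => Uh W s ξ + lift κ (y n).fn s ξ)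
    (fun n => by simpa only [sub_sub_cancel] using (hseg n).1) fun n ξ => by
      have a1 := O.lift_E h1 (y n) (√(1 - t1) • ξ)
      rw [smul_smul, inv_mul_cancel₀ hl.ne', one_smul, ← (hy n).2.1, ← (hseg (n + 1)).2] at a1
      have a2 : Uh W t1 ξ = (1 - t1) • Uh W 0 (√(1 - t1) • ξ) := by
        simp [Uh]
      simp only [sub_sub_cancel]
      rw [smul_add, a1, smul_smul, mul_inv_cancel₀ hq0.ne', one_smul, a2]
  have hf0 : f 0 = fun ξ => wt κ ξ • (Wn + v 0).fn ξ := funext fun ξ => by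
    have a1 := hfe 0 0 ⟨by simp, by simpa using h0.le⟩ ξ
    simp only [pow_zero, sub_self, zero_div, Real.sqrt_one, one_smul] at a1
    rw [a1, (hseg 0).2, XX.fn_add, smul_add, hWn]
    simp [Uh]
  obtain ⟨d1, d2⟩ := Ds_lift hv0 κ
  refine ⟨f, hf, hf0 ▸ d1, hf0 ▸ d2, fun t ht => ?_, fun ε hε => ?_⟩
  · obtain ⟨n, -, htn⟩ := dmain_interval (N := 0) (t := t) hq0 hq1 (by simpa using ht)
    rw [funext (hfe n t htn)]
    exact dmaine_smul ((dmaine_Uh hW _).add
      (dmaine_lift ((P_fix hPY _).1 (hy n).2.2.2.2 _) κ)) _ _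
  have hI : 0 ≤ ∫ ξ, wt κ ξ := integral_nonneg fun ξ => wt_nonneg κ ξ
  obtain ⟨N, hN⟩ := exists_pow_lt_of_lt_one
    (show 0 < ε / (4 * (∫ ξ, wt κ ξ) + 1) by positivity) ρ1
  rw [lt_div_iff₀ (by positivity)] at hN
  refine ⟨1 - (1 - t1) ^ N, sub_nonneg.2 (pow_le_one₀ hq0.le hq1.le),
    sub_lt_self _ (pow_pos hq0 N), fun t ht => ?_⟩
  obtain ⟨n, hn, htn⟩ := dmain_interval hq0 hq1 ht
  have hr : 0 < (1 - t1) ^ n := pow_pos hq0 n
  have b1 : √(1 - t) * ∫ ξ, ‖f t ξ - Uh W t ξ‖ ≤ (4 * ρ ^ n) * ∫ ξ, wt κ ξ := by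
    refine dmain_int hκ hr (by linarith [htn.1]) fun ξ => ?_
    rw [hfe n t htn ξ, smul_add, Uh_scale W hr, add_sub_cancel_left, norm_smul,
      Real.norm_of_nonneg hr.le]
    refine mul_le_mul_of_nonneg_left ((((y n).vb κ _).bound _).trans ?_) hr.le
    exact mul_le_mul_of_nonneg_right ((hy n).2.2.2.1.trans
      (mul_le_mul_of_nonneg_right hPn (pow_pos ρ0 n).le)) (wt_nonneg _ _)
  have b2 : ρ ^ n ≤ ρ ^ N := pow_le_pow_of_le_one ρ0.le ρ1.le hn
  have b3 : 0 < ρ ^ N := pow_pos ρ0 N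
  nlinarith [mul_le_mul_of_nonneg_right b2 hI]

end

end Pool.Agent.Work.MP_6bf1e5_an.Ang
end
end

-- merged part: Pool.Agent.Work.MP_6bf1e5_an.Ang.PhysE
section
/-!
Equivariance in physical space. `Eqv.phys`: `ev_act`, `ev_sum`, `ev_const_mul` (integrability from `VB`); the trace vanishes by
`Eqv.pr_eq` and `pr_trace`. `PEq.ieq`: differentiate `eqv` at `s = 0` along `R s` from `exists_rotation` (component by component).
-/

open scoped ContDiff ENNReal FourierTransform Topology Matrix RealInnerProductSpace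
open Set MeasureTheory Filter Metric Pool.Agent.Work.MP_6bf1e5_an.Ens
  Pool.Agent.Work.MP_6bf1e5_an.Mat

namespace Pool.Agent.Work.MP_6bf1e5_an.Ang

noncomputable section

theorem Eqv.phys {κ C : ℝ} {f : R3 → V I2} (hκ : 0 < κ) (hf : VB κ C f) (e : Eqv f)
    (hd : DivFree f) : PEq (phys f) := by
  have hi : ∀ a i, Integrable fun ξ => f ξ a i := fun a i => (hf.adm hκ a i).integrable
  refine ⟨fun R hR a x => ?_, fun a => ?_, fun x => ?_⟩
  · ext i
    have h1 : ev (fun ξ => f ξ a i) (act R x) = ∑ b : I2, ∑ j,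
        ((R a.1 b.1 * R a.2 b.2 * R i j : ℝ) : ℂ) * ev (fun ξ => f ξ b j) x := by
      rw [← ev_act hR]
      simp only [e.eqv R hR, rho]
      rw [ev_sum _ fun b _ => integrable_finsetSum _ fun j _ => (hi b j).const_mul _]
      refine Finset.sum_congr rfl fun b _ => ?_
      rw [ev_sum _ fun j _ => (hi b j).const_mul _]
      exact Finset.sum_congr rfl fun j _ => ev_const_mul _ _ _
    have h2 : (∑ b : I2, (R a.1 b.1 * R a.2 b.2) • act R (Ens.phys f b x)) i
        = ∑ b : I2, (R a.1 b.1 * R a.2 b.2) * ∑ j, R i j * (ev (fun ξ => f ξ b j) x).re := by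
      rw [WithLp.ofLp_sum, Finset.sum_apply]
      refine Finset.sum_congr rfl fun b _ => ?_
      rw [PiLp.smul_apply, act_apply, smul_eq_mul]
      rfl
    rw [h2]
    show (ev (fun ξ => f ξ a i) (act R x)).re = _
    rw [h1, Complex.re_sum]
    refine Finset.sum_congr rfl fun b _ => ?_
    rw [Complex.re_sum, Finset.mul_sum]
    refine Finset.sum_congr rfl fun j _ => ?_
    rw [Complex.re_ofReal_mul, mul_assoc]
  · funext x
    simp only [Ens.phys, e.swap]
  · ext i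
    have h1 : ∀ ξ, ∑ p, f ξ (p, p) i = 0 := fun ξ => by
      rw [← e.pr_eq hd]
      exact pr_trace f ξ i
    have h2 := ev_sum Finset.univ (f := fun (p : Fin 3) ξ => f ξ (p, p) i)
      (fun p _ => hi (p, p) i) x
    have h3 := ev_const_mul 0 (fun _ => 0) x
    simp only [h1] at h2
    simp only [mul_zero, zero_mul] at h3
    rw [h3] at h2
    rw [WithLp.ofLp_sum, Finset.sum_apply]
    show ∑ p, (ev (fun ξ => f ξ (p, p) i) x).re = 0
    rw [← Complex.re_sum, ← h2, Complex.zero_re]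

theorem PEq.ieq {u : I2 → R3 → R3} (h : PEq u) (hs : ∀ a, ContDiff ℝ ∞ (u a)) : IEq u := by
  refine ⟨hs, fun k a x => ?_, h.swap, h.trace⟩
  obtain ⟨R, hR, h0, -, hD⟩ := exists_rotation k
  have d1 : HasDerivAt (fun s => act (R s) x) (cr k x) 0 := by
    have : HasDerivAt (fun s => fun i => ∑ j, R s i j * x j) (fun i => ∑ j, Km k i j * x j) 0 :=
      hasDerivAt_pi.2 fun i => HasDerivAt.fun_sum fun j _ => (hD i j).mul_const _
    have h2 := (PiLp.continuousLinearEquiv 2 ℝ fun _ : Fin 3 => ℝ).symm.hasFDerivAt.comp_hasDerivAt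
      (0 : ℝ) this
    have e1 : (fun s => act (R s) x) = (PiLp.continuousLinearEquiv 2 ℝ fun _ : Fin 3 => ℝ).symm ∘
        fun s => fun i => ∑ j, R s i j * x j := by
      funext s
      ext i
      simp [act_apply]
    have e2 : cr k x = WithLp.toLp 2 fun i => ∑ j, Km k i j * x j := by
      ext i
      simp [cr_apply]
    rw [e1, e2]
    exact h2
  have d2 : HasDerivAt (fun s => u a (act (R s) x)) (fderiv ℝ (u a) x (cr k x)) 0 := by
    have h1 : HasFDerivAt (u a) (fderiv ℝ (u a) x) (act (R 0) x) := by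
      rw [h0, act_one]
      exact ((hs a).differentiable (by simp) x).hasFDerivAt
    exact h1.comp_hasDerivAt (0 : ℝ) d1
  ext i
  have d3 : HasDerivAt (fun s => u a (act (R s) x) i) (fderiv ℝ (u a) x (cr k x) i) 0 :=
    (EuclideanSpace.proj i : R3 →L[ℝ] ℝ).hasFDerivAt.comp_hasDerivAt (0 : ℝ) d2
  have e : (fun s => u a (act (R s) x) i)
      = fun s => ∑ b : I2, (R s a.1 b.1 * R s a.2 b.2) * ∑ j, R s i j * u b x j := by
    funext s
    rw [h.eqv _ (hR s), WithLp.ofLp_sum, Finset.sum_apply]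
    refine Finset.sum_congr rfl fun b _ => ?_
    rw [PiLp.smul_apply, act_apply, smul_eq_mul]
  have d4 : HasDerivAt
      (fun s => ∑ b : I2, (R s a.1 b.1 * R s a.2 b.2) * ∑ j, R s i j * u b x j)
      (∑ b : I2, ((Km k a.1 b.1 * R 0 a.2 b.2 + R 0 a.1 b.1 * Km k a.2 b.2)
        * ∑ j, R 0 i j * u b x j + (R 0 a.1 b.1 * R 0 a.2 b.2) * ∑ j, Km k i j * u b x j)) 0 :=
    HasDerivAt.fun_sum fun b _ => ((hD _ _).fun_mul (hD _ _)).fun_mul
      (HasDerivAt.fun_sum fun j _ => (hD i j).mul_const _)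
  rw [e] at d3
  have e2 := d3.unique d4
  obtain ⟨p, q⟩ := a
  rw [h0] at e2
  simp only [Matrix.one_apply, Fintype.sum_prod_type, ite_mul, one_mul, zero_mul, mul_ite, mul_one,
    mul_zero, add_mul, Finset.sum_add_distrib, Finset.sum_ite_eq, Finset.mem_univ, if_true,
    Finset.sum_ite_irrel, Finset.sum_const_zero] at e2
  rw [rot, PiLp.sub_apply, e2, cr_apply, PiLp.neg_apply, WithLp.ofLp_sum, Finset.sum_apply]
  simp only [PiLp.add_apply, PiLp.smul_apply, smul_eq_mul, Finset.sum_add_distrib]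
  ring

end

end Pool.Agent.Work.MP_6bf1e5_an.Ang
end

-- merged part: Pool.Agent.Work.MP_6bf1e5_an.Ang.Final
section
/-!
Assembly.
-/

open scoped ContDiff ENNReal FourierTransform Topology Matrix RealInnerProductSpace
open Set MeasureTheory Filter Metric Pool.Agent.Work.MP_6bf1e5_an.Ens
  Pool.Agent.Work.MP_6bf1e5_an.Mat

namespace Pool.Agent.Work.MP_6bf1e5_an.Ang

noncomputable section

theorem final_smooth {ν : ℝ} {I : Set ℝ} {u0 : I2 → R3 → R3} {u : I2 → R3 → ℝ → R3}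
    {p : I2 → R3 → ℝ → ℝ} (h : CSol ν (cJ 3) u0 I u p) {t : ℝ} (ht : t ∈ I) (a : I2) :
    ContDiff ℝ ∞ fun x => u a x t :=
  contDiff_euclidean.2 fun i => (h.ju a i).slice ht

theorem final_ieq {ν : ℝ} {F : ℝ → R3 → V I2} {p : I2 → R3 → ℝ → ℝ} (hF : FSol ν (cJ 3) F)
    (he : ∀ t ∈ Ico (0 : ℝ) 1, Eqv (F t))
    (hu : CSol ν (cJ 3) (phys (F 0)) (Ico 0 1) (fun a x t => phys (F t) a x) p) :
    ∀ t ∈ Ico (0 : ℝ) 1, IEq (phys (F t)) := by
  intro t ht
  obtain ⟨T, hT, hT1, htT⟩ := main_T ht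
  obtain ⟨C, κ, -, hκ, hb⟩ := bounds_vb (hF T hT hT1)
  exact ((he t ht).phys hκ (hb t htT) ((hF T hT hT1).div t htT)).ieq (final_smooth hu ht)

theorem final_congr {ν : ℝ} {Λ I : Set ℝ} {u0 : R3 → R3} {u v f : R3 → ℝ → R3} {p : R3 → ℝ → ℝ}
    (h : GSol ν Λ u0 I u p f) (h0 : (0 : ℝ) ∈ I) (e : ∀ t ∈ I, ∀ x, v x t = u x t) :
    GSol ν Λ u0 I v p f := by
  refine ⟨h.smooth_u.congr fun z hz => e z.2 hz.2 z.1, h.smooth_p, h.smooth_f,
    fun x t ht i => ?_, fun x t ht => ?_, fun x => (e 0 h0 x).trans (h.initial x),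
    fun t ht => ?_, h.removed⟩
  · rw [derivWithin_congr (f := fun s => u x s i) (fun s hs => by rw [e s hs]) (by rw [e t ht])]
    simp only [e t ht]
    exact h.momentum x t ht i
  · simp only [e t ht]
    exact h.divFree x t ht
  · simp only [e t ht]
    exact h.kept t ht

theorem final_lin (r : ℝ) (u w : I2 → R3 → R3) (x y : R3) :
    r • one u x - one w y = one (fun a _ => r • u a x - w a y) y := by
  simp only [one]
  module

theorem main {ν : ℝ} (hν : 0 < ν) :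
    ∃ u0 : SchwartzMap R3 R3, (∀ x, ∑ i, pd i (fun y => u0 y i) x = 0) ∧
      ∀ Λ : Set ℝ, 6 ∈ Λ → 20 ∉ Λ →
      (∃ u p f, GSol ν Λ u0 (Ico 0 1) u p f ∧
        (∀ t ∈ Ico (0 : ℝ) 1, en (fun x => u x t) ≤ en u0 ∧
          (∀ x, cas (fun y => u y t) x = (6 : ℝ) • u x t ∧
            cas (fun y => f y t) x = (20 : ℝ) • f x t) ∧
          ∀ ψ : ℝ → ℝ, ContDiff ℝ ∞ ψ → HasCompactSupport ψ →
            ∫ x, ψ (‖x‖ ^ 2) * ⟪f x t, u x t⟫ = 0 ∧
              ∫ x, ψ (‖x‖ ^ 2) * ⟪f x t, curl (fun y => u y t) x⟫ = 0) ∧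
        ∃ W : R3 → R3, W ≠ 0 ∧ (∃ C : ℝ, ∀ y, ‖W y‖ ≤ C / (1 + ‖y‖)) ∧
          (∃ q g, GSol ν Λ W (Ico 0 1) (fun x t => (√(1 - t))⁻¹ • W ((√(1 - t))⁻¹ • x)) q g) ∧
          ∀ ε > 0, ∃ t0 < 1, ∀ t ∈ Ico t0 1, ∀ y, ‖√(1 - t) • u (√(1 - t) • y) t - W y‖ ≤ ε) ∧
      ¬∃ u p f, GSol ν Λ u0 (Ici 0) u p f ∧
        ∃ C < (⊤ : ℝ≥0∞), ∀ t ≥ 0, en (fun x => u x t) ≤ C := by
  obtain ⟨W, h, hW, hne⟩ := exists_profileE hν
  obtain ⟨f, hf, hs, hk, he, hconv⟩ := exists_fsolE hν h hW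
  obtain ⟨p, hu⟩ := hf.classical
  obtain ⟨u0, hu0⟩ := exists_schwartz hs hk
  have z01 : (0 : ℝ) ∈ Ico (0 : ℝ) 1 := ⟨le_rfl, zero_lt_one⟩
  have ie := final_ieq hf he hu
  obtain ⟨U0, e0⟩ : ∃ U0 : SchwartzMap R3 R3, (U0 : R3 → R3) = one (phys (f 0)) :=
    ⟨(-(7 / 12) : ℝ) • (u0 (0, 0) + u0 (1, 1) - (2 : ℝ) • u0 (2, 2)), funext fun x => by
      simp only [one, smul_apply, sub_apply, add_apply, hu0]⟩
  have h0 : ∃ C : ℝ, ∀ ξ, ‖f 0 ξ‖ ≤ C := hs.continuous.bounded_above_of_compact_support hk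
  have hen : ∀ T, 0 < T → T < 1 → ∃ C < (⊤ : ℝ≥0∞), ∀ t ∈ Icc 0 T, en (one (phys (f t))) ≤ C := by
    intro T k1 k2
    obtain ⟨C, hC, hE⟩ := (hf T k1 k2).energy_lt hν h0
    refine ⟨3 * C, ENNReal.mul_lt_top (by simp) hC, fun t ht => ?_⟩
    exact (en_one_le fun a => (final_smooth hu (Icc_subset_Ico_right k2 ht) a).continuous).trans
      (mul_le_mul_right (hE t ht) 3)
  have hlim : ∀ ε > 0, ∃ t0, 0 ≤ t0 ∧ t0 < 1 ∧ ∀ t ∈ Ico t0 1, ∀ y,
      ‖√(1 - t) • one (phys (f t)) (√(1 - t) • y) - one (phys W) y‖ ≤ ε := by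
    intro ε hε
    obtain ⟨t0, k1, k2, k3⟩ := hconv (ε / 9) (by positivity)
    refine ⟨t0, k1, k2, fun t ht y => ?_⟩
    obtain ⟨T, hT, hT1, htT⟩ := main_T ⟨k1.trans ht.1, ht.2⟩
    obtain ⟨C, κ, -, hκ, hb⟩ := bounds_vb (hf T hT hT1)
    obtain ⟨C', κ', -, hκ', hb'⟩ := bounds_vb (h.fsol T hT hT1)
    have hr : 0 < √(1 - t) := Real.sqrt_pos.2 (sub_pos.2 ht.2)
    rw [final_lin]
    refine (norm_one_le _ y (C := ε / 3) fun a => ?_).trans (le_of_eq (by ring))
    have e : phys W a y = √(1 - t) • phys (Uh W t) a (√(1 - t) • y) := by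
      rw [phys_Uh W ht.2, inv_smul_smul₀ hr.ne', smul_inv_smul₀ hr.ne']
    rw [e, ← smul_sub, norm_smul, Real.norm_of_nonneg hr.le]
    have h4 := mul_le_mul_of_nonneg_left
      (norm_phys_sub_le hκ hκ' (hb t htT) (hb' t htT) a (√(1 - t) • y)) hr.le
    linarith [k3 t ht]
  obtain ⟨q0, hq0⟩ := csol_gsol (Λ := {6}) hu (uniqueDiffOn_Ico 0 1) ie rfl (by norm_num)
  refine ⟨U0, fun x => ?_, fun Λ h6 h20 => ?_⟩
  · simp only [e0]
    exact hq0.divFree x 0 z01
  obtain ⟨q, hq⟩ := csol_gsol hu (uniqueDiffOn_Ico 0 1) ie h6 h20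
  have hqT := fun T (k1 : 0 < T) (k2 : T < 1) =>
    hq.mono (Icc_subset_Ico_right k2) (uniqueDiffOn_Icc k1)
  rw [e0]
  refine ⟨⟨_, _, _, hq, fun t ht => ⟨?_, fun x => ⟨(ie t ht).cas_one x, (ie t ht).cas_frc x⟩,
    (hq.sanity ht).2⟩, one (phys W), hne, ?_, ?_, fun ε hε => ?_⟩, ?_⟩
  · obtain ⟨T, hT, hT1, htT⟩ := main_T ht
    exact (hqT T hT hT1).energy_le hν hT (hen T hT hT1) t htT
  · obtain ⟨C, hC⟩ := h.decay
    exact ⟨3 * C, fun y => (norm_one_le _ y fun a => hC a y).trans (le_of_eq (by ring))⟩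
  · obtain ⟨p', hp'⟩ := h.fsol.classical
    have ie' := final_ieq h.fsol (fun t _ => hW.scale (fun _ => 1 - t) _) hp'
    obtain ⟨q', hq'⟩ := csol_gsol hp' (uniqueDiffOn_Ico 0 1) ie' h6 h20
    have e : Uh W 0 = W := funext fun ξ => by simp [Uh]
    rw [e] at hq'
    refine ⟨_, _, final_congr hq' z01 fun t ht x => ?_⟩
    simp only [one, phys_Uh W ht.2]
    module
  · obtain ⟨t0, -, k1, k2⟩ := hlim ε hε
    exact ⟨t0, k1, k2⟩
  · rintro ⟨v, q', g, hv, C, hC, hE⟩
    have huv : ∀ t ∈ Ico (0 : ℝ) 1, ∀ x, v x t = one (phys (f t)) x := by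
      intro t ht
      obtain ⟨T, hT, hT1, htT⟩ := main_T ht
      obtain ⟨M, hM⟩ := (hf T hT hT1).bounded
      exact (hqT T hT hT1).unique hν hT (hv.mono Icc_subset_Ici_self (uniqueDiffOn_Icc hT))
        (hen T hT hT1) ⟨C, hC, fun s hs => hE s hs.1⟩ ⟨3 * M, fun s hs x i =>
          one_bounded (final_smooth hu (Icc_subset_Ico_right hT1 hs)) (hM s hs) x i⟩ t htT
    obtain ⟨y, hy⟩ := Function.ne_iff.1 hne
    have hδ : 0 < ‖one (phys W) y‖ := norm_pos_iff.2 hy
    obtain ⟨t0, k1, k2, k3⟩ := hlim _ (half_pos hδ)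
    have c1 : Continuous fun t : ℝ => √(1 - t) := by fun_prop
    have c2 : ContinuousAt (fun t : ℝ => v (√(1 - t) • y) t) 1 :=
      ContinuousAt.comp (f := fun t : ℝ => (√(1 - t) • y, t))
        (hv.smooth_u.continuousOn.continuousAt
          (prod_mem_nhds univ_mem (Ici_mem_nhds zero_lt_one)))
        ((c1.smul continuous_const).prodMk continuous_id).continuousAt
    have c3 := (((c1.continuousAt.smul c2).sub
      (continuousAt_const (y := one (phys W) y))).norm.tendsto).mono_left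
        (nhdsWithin_le_nhds (s := Iio 1))
    have h4 := le_of_tendsto c3 (by
      filter_upwards [Ico_mem_nhdsLT k2] with t ht
      have h5 := k3 t ht y
      rw [← huv t ⟨k1.trans ht.1, ht.2⟩] at h5
      exact h5)
    simp only [Pi.sub_apply, Pi.smul_apply', sub_self, Real.sqrt_zero, zero_smul, zero_sub,
      norm_neg] at h4
    linarith

end

end Pool.Agent.Work.MP_6bf1e5_an.Ang
end
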