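import Pool.Agent.Work.MP_6bf1e5_an.Ang.Stmt
import Pool.Agent.Work.MP_6bf1e5_an.Mat.Defs
import Pool.Agent.Work.MP_6bf1e5_an.Ens.LocEn
import Pool.Agent.Work.MP_6bf1e5_an.Ens.Stable

-- merged part: Pool.Agent.Work.MP_6bf1e5_an.Ang.JTr
section
-- merged part: Pool.Agent.Work.MP_6bf1e5_an.Ang.Defs
section
/-!
Working definitions for the angular projection (none of them occurs in the final statement).
The plan is in the team store, file h1_g9_plan.md.
-/

open scoped ContDiff ENNReal Topology Matrix RealInnerProductSpace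
open Set MeasureTheory Filter Pool.Agent.Work.MP_6bf1e5_an.Ens Pool.Agent.Work.MP_6bf1e5_an.Mat

namespace Pool.Agent.Work.MP_6bf1e5_an.Ang

noncomputable section

/-! ### Vector fields -/

/-- A smooth function of `|x|²`. -/
def Rad (θ : R3 → ℝ) : Prop := ∃ ψ : ℝ → ℝ, ContDiff ℝ ∞ ψ ∧ ∀ x, θ x = ψ (‖x‖ ^ 2)

/-- A smooth vector field with compact support. -/
def TestV (φ : R3 → R3) : Prop := ContDiff ℝ ∞ φ ∧ HasCompactSupport φ

/-- The generator of rotations on scalar functions. -/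
def ang (k : Fin 3) (f : R3 → ℝ) (x : R3) : ℝ := -fderiv ℝ f x (cr k x)

/-- The transport term `(a·∇) b`. -/
def tr (a b : R3 → R3) (x : R3) : R3 := fderiv ℝ b x (a x)

/-- The Newton potential of a vector field. -/
def nwV (φ : R3 → R3) (x : R3) : R3 := WithLp.toLp 2 fun i => nw (fun y => φ y i) x

/-- Polynomial vector fields. -/
def PolyV : Submodule ℝ (R3 → R3) :=
  Submodule.span ℝ {P | ∃ (α : Fin 3 → ℕ) (i : Fin 3),
    P = fun x => (∏ j, x j ^ α j) • (EuclideanSpace.single i (1 : ℝ) : R3)}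

/-! ### Solutions with a general multiplier in place of the pressure gradient -/

/-- `CSol` with a smooth field `q` in place of the pressure gradient. -/
structure QSol {ι : Type} [Fintype ι] (ν : ℝ) (c : ι → ι → ι → ℝ) (u0 : ι → R3 → R3)
    (I : Set ℝ) (u : ι → R3 → ℝ → R3) (q : ι → R3 → ℝ → R3) : Prop where
  smooth_u : ∀ a, ContDiffOn ℝ ∞ (fun z : R3 × ℝ => u a z.1 z.2) (univ ×ˢ I)
  smooth_q : ∀ a, ContDiffOn ℝ ∞ (fun z : R3 × ℝ => q a z.1 z.2) (univ ×ˢ I)
  momentum : ∀ a x, ∀ t ∈ I, ∀ i,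
    derivWithin (fun s => u a x s i) I t
      + ∑ b, ∑ d, c a b d * ∑ j, u b x t j * pd j (fun y => u d y t i) x
      + q a x t i = ν * ∑ j, pd j (pd j fun y => u a y t i) x
  divFree : ∀ a x, ∀ t ∈ I, ∑ i, pd i (fun y => u a y t i) x = 0
  initial : ∀ a x, u a x 0 = u0 a x

/-- The multiplier `q` does not see the cut-off solenoidal parts of the field `Φ`. -/
def Blind (S : Set ℝ) (q : R3 → ℝ → R3) (Φ : Fin 3 → R3 → ℝ) : Prop :=
  ∀ θ, Test θ → Rad θ → ∀ s ∈ S, ∑ i, ∫ x, q x s i *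
    ∑ k, pd k (fun y => θ y * (pd k (nw (Φ i)) y - pd i (nw (Φ k)) y)) x = 0

/-- `Pair` for `QSol`. -/
structure QPair {ι : Type} [Fintype ι] (ν : ℝ) (c : ι → ι → ι → ℝ) (T E0 M0 M1 : ℝ)
    (u p v q : ι → R3 → ℝ → R3) : Prop where
  hν : 0 < ν
  hT : 0 < T
  hc : ∀ a b d, c a b d = c d b a
  hu : QSol ν c (fun a x => u a x 0) (Icc 0 T) u p
  hv : QSol ν c (fun a x => v a x 0) (Icc 0 T) v q
  iu : ∀ t ∈ Icc 0 T, Integrable (den fun a x => u a x t)
  iv : ∀ t ∈ Icc 0 T, Integrable (den fun a x => v a x t)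
  eu : ∀ t ∈ Icc 0 T, ∫ x, den (fun a x => u a x t) x ≤ E0
  ev : ∀ t ∈ Icc 0 T, ∫ x, den (fun a x => v a x t) x ≤ E0
  b0 : ∀ t ∈ Icc 0 T, ∀ a x i, |u a x t i| ≤ M0
  b1 : ∀ t ∈ Icc 0 T, ∀ a x i j, |pd j (fun y => u a y t i) x| ≤ M1
  ou : ∀ ψ, Test ψ → Rad ψ → ∀ t ∈ Icc 0 T, ∀ a,
    Blind (Icc 0 T) (p a) fun i x => ψ x * dif u v t a x i
  ov : ∀ ψ, Test ψ → Rad ψ → ∀ t ∈ Icc 0 T, ∀ a,
    Blind (Icc 0 T) (q a) fun i x => ψ x * dif u v t a x i

/-! ### Equivariant families -/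

/-- The index set. -/
abbrev I2 := Fin 3 × Fin 3

/-- Real `3 × 3` matrices. -/
abbrev M3 := Matrix (Fin 3) (Fin 3) ℝ

/-- A matrix acts on a point. -/
def act (R : M3) (x : R3) : R3 := WithLp.toLp 2 (R *ᵥ x.ofLp)

/-- A matrix acts on the values of a family. -/
def rho (R : M3) (v : V I2) : V I2 := fun a i =>
  ∑ b : I2, ∑ j, ((R a.1 b.1 * R a.2 b.2 * R i j : ℝ) : ℂ) * v b j

/-- Equivariant and symmetric families on the Fourier side. -/
structure Eqv (f : R3 → V I2) : Prop where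
  eqv : ∀ R : M3, R * Rᵀ = 1 → ∀ ξ, f (act R ξ) = rho R (f ξ)
  swap : ∀ ξ a, f ξ a.swap = f ξ a

/-- The angular part of an equivariant divergence-free family. -/
def mm (w : R3) : V I2 := fun a i => ((∑ j, Sb a i j * w j - w a.1 * w a.2 * w i : ℝ) : ℂ)

/-- The third unit vector. -/
def e3 : R3 := EuclideanSpace.single 2 1

/-- A projection onto the equivariant divergence-free families. -/
def pr (f : R3 → V I2) (ξ : R3) : V I2 :=
  (f (‖ξ‖ • e3) (0, 2) 0 - f (-(‖ξ‖ • e3)) (0, 2) 0) • mm (‖ξ‖⁻¹ • ξ)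

/-- Equivariant, symmetric and traceless families in physical space. -/
structure PEq (u : I2 → R3 → R3) : Prop where
  eqv : ∀ R : M3, R * Rᵀ = 1 → ∀ a x,
    u a (act R x) = ∑ b : I2, (R a.1 b.1 * R a.2 b.2) • act R (u b x)
  swap : ∀ a : I2, u a.swap = u a
  trace : ∀ x, ∑ p, u (p, p) x = 0

/-- The matrix of `cr k`. -/
def Km (k i j : Fin 3) : ℝ := cr k (EuclideanSpace.single j 1) i

/-- The infinitesimal form of `PEq`. -/
structure IEq (u : I2 → R3 → R3) : Prop where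
  smooth : ∀ a, ContDiff ℝ ∞ (u a)
  inf : ∀ k (a : I2) x, rot k (u a) x =
    -∑ s, (Km k a.1 s • u (s, a.2) x + Km k a.2 s • u (a.1, s) x)
  swap : ∀ a : I2, u a.swap = u a
  trace : ∀ x, ∑ p, u (p, p) x = 0

/-- The single field. -/
def one (u : I2 → R3 → R3) (x : R3) : R3 :=
  (-(7 / 12) : ℝ) • (u (0, 0) x + u (1, 1) x - (2 : ℝ) • u (2, 2) x)

/-- The transport term of the system. -/
def trJ (u : I2 → R3 → R3) (a : I2) (x : R3) : R3 := ∑ b, ∑ d, cJ 3 a b d • tr (u b) (u d) x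

/-- The part of the transport term of `one u` with `j = 4`. -/
def frc (u : I2 → R3 → R3) (x : R3) : R3 :=
  tr (one u) (one u) x - one (trJ u) x - (49 / 120 : ℝ) • ∑ p, trJ u (p, p) x

/-! ### The conclusion -/

/-- The blow-up part of the theorem. -/
def ABlowup (ν : ℝ) : Prop :=
  ∃ u0 : SchwartzMap R3 R3, (∀ x, ∑ i, pd i (fun y => u0 y i) x = 0) ∧
    (∀ x, cas u0 x = (6 : ℝ) • u0 x) ∧ ∀ Λ : Set ℝ, 6 ∈ Λ → 20 ∉ Λ →
    (∃ u p f, GSol ν Λ u0 (Ico 0 1) u p f ∧ (∀ t ∈ Ico (0 : ℝ) 1, en (fun x => u x t) ≤ en u0) ∧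
      ∃ W : R3 → R3, W ≠ 0 ∧ (∃ C : ℝ, ∀ y, ‖W y‖ ≤ C / (1 + ‖y‖)) ∧
        (∃ q g, GSol ν Λ W (Ico 0 1) (fun x t => (√(1 - t))⁻¹ • W ((√(1 - t))⁻¹ • x)) q g) ∧
        ∀ ε > 0, ∃ t0 < 1, ∀ t ∈ Ico t0 1, ∀ y, ‖√(1 - t) • u (√(1 - t) • y) t - W y‖ ≤ ε) ∧
    ¬∃ u p f, GSol ν Λ u0 (Ici 0) u p f ∧ ∃ C < (⊤ : ℝ≥0∞), ∀ t ≥ 0, en (fun x => u x t) ≤ C

end

end Pool.Agent.Work.MP_6bf1e5_an.Ang
end

-- merged part: Pool.Agent.Work.MP_6bf1e5_an.Ang.JCalc
section
/-!
Pointwise calculus for `rot` and `cas`. `cr k` is linear (`exists_crL`), so `rot k u = L ∘ u - (fderiv u) (L ·)`.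
For `rot_rad`: the derivative of `ψ (|x|²)` in the direction `cr k x` vanishes because `x · (e_k × x) = 0`.
-/

open scoped ContDiff ENNReal FourierTransform Topology Matrix RealInnerProductSpace
open Set MeasureTheory Filter Metric Pool.Agent.Work.MP_6bf1e5_an.Ens
  Pool.Agent.Work.MP_6bf1e5_an.Mat

namespace Pool.Agent.Work.MP_6bf1e5_an.Ang

noncomputable section

variable {u v φ : R3 → R3} {θ : R3 → ℝ}

theorem cr_apply (k : Fin 3) (w : R3) (i : Fin 3) : cr k w i = ∑ j, Km k i j * w j := by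
  fin_cases k <;> fin_cases i <;> simp [cr, Km, crossProduct, Fin.sum_univ_three]

theorem Km_anti (k i j : Fin 3) : Km k i j = -Km k j i := by
  fin_cases k <;> fin_cases i <;> fin_cases j <;> simp [cr, Km, crossProduct]

theorem exists_crL (k : Fin 3) : ∃ L : R3 →L[ℝ] R3, ∀ w, L w = cr k w :=
  ⟨LinearMap.toContinuousLinearMap ((WithLp.linearEquiv 2 ℝ (Fin 3 → ℝ)).symm.toLinearMap ∘ₗ
    crossProduct (Pi.single k 1) ∘ₗ (WithLp.linearEquiv 2 ℝ (Fin 3 → ℝ)).toLinearMap),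
    fun _ => rfl⟩

theorem jcalc_contDiff_cr (k : Fin 3) : ContDiff ℝ ∞ (cr k) := by
  obtain ⟨L, hL⟩ := exists_crL k
  rw [← funext hL]
  exact L.contDiff

theorem jcalc_zero (k : Fin 3) : cr k 0 = 0 := by
  obtain ⟨L, hL⟩ := exists_crL k
  rw [← hL, map_zero]

theorem jcalc_dir {F : Type} [NormedAddCommGroup F] [NormedSpace ℝ F] {f : R3 → F}
    (hf : ContDiff ℝ ∞ f) (k : Fin 3) : ContDiff ℝ ∞ fun x => fderiv ℝ f x (cr k x) :=
  (hf.fderiv_right (m := ∞) le_rfl).clm_apply (jcalc_contDiff_cr k)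

theorem jcalc_supp {F : Type} [NormedAddCommGroup F] [NormedSpace ℝ F] {f : R3 → F}
    (hf : HasCompactSupport f) (k : Fin 3) : HasCompactSupport fun x => fderiv ℝ f x (cr k x) :=
  (hf.fderiv ℝ).mono fun x hx h => hx (by simp only [h, zero_apply])

theorem ang_eq (k : Fin 3) (f : R3 → ℝ) (x : R3) :
    ang k f x = -∑ j, cr k x j * pd j f x := by
  rw [ang, fderiv_eq_sum_pd]

theorem rot_apply (hu : ContDiff ℝ ∞ u) (k : Fin 3) (x : R3) (i : Fin 3) :
    rot k u x i = cr k (u x) i + ang k (fun y => u y i) x := by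
  have h := ((EuclideanSpace.proj i : R3 →L[ℝ] ℝ).hasFDerivAt.comp x
    (hu.differentiable (by simp) x).hasFDerivAt).fderiv
  have e : fderiv ℝ (fun y => u y i) x (cr k x) = fderiv ℝ u x (cr k x) i :=
    (congrArg (fun L : R3 →L[ℝ] ℝ => L (cr k x)) h)
  rw [rot, ang, e, PiLp.sub_apply, sub_eq_add_neg]

theorem contDiff_ang {f : R3 → ℝ} (hf : ContDiff ℝ ∞ f) (k : Fin 3) :
    ContDiff ℝ ∞ (ang k f) := (jcalc_dir hf k).neg

theorem test_ang {f : R3 → ℝ} (hf : Test f) (k : Fin 3) : Test (ang k f) :=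
  ⟨contDiff_ang hf.1 k, (jcalc_supp hf.2 k).neg⟩

theorem contDiff_rot (hu : ContDiff ℝ ∞ u) (k : Fin 3) : ContDiff ℝ ∞ (rot k u) :=
  ((jcalc_contDiff_cr k).comp hu).sub (jcalc_dir hu k)

theorem contDiff_cas (hu : ContDiff ℝ ∞ u) : ContDiff ℝ ∞ (cas u) :=
  (ContDiff.sum fun k _ => contDiff_rot (contDiff_rot hu k) k).neg

theorem TestV.rot (h : TestV φ) (k : Fin 3) : TestV (rot k φ) :=
  ⟨contDiff_rot h.1 k, (h.2.comp_left (jcalc_zero k)).sub (jcalc_supp h.2 k)⟩

theorem TestV.cas (h : TestV φ) : TestV (cas φ) := by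
  refine ⟨contDiff_cas h.1, ?_⟩
  have e : Ang.cas φ = -(Ang.rot 0 (Ang.rot 0 φ) + Ang.rot 1 (Ang.rot 1 φ) +
      Ang.rot 2 (Ang.rot 2 φ)) := by
    funext x
    simp [Ang.cas, Fin.sum_univ_three]
  rw [e]
  exact ((((h.rot 0).rot 0).2.add ((h.rot 1).rot 1).2).add ((h.rot 2).rot 2).2).neg

theorem TestV.comp (h : TestV φ) (i : Fin 3) : Test fun x => φ x i :=
  ⟨(EuclideanSpace.proj i : R3 →L[ℝ] ℝ).contDiff.comp h.1,
    h.2.comp_left (g := fun w : R3 => w i) rfl⟩

theorem testV_of_comp (h : ∀ i, Test fun x => φ x i) : TestV φ := by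
  refine ⟨contDiff_euclidean.2 fun i => (h i).1, ?_⟩
  refine HasCompactSupport.intro (isCompact_iUnion fun i => (h i).2.isCompact) fun x hx => ?_
  ext i
  exact image_eq_zero_of_notMem_tsupport (f := fun x => φ x i) fun hi => hx (mem_iUnion.2 ⟨i, hi⟩)

theorem testV_smul (hθ : Test θ) (hu : ContDiff ℝ ∞ u) : TestV fun x => θ x • u x :=
  ⟨hθ.1.smul hu, hθ.2.smul_right⟩

theorem rot_add (hu : ContDiff ℝ ∞ u) (hv : ContDiff ℝ ∞ v) (k : Fin 3) :
    rot k (fun y => u y + v y) = fun x => rot k u x + rot k v x := by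
  obtain ⟨L, hL⟩ := exists_crL k
  funext x
  rw [rot, rot, rot, fderiv_fun_add (hu.differentiable (by simp) x) (hv.differentiable (by simp) x),
    ← hL (u x + v x), map_add, hL, hL, add_apply]
  abel

theorem rot_smul (r : ℝ) (hu : ContDiff ℝ ∞ u) (k : Fin 3) :
    rot k (fun y => r • u y) = fun x => r • rot k u x := by
  obtain ⟨L, hL⟩ := exists_crL k
  funext x
  rw [rot, rot, fderiv_fun_const_smul (hu.differentiable (by simp) x), ← hL (r • u x), map_smul,
    hL, smul_apply, smul_sub]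

theorem rot_sum {α : Type} (s : Finset α) {w : α → R3 → R3} (hw : ∀ a, ContDiff ℝ ∞ (w a))
    (k : Fin 3) : rot k (fun y => ∑ a ∈ s, w a y) = fun x => ∑ a ∈ s, rot k (w a) x := by
  obtain ⟨L, hL⟩ := exists_crL k
  funext x
  rw [rot, fderiv_fun_sum fun a _ => (hw a).differentiable (by simp) x, ← hL (∑ a ∈ s, w a x),
    map_sum, _root_.sum_apply, ← Finset.sum_sub_distrib]
  exact Finset.sum_congr rfl fun a _ => by rw [hL, rot]

theorem cas_add (hu : ContDiff ℝ ∞ u) (hv : ContDiff ℝ ∞ v) :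
    cas (fun y => u y + v y) = fun x => cas u x + cas v x := by
  funext x
  simp only [cas, rot_add hu hv, rot_add (contDiff_rot hu _) (contDiff_rot hv _),
    Finset.sum_add_distrib, neg_add]

theorem cas_smul (r : ℝ) (hu : ContDiff ℝ ∞ u) :
    cas (fun y => r • u y) = fun x => r • cas u x := by
  funext x
  simp only [cas, rot_smul r hu, rot_smul r (contDiff_rot hu _), Finset.smul_sum, smul_neg]

theorem cas_sum {α : Type} (s : Finset α) {w : α → R3 → R3} (hw : ∀ a, ContDiff ℝ ∞ (w a)) :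
    cas (fun y => ∑ a ∈ s, w a y) = fun x => ∑ a ∈ s, cas (w a) x := by
  funext x
  simp only [cas, rot_sum s hw, rot_sum s fun a => contDiff_rot (hw a) _,
    Finset.sum_neg_distrib]
  rw [Finset.sum_comm]

theorem Rad.contDiff (hθ : Rad θ) : ContDiff ℝ ∞ θ := by
  obtain ⟨ψ, h1, h2⟩ := hθ
  rw [funext h2]
  exact h1.comp (contDiff_norm_sq ℝ)

theorem jcalc_rad (hθ : Rad θ) (k : Fin 3) (x : R3) : fderiv ℝ θ x (cr k x) = 0 := by
  obtain ⟨ψ, h1, h2⟩ := hθ
  have h3 := (((h1.differentiable (by simp) (‖x‖ ^ 2)).hasDerivAt.comp_hasFDerivAt x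
    (hasStrictFDerivAt_norm_sq x).hasFDerivAt)).fderiv
  have h4 : ⟪x, cr k x⟫ = 0 := by
    fin_cases k <;> simp [cr, crossProduct, PiLp.inner_apply, Fin.sum_univ_three] <;> ring
  rw [funext h2]
  refine (congrArg (fun L : R3 →L[ℝ] ℝ => L (cr k x)) h3).trans ?_
  simp [h4]

theorem rot_rad (hθ : Rad θ) (hu : ContDiff ℝ ∞ u) (k : Fin 3) :
    rot k (fun y => θ y • u y) = fun x => θ x • rot k u x := by
  obtain ⟨L, hL⟩ := exists_crL k
  funext x
  rw [rot, rot, fderiv_fun_smul (hθ.contDiff.differentiable (by simp) x)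
    (hu.differentiable (by simp) x), ← hL (θ x • u x), map_smul, hL]
  simp [jcalc_rad hθ, smul_sub]

theorem cas_rad (hθ : Rad θ) (hu : ContDiff ℝ ∞ u) :
    cas (fun y => θ y • u y) = fun x => θ x • cas u x := by
  funext x
  simp only [cas, rot_rad hθ hu, rot_rad hθ (contDiff_rot hu _), Finset.smul_sum, smul_neg]

end

end Pool.Agent.Work.MP_6bf1e5_an.Ang
end

-- merged part: Pool.Agent.Work.MP_6bf1e5_an.Ang.JTr
section
/-!
`rot k` is a derivation for the transport term. With `L = cr k`: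
`D (tr a b) x (L x) = D²b x (L x) (a x) + Db x (Da x (L x))` and
`D (rot k b) x (a x) = L (Db x (a x)) - D²b x (a x) (L x) - Db x (L (a x))`; use the symmetry of the second derivative
(or work with components, `tr_apply`, `rot_apply`, `ang_eq`, `pd_comm`).
-/

open scoped ContDiff ENNReal FourierTransform Topology Matrix RealInnerProductSpace
open Set MeasureTheory Filter Metric Pool.Agent.Work.MP_6bf1e5_an.Ens
  Pool.Agent.Work.MP_6bf1e5_an.Mat

namespace Pool.Agent.Work.MP_6bf1e5_an.Ang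

noncomputable section

variable {a a' b b' : R3 → R3}

theorem tr_apply (hb : ContDiff ℝ ∞ b) (x : R3) (i : Fin 3) :
    tr a b x i = ∑ j, a x j * pd j (fun y => b y i) x := by
  have h1 : HasFDerivAt (fun y => b y i)
      ((EuclideanSpace.proj i : R3 →L[ℝ] ℝ).comp (fderiv ℝ b x)) x :=
    (EuclideanSpace.proj i : R3 →L[ℝ] ℝ).hasFDerivAt.comp x
      (hb.differentiable (by simp) x).hasFDerivAt
  rw [← fderiv_eq_sum_pd, h1.fderiv]
  rfl

theorem contDiff_tr (ha : ContDiff ℝ ∞ a) (hb : ContDiff ℝ ∞ b) : ContDiff ℝ ∞ (tr a b) :=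
  (hb.fderiv_right (m := ∞) le_rfl).clm_apply ha

theorem rot_tr (ha : ContDiff ℝ ∞ a) (hb : ContDiff ℝ ∞ b) (k : Fin 3) :
    rot k (tr a b) = fun x => tr (rot k a) b x + tr a (rot k b) x := by
  obtain ⟨L, hL⟩ := exists_crL k
  funext x
  have da : HasFDerivAt a (fderiv ℝ a x) x := (ha.differentiable (by simp) x).hasFDerivAt
  have db : HasFDerivAt b (fderiv ℝ b x) x := (hb.differentiable (by simp) x).hasFDerivAt
  have d2 : HasFDerivAt (fderiv ℝ b) (fderiv ℝ (fderiv ℝ b) x) x :=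
    ((hb.fderiv_right (m := ∞) le_rfl).differentiable (by simp) x).hasFDerivAt
  have sym := (hb.contDiffAt (x := x)).isSymmSndFDerivAt
    (by simp only [minSmoothness_of_isRCLikeNormedField]; exact WithTop.coe_le_coe.2 le_top)
  have h1 : HasFDerivAt (tr a b) _ x := d2.clm_apply da
  have e : rot k b = fun y => L (b y) - fderiv ℝ b y (L y) := by
    funext y
    rw [rot, hL, hL]
  have h2 : HasFDerivAt (fun y => L (b y) - fderiv ℝ b y (L y)) _ x :=
    (L.hasFDerivAt.comp x db).sub (d2.clm_apply L.hasFDerivAt)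
  change cr k (fderiv ℝ b x (a x)) - fderiv ℝ (tr a b) x (cr k x) =
    fderiv ℝ b x (cr k (a x) - fderiv ℝ a x (cr k x)) + fderiv ℝ (rot k b) x (a x)
  rw [h1.fderiv, e, h2.fderiv]
  simp only [← hL, _root_.add_apply, _root_.sub_apply,
    ContinuousLinearMap.comp_apply, ContinuousLinearMap.flip_apply, map_sub]
  rw [sym.eq (a x) (L x)]
  abel

theorem tr_sum_left {α : Type} (s : Finset α) (r : α → ℝ) (w : α → R3 → R3) (x : R3) :
    tr (fun y => ∑ i ∈ s, r i • w i y) b x = ∑ i ∈ s, r i • tr (w i) b x := by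
  simp only [tr, map_sum, map_smul]

theorem tr_sum_right {α : Type} (s : Finset α) (r : α → ℝ) {w : α → R3 → R3}
    (hw : ∀ i, ContDiff ℝ ∞ (w i)) (x : R3) :
    tr a (fun y => ∑ i ∈ s, r i • w i y) x = ∑ i ∈ s, r i • tr a (w i) x := by
  have h : HasFDerivAt (fun y => ∑ i ∈ s, r i • w i y) (∑ i ∈ s, r i • fderiv ℝ (w i) x) x :=
    HasFDerivAt.fun_sum fun i _ => ((hw i).differentiable (by simp) x).hasFDerivAt.const_smul (r i)
  simp only [tr, h.fderiv, _root_.sum_apply, _root_.smul_apply]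

end

end Pool.Agent.Work.MP_6bf1e5_an.Ang
end

-- merged part: Pool.Agent.Work.MP_6bf1e5_an.Ang.Approx
section
/-!
The theorem of Stone and Weierstrass for vector fields on a compact set
(`ContinuousMap.exists_mem_subalgebra_near_continuous_of_separatesPoints` for the subalgebra of `C(K, ℝ)` generated by the
coordinates, or the range of `MvPolynomial.aeval`; `MvPolynomial.induction_on` shows that `p(x) e_i` lies in `PolyV`).
-/

open scoped ContDiff ENNReal FourierTransform Topology Matrix RealInnerProductSpace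
open Set MeasureTheory Filter Metric Pool.Agent.Work.MP_6bf1e5_an.Ens
  Pool.Agent.Work.MP_6bf1e5_an.Mat

namespace Pool.Agent.Work.MP_6bf1e5_an.Ang

noncomputable section

/-- The coordinate functions. -/
def approx_co (j : Fin 3) : C(R3, ℝ) := ⟨fun x => x j, by fun_prop⟩

theorem approx_mem (p : MvPolynomial (Fin 3) ℝ) (i : Fin 3) :
    (fun x : R3 => (MvPolynomial.aeval approx_co p : C(R3, ℝ)) x •
      (EuclideanSpace.single i (1 : ℝ) : R3)) ∈ PolyV := by
  induction p using MvPolynomial.induction_on' with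
  | monomial α a =>
    have h : (fun x : R3 => (∏ j, x j ^ α j) • (EuclideanSpace.single i (1 : ℝ) : R3)) ∈ PolyV :=
      Submodule.subset_span ⟨α, i, rfl⟩
    convert PolyV.smul_mem a h using 1
    funext x
    rw [MvPolynomial.aeval_monomial, Finsupp.prod_fintype _ _ (by simp)]
    simp [approx_co, smul_smul, Algebra.algebraMap_eq_smul_one]
  | add p q hp hq =>
    convert PolyV.add_mem hp hq using 1
    funext x
    simp [add_smul]

theorem approx_sep :
    (MvPolynomial.aeval approx_co : MvPolynomial (Fin 3) ℝ →ₐ[ℝ] C(R3, ℝ)).range.SeparatesPoints := by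
  intro x y hxy
  obtain ⟨j, hj⟩ : ∃ j, x j ≠ y j := by
    by_contra h
    push Not at h
    exact hxy (by ext j; exact h j)
  exact ⟨approx_co j, ⟨approx_co j, ⟨MvPolynomial.X j, by simp⟩, rfl⟩, hj⟩

theorem poly_approx {Θ : R3 → R3} (hΘ : Continuous Θ) {K : Set R3} (hK : IsCompact K) {ε : ℝ}
    (hε : 0 < ε) : ∃ P ∈ PolyV, ∀ x ∈ K, ‖Θ x - P x‖ ≤ ε := by
  have h : ∀ i : Fin 3, ∃ p : MvPolynomial (Fin 3) ℝ, ∀ x ∈ K,
      ‖(MvPolynomial.aeval approx_co p : C(R3, ℝ)) x - Θ x i‖ < ε / 3 := by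
    intro i
    obtain ⟨g, ⟨p, rfl⟩, hg⟩ :=
      ContinuousMap.exists_mem_subalgebra_near_continuous_of_isCompact_of_separatesPoints
        approx_sep ⟨fun x => Θ x i, by fun_prop⟩ hK (by positivity : 0 < ε / 3)
    exact ⟨p, hg⟩
  choose p hp using h
  refine ⟨∑ i, fun x : R3 => (MvPolynomial.aeval approx_co (p i) : C(R3, ℝ)) x •
    (EuclideanSpace.single i (1 : ℝ) : R3), Submodule.sum_mem _ fun i _ => approx_mem _ i,
    fun x hx => ?_⟩
  have e : Θ x - (∑ i, fun x : R3 => (MvPolynomial.aeval approx_co (p i) : C(R3, ℝ)) x •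
      (EuclideanSpace.single i (1 : ℝ) : R3)) x =
      ∑ i, (Θ x i - (MvPolynomial.aeval approx_co (p i) : C(R3, ℝ)) x) •
        (EuclideanSpace.single i (1 : ℝ) : R3) := by
    ext j
    fin_cases j <;> simp [Fin.sum_univ_three]
  rw [e]
  refine (norm_sum_le _ _).trans ?_
  have b : ∀ i : Fin 3, ‖(Θ x i - (MvPolynomial.aeval approx_co (p i) : C(R3, ℝ)) x) •
      (EuclideanSpace.single i (1 : ℝ) : R3)‖ ≤ ε / 3 := by
    intro i
    rw [norm_smul, EuclideanSpace.norm_single, norm_one, mul_one, norm_sub_rev]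
    exact (hp i x hx).le
  rw [Fin.sum_univ_three]
  linarith [b 0, b 1, b 2]

end

end Pool.Agent.Work.MP_6bf1e5_an.Ang
end

-- merged part: Pool.Agent.Work.MP_6bf1e5_an.Ang.StableP
section
/-!
The stable manifold theorem with a projection: apply `stable` to `L' = L ∘ PY`, `B' y z = B (PY y) (PY z)`
(`ContinuousLinearMap.bilinearComp`), and apply the projections to the result.
-/

open scoped ContDiff ENNReal FourierTransform Topology Matrix RealInnerProductSpace
open Set MeasureTheory Filter Metric Pool.Agent.Work.MP_6bf1e5_an.Ens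
  Pool.Agent.Work.MP_6bf1e5_an.Mat

namespace Pool.Agent.Work.MP_6bf1e5_an.Ang

noncomputable section

theorem stableP {X Y : Type} [NormedAddCommGroup X] [NormedSpace ℂ X] [CompleteSpace X]
    [NormedAddCommGroup Y] [NormedSpace ℂ Y] [CompleteSpace Y]
    (H : X →L[ℂ] Y) (E : Y →L[ℂ] X) (B : Y →L[ℂ] Y →L[ℂ] Y) (σ : X →L[ℝ] X) (σ' : Y →L[ℝ] Y)
    (U : Y) (PX : X →L[ℂ] X) (PY : Y →L[ℂ] Y)
    (hL : ‖(B U + B.flip U) ∘L PY‖ < 1) (hEH : ‖E ∘L H‖ < 1)
    (hK : ∀ ε > 0, ∃ F : Y →L[ℂ] X, FiniteDimensional ℂ (LinearMap.range (F : Y →ₗ[ℂ] X)) ∧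
      ‖E ∘L (B U + B.flip U) - F‖ ≤ ε)
    (hσ : ∀ x, σ (σ x) = x) (hH : ∀ x, H (σ x) = σ' (H x)) (hE : ∀ y, E (σ' y) = σ (E y))
    (hU : σ' U = U) (hB : ∀ y z, B (σ' y) (σ' z) = σ' (B y z))
    (D : Submodule ℂ X) (hD : Dense (D : Set X)) (hDσ : ∀ x ∈ D, σ x ∈ D) (W : X) (hW : σ W = W)
    (pH : ∀ x, PY (H x) = H (PX x)) (pE : ∀ y, PX (E y) = E (PY y))
    (pσ : ∀ y, PY (σ' y) = σ' (PY y)) (pp : ∀ y, PY (PY y) = PY y)
    (pB : ∀ y z, PY y = y → PY z = z → PY (B y z) = B y z) (pU : PY U = U) (pW : PX W = W)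
    (pD : ∀ x ∈ D, PX x ∈ D) :
    ∃ ρ : ℝ, 0 < ρ ∧ ρ < 1 ∧ ∃ (v : ℕ → X) (y : ℕ → Y), W + v 0 ∈ D ∧ ∀ n,
      y n + (B U (y n) + B (y n) U) + B (y n) (y n) = H (v n) ∧ v (n + 1) = E (y n) ∧
        σ' (y n) = y n ∧ ‖y n‖ ≤ ‖PY‖ * ρ ^ n ∧ PY (y n) = y n := by
  have hK' : ∀ ε > 0, ∃ F : Y →L[ℂ] X, FiniteDimensional ℂ (LinearMap.range (F : Y →ₗ[ℂ] X)) ∧
      ‖E ∘L ((B U + B.flip U) ∘L PY) - F‖ ≤ ε := fun ε hε => by
    obtain ⟨F, hF, hFn⟩ := hK (ε / (‖PY‖ + 1)) (by positivity)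
    refine ⟨F ∘L PY, ?_, ?_⟩
    · refine Submodule.finiteDimensional_of_le (S₂ := LinearMap.range (F : Y →ₗ[ℂ] X)) ?_
      rintro _ ⟨x, rfl⟩
      exact ⟨PY x, rfl⟩
    · have e : E ∘L ((B U + B.flip U) ∘L PY) - F ∘L PY = (E ∘L (B U + B.flip U) - F) ∘L PY := by
        ext x
        rfl
      rw [e]
      refine (((E ∘L (B U + B.flip U) - F).opNorm_comp_le PY).trans
        (mul_le_mul_of_nonneg_right hFn (norm_nonneg _))).trans ?_
      rw [div_mul_eq_mul_div, div_le_iff₀ (by positivity)]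
      nlinarith
  have hL0 : ∀ y, ((B U + B.flip U) ∘L PY) y = B U (PY y) + B (PY y) U := fun y => rfl
  have hB0 : ∀ y z, B.bilinearComp PY PY y z = B (PY y) (PY z) := fun y z =>
    ContinuousLinearMap.bilinearComp_apply B PY PY y z
  obtain ⟨ρ, h0, h1, v, y, hv, hy⟩ := stable H E ((B U + B.flip U) ∘L PY) (B.bilinearComp PY PY)
    σ σ' hL hEH hK' hσ hH hE
    (fun y => by rw [hL0, hL0, pσ, map_add, ← hB, ← hB, hU])
    (fun y z => by rw [hB0, hB0, pσ, pσ, hB]) D hD hDσ W hW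
  refine ⟨ρ, h0, h1, fun n => PX (v n), fun n => PY (y n), ?_, fun n => ?_⟩
  · have := pD _ hv
    rwa [map_add, pW] at this
  · obtain ⟨e1, e2, e3, e4⟩ := hy n
    refine ⟨?_, ?_, ?_, ?_, pp _⟩
    · have := congrArg PY e1
      rwa [hL0, hB0, map_add, map_add, map_add, pB _ _ pU (pp _), pB _ _ (pp _) pU,
        pB _ _ (pp _) (pp _), pH] at this
    · simp only [e2, pE]
    · simp only [← pσ, e3]
    · exact (PY.le_opNorm _).trans (mul_le_mul_of_nonneg_left e4 (norm_nonneg _))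

end

end Pool.Agent.Work.MP_6bf1e5_an.Ang
end
end

-- merged part: Pool.Agent.Work.MP_6bf1e5_an.Ang.Single
section
/-!
The angular momentum of the single field and of the removed part of its transport term (checked in exact arithmetic).
Suggested: let `w : Fin 5 → R3 → R3` be `u (0,0), u (1,1), u (0,1), u (0,2), u (1,2)`; by `swap` and `trace` every `u a` is
`∑ m, C a m • w m`, and `rot k (w m) = ∑ n, A k m n • w n` with explicit integer matrices. For `F T = ∑ m n, T m n • tr (w m) (w n)` one has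
`rot k (F T) = F ((A k)ᵀ T + T (A k))` (`rot_tr`, `tr_sum_left`, `tr_sum_right`), and `frc u = F T4` with an explicit rational matrix `T4`;
the rest is a computation with `5 × 5` matrices.
-/

open scoped ContDiff ENNReal FourierTransform Topology Matrix RealInnerProductSpace
open Set MeasureTheory Filter Metric Pool.Agent.Work.MP_6bf1e5_an.Ens
  Pool.Agent.Work.MP_6bf1e5_an.Mat

namespace Pool.Agent.Work.MP_6bf1e5_an.Ang

noncomputable section

variable {u : I2 → R3 → R3}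

theorem contDiff_one (h : ∀ a, ContDiff ℝ ∞ (u a)) : ContDiff ℝ ∞ (one u) :=
  (((h _).add (h _)).sub ((h _).const_smul _)).const_smul _

theorem single_contDiff_trJ (h : ∀ a, ContDiff ℝ ∞ (u a)) (a : I2) : ContDiff ℝ ∞ (trJ u a) :=
  ContDiff.sum fun b _ => ContDiff.sum fun d _ => (contDiff_tr (h b) (h d)).const_smul _

theorem contDiff_frc (h : ∀ a, ContDiff ℝ ∞ (u a)) : ContDiff ℝ ∞ (frc u) :=
  ((contDiff_tr (contDiff_one h) (contDiff_one h)).sub
    (contDiff_one (single_contDiff_trJ h))).sub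
    ((ContDiff.sum fun p _ => single_contDiff_trJ h (p, p)).const_smul _)

/-- The five independent fields. -/
def singleW (u : I2 → R3 → R3) : Fin 5 → R3 → R3 :=
  ![u (0, 0), u (1, 1), u (0, 1), u (0, 2), u (1, 2)]

/-- The matrices of the generators on the five fields. -/
def singleA : Fin 3 → Matrix (Fin 5) (Fin 5) ℤ :=
  ![!![0, 0, 0, 0, 0; 0, 0, 0, 0, 2; 0, 0, 0, 1, 0; 0, 0, -1, 0, 0; -1, -2, 0, 0, 0],
    !![0, 0, 0, -2, 0; 0, 0, 0, 0, 0; 0, 0, 0, 0, -1; 2, 1, 0, 0, 0; 0, 0, 1, 0, 0],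
    !![0, 0, 2, 0, 0; 0, 0, -2, 0, 0; -1, 1, 0, 0, 0; 0, 0, 0, 0, 1; 0, 0, 0, -1, 0]]

/-- The matrix of the removed part. -/
def singleT : Matrix (Fin 5) (Fin 5) ℤ :=
  !![19, 17, 0, 0, 0; 17, 19, 0, 0, 0; 0, 0, 4, 0, 0; 0, 0, 0, -16, 0; 0, 0, 0, 0, -16]

/-- The action on bilinear expressions. -/
def singleD (k : Fin 3) (T : Matrix (Fin 5) (Fin 5) ℤ) : Matrix (Fin 5) (Fin 5) ℤ :=
  (singleA k)ᵀ * T + T * singleA k

theorem single_casT : -∑ k, singleD k (singleD k singleT) = (20 : ℤ) • singleT := by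
  decide

theorem single_casO : -∑ k, (![1, 1, 0, 0, 0] ᵥ* singleA k) ᵥ* singleA k
    = (6 : ℤ) • (![1, 1, 0, 0, 0] : Fin 5 → ℤ) := by
  decide

theorem single_Km (k i j : Fin 3) : Km k i j =
    ![!![0, 0, 0; 0, 0, -1; 0, 1, 0], !![0, 0, 1; 0, 0, 0; -1, 0, 0],
      !![0, -1, 0; 1, 0, 0; 0, 0, 0]] k i j := by
  fin_cases k <;> fin_cases i <;> fin_cases j <;> simp [Km, cr, crossProduct]

theorem single_smooth (h : IEq u) (m : Fin 5) : ContDiff ℝ ∞ (singleW u m) := by
  fin_cases m <;> exact h.smooth _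

theorem single_22 (h : IEq u) (x : R3) : u (2, 2) x = -u (0, 0) x - u (1, 1) x := by
  have := h.trace x
  rw [Fin.sum_univ_three] at this
  linear_combination (norm := module) this

theorem single_rot (h : IEq u) (k : Fin 3) (m : Fin 5) :
    rot k (singleW u m) = fun x => ∑ n, (singleA k m n : ℝ) • singleW u n x := by
  have h10 : u (1, 0) = u (0, 1) := h.swap (0, 1)
  have h20 : u (2, 0) = u (0, 2) := h.swap (0, 2)
  have h21 : u (2, 1) = u (1, 2) := h.swap (1, 2)
  funext x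
  have h22 := single_22 h x
  fin_cases k <;> fin_cases m <;>
    simp [singleW, singleA, h.inf, single_Km, Fin.sum_univ_three, Fin.sum_univ_five, h10, h20,
      h21, h22] <;> module

/-- Linear expressions. -/
def singleL (u : I2 → R3 → R3) (c : Fin 5 → ℤ) (x : R3) : R3 := ∑ m, (c m : ℝ) • singleW u m x

/-- Bilinear expressions. -/
def singleF (u : I2 → R3 → R3) (T : Matrix (Fin 5) (Fin 5) ℤ) (x : R3) : R3 :=
  ∑ m, ∑ n, (T m n : ℝ) • tr (singleW u m) (singleW u n) x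

theorem single_rotL (h : IEq u) (k : Fin 3) (c : Fin 5 → ℤ) :
    rot k (singleL u c) = singleL u (c ᵥ* singleA k) := by
  have hs := single_smooth h
  have e : rot k (singleL u c) = fun x => ∑ m, rot k (fun y => (c m : ℝ) • singleW u m y) x :=
    rot_sum Finset.univ (fun m => (hs m).const_smul _) k
  rw [e]
  funext x
  simp only [rot_smul _ (hs _), single_rot h, singleL, Matrix.vecMul, dotProduct, Finset.smul_sum,
    smul_smul, Int.cast_sum, Int.cast_mul, Finset.sum_smul]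
  exact Finset.sum_comm

theorem single_rotF (h : IEq u) (k : Fin 3) (T : Matrix (Fin 5) (Fin 5) ℤ) :
    rot k (singleF u T) = singleF u (singleD k T) := by
  have hs := single_smooth h
  have ht : ∀ m n, ContDiff ℝ ∞ (tr (singleW u m) (singleW u n)) := fun m n =>
    contDiff_tr (hs m) (hs n)
  have e : rot k (singleF u T) = fun x => ∑ m,
      rot k (fun y => ∑ n, (T m n : ℝ) • tr (singleW u m) (singleW u n) y) x :=
    rot_sum Finset.univ (fun m => ContDiff.sum fun n _ => (ht m n).const_smul _) k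
  have e2 : ∀ m, rot k (fun y => ∑ n, (T m n : ℝ) • tr (singleW u m) (singleW u n) y) =
      fun x => ∑ n, rot k (fun y => (T m n : ℝ) • tr (singleW u m) (singleW u n) y) x :=
    fun m => rot_sum Finset.univ (fun n => (ht m n).const_smul _) k
  rw [e]
  funext x
  simp only [e2, rot_smul _ (ht _ _), rot_tr (hs _) (hs _), single_rot h, tr_sum_left,
    tr_sum_right _ _ hs, singleF, singleD, Matrix.add_apply, Matrix.mul_apply,
    Matrix.transpose_apply, Int.cast_add, Int.cast_sum, Int.cast_mul, add_smul, smul_add,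
    Finset.sum_smul, Finset.smul_sum, smul_smul, Finset.sum_add_distrib]
  congr 1
  · rw [Finset.sum_comm]
    conv_rhs => rw [Finset.sum_comm]
    refine Finset.sum_congr rfl fun n _ => ?_
    rw [Finset.sum_comm]
    refine Finset.sum_congr rfl fun l _ => Finset.sum_congr rfl fun m _ => ?_
    rw [mul_comm]
  · refine Finset.sum_congr rfl fun m _ => ?_
    exact Finset.sum_comm

theorem single_oneL (h : IEq u) :
    one u = fun x => (-(7 / 4) : ℝ) • singleL u ![1, 1, 0, 0, 0] x := by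
  funext x
  simp [one, singleL, singleW, Fin.sum_univ_five, single_22 h]
  module

theorem single_smoothL (h : IEq u) (c : Fin 5 → ℤ) : ContDiff ℝ ∞ (singleL u c) :=
  ContDiff.sum fun m _ => (single_smooth h m).const_smul _

theorem single_smoothF (h : IEq u) (T : Matrix (Fin 5) (Fin 5) ℤ) : ContDiff ℝ ∞ (singleF u T) :=
  ContDiff.sum fun m _ => ContDiff.sum fun n _ =>
    (contDiff_tr (single_smooth h m) (single_smooth h n)).const_smul _

theorem IEq.cas_one (h : IEq u) (x : R3) : cas (one u) x = (6 : ℝ) • one u x := by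
  rw [single_oneL h, cas_smul _ (single_smoothL h _)]
  have e : cas (singleL u ![1, 1, 0, 0, 0]) x =
      singleL u (-∑ k, (![1, 1, 0, 0, 0] ᵥ* singleA k) ᵥ* singleA k) x := by
    simp only [cas, single_rotL h, singleL, Pi.neg_apply, Finset.sum_apply, Int.cast_neg,
      Int.cast_sum, neg_smul, Finset.sum_smul, Finset.sum_neg_distrib]
    rw [Finset.sum_comm]
  simp only [e, single_casO]
  simp only [singleL, Pi.smul_apply, smul_eq_mul, Int.cast_mul, mul_smul, ← Finset.smul_sum]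
  rw [smul_comm]
  norm_num

theorem single_cJ (p : Fin 3) (b d : I2) : cJ 3 (p, p) b d = ∑ s, Sb b p s * Sb d p s := by
  have hs : ∀ s, Sb d s p = Sb d p s := fun s => by
    simp only [Sb, and_comm, add_comm]
  have e : Sb (p, p) = Matrix.single p p (1 : ℝ) := by
    ext r s
    simp only [Sb, Matrix.single_apply, eq_comm]
    split_ifs <;> norm_num
  rw [cJ, e, Matrix.mul_assoc, Matrix.trace_single_mul]
  simp [Matrix.mul_apply, hs]

theorem single_Sb (h : IEq u) (p s : Fin 3) :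
    (fun y => ∑ b : I2, Sb b p s • u b y) = u (p, s) := by
  funext y
  have e : ∀ b : I2, Sb b p s • u b y = (1 / 2 : ℝ) • ((if b = (p, s) then u b y else 0) +
      (if b = (s, p) then u b y else 0)) := fun b => by
    obtain ⟨b1, b2⟩ := b
    simp only [Sb, Prod.mk.injEq, eq_comm, and_comm]
    split_ifs <;> module
  have hsw : u (s, p) = u (p, s) := h.swap (p, s)
  simp only [e, ← Finset.smul_sum, Finset.sum_add_distrib, Finset.sum_ite_eq', Finset.mem_univ,
    if_true, hsw]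
  module

theorem single_trJ (h : IEq u) (p : Fin 3) (x : R3) :
    trJ u (p, p) x = ∑ s, tr (u (p, s)) (u (p, s)) x := by
  have e : ∀ s, tr (u (p, s)) (u (p, s)) x =
      ∑ b : I2, ∑ d : I2, (Sb b p s * Sb d p s) • tr (u b) (u d) x := fun s => by
    conv_lhs => rw [← single_Sb h p s]
    rw [tr_sum_left]
    simp only [tr_sum_right _ _ h.smooth, Finset.smul_sum, smul_smul]
  simp only [e, trJ, single_cJ, Finset.sum_smul]
  conv_rhs => rw [Finset.sum_comm]
  exact Finset.sum_congr rfl fun b _ => Finset.sum_comm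

theorem single_trL (h : IEq u) (r : ℝ) (c : Fin 5 → ℤ) (x : R3) :
    tr (fun y => r • singleL u c y) (fun y => r • singleL u c y) x =
      ∑ m, ∑ n, (r * c m * (r * c n)) • tr (singleW u m) (singleW u n) x := by
  simp only [singleL, Finset.smul_sum, smul_smul]
  rw [tr_sum_left]
  simp only [tr_sum_right _ _ (single_smooth h), Finset.smul_sum, smul_smul]

theorem single_frcF (h : IEq u) : frc u = fun x => (7 / 80 : ℝ) • singleF u singleT x := by
  have h10 : u (1, 0) = u (0, 1) := h.swap (0, 1)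
  have h20 : u (2, 0) = u (0, 2) := h.swap (0, 2)
  have h21 : u (2, 1) = u (1, 2) := h.swap (1, 2)
  have h22 : u (2, 2) = fun y => (-1 : ℝ) • singleL u ![1, 1, 0, 0, 0] y := by
    funext y
    simp [singleL, singleW, Fin.sum_univ_five, single_22 h]
    module
  funext x
  have e1 := single_trL h (-(7 / 4)) ![1, 1, 0, 0, 0] x
  have e2 := single_trL h (-1) ![1, 1, 0, 0, 0] x
  rw [← single_oneL h] at e1
  rw [← h22] at e2
  rw [frc, e1]
  simp only [one, single_trJ h, Fin.sum_univ_three, e2, h10, h20, h21]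
  simp [singleF, singleT, singleW, Fin.sum_univ_five]
  module

theorem IEq.cas_frc (h : IEq u) (x : R3) : cas (frc u) x = (20 : ℝ) • frc u x := by
  rw [single_frcF h, cas_smul _ (single_smoothF h _)]
  have e : cas (singleF u singleT) x = singleF u (-∑ k, singleD k (singleD k singleT)) x := by
    simp only [cas, single_rotF h, singleF, Matrix.neg_apply, Matrix.sum_apply, Int.cast_neg,
      Int.cast_sum, neg_smul, Finset.sum_smul, Finset.sum_neg_distrib]
    rw [Finset.sum_comm]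
    exact congrArg Neg.neg (Finset.sum_congr rfl fun m _ => Finset.sum_comm)
  simp only [e, single_casT]
  simp only [singleF, Matrix.smul_apply, smul_eq_mul, Int.cast_mul, mul_smul, ← Finset.smul_sum]
  rw [smul_comm]
  norm_num

end

end Pool.Agent.Work.MP_6bf1e5_an.Ang
end
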