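import Pool.Agent.Work.MP_6bf1e5_an.Ens.Stmt

/-!
Definitions used in the statement about the Navier-Stokes equations on `ℝ³` projected onto a set
of eigenspaces of the total angular momentum.
-/

open scoped ContDiff ENNReal RealInnerProductSpace
open Set MeasureTheory Pool.Agent.Work.MP_6bf1e5_an.Ens

namespace Pool.Agent.Work.MP_6bf1e5_an.Ang

noncomputable section

/-- The cross product `e_k × v`. -/
def cr (k : Fin 3) (v : R3) : R3 := WithLp.toLp 2 (crossProduct (Pi.single k 1) v.ofLp)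

/-- The generator of the rotations `u ↦ R u (R⁻¹ ·)` about the `k`-th coordinate axis. -/
def rot (k : Fin 3) (u : R3 → R3) (x : R3) : R3 := cr k (u x) - fderiv ℝ u x (cr k x)

/-- The total angular momentum `J² = - ∑ k, rot k ∘ rot k`; its eigenvalues are `j (j + 1)`. -/
def cas (u : R3 → R3) (x : R3) : R3 := -∑ k, rot k (rot k u) x

/-- `u` has components only in the eigenspaces of `J²` with eigenvalue in `Λ`. -/
def Comp (Λ : Set ℝ) (u : R3 → R3) : Prop :=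
  ∀ l ∉ Λ, ∀ φ : R3 → R3, ContDiff ℝ ∞ φ → HasCompactSupport φ → (∀ x, cas φ x = l • φ x) →
    ∫ x, ⟪u x, φ x⟫ = 0

/-- The curl. -/
def curl (u : R3 → R3) (x : R3) : R3 := WithLp.toLp 2 fun i =>
  pd (i + 1) (fun y => u y (i + 2)) x - pd (i + 2) (fun y => u y (i + 1)) x

/-- `(u, p, f)` is a smooth solution on `ℝ³ × I` of `∂ₜ u + (u·∇) u + ∇ p = ν Δ u + f`,
`div u = 0`, `u (·,0) = u0`, where `u` has components only in `Λ` and the multiplier `f` has
components only outside `Λ`. -/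
structure GSol (ν : ℝ) (Λ : Set ℝ) (u0 : R3 → R3) (I : Set ℝ) (u : R3 → ℝ → R3)
    (p : R3 → ℝ → ℝ) (f : R3 → ℝ → R3) : Prop where
  smooth_u : ContDiffOn ℝ ∞ (fun z : R3 × ℝ => u z.1 z.2) (univ ×ˢ I)
  smooth_p : ContDiffOn ℝ ∞ (fun z : R3 × ℝ => p z.1 z.2) (univ ×ˢ I)
  smooth_f : ContDiffOn ℝ ∞ (fun z : R3 × ℝ => f z.1 z.2) (univ ×ˢ I)
  momentum : ∀ x, ∀ t ∈ I, ∀ i,
    derivWithin (fun s => u x s i) I t + ∑ j, u x t j * pd j (fun y => u y t i) x
      + pd i (fun y => p y t) x = ν * ∑ j, pd j (pd j fun y => u y t i) x + f x t i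
  divFree : ∀ x, ∀ t ∈ I, ∑ i, pd i (fun y => u y t i) x = 0
  initial : ∀ x, u x 0 = u0 x
  kept : ∀ t ∈ I, Comp Λ fun x => u x t
  removed : ∀ t ∈ I, Comp Λᶜ fun x => f x t

/-- The energy `∫ |v|²` (possibly infinite). -/
def en (v : R3 → R3) : ℝ≥0∞ := ∫⁻ x, ‖v x‖ₑ ^ 2

end

end Pool.Agent.Work.MP_6bf1e5_an.Ang
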